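import Pool.Agent.Lib.MP_c86c76_al.An.St

/-!
Basic facts on flat sections: change of gauge, integrability, affine combinations.
-/

set_option autoImplicit false

namespace Pool.Agent.MA

open Complex MeasureTheory Filter Topology Set Function
open scoped InnerProductSpace

lemma bas_cf_ne {n : ℕ} {T : Fin n → ℂ} (hT : Injective T) {z : ℂ} (hz : ∀ i, T i ≠ z)
    {i j : Option (Fin n)} (hij : i ≠ j) : cf z T j - cf z T i ≠ 0 := by
  rw [sub_ne_zero]
  cases i with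
  | none =>
    cases j with
    | none => exact absurd rfl hij
    | some j => exact hz j
  | some i =>
    cases j with
    | none => exact (hz i).symm
    | some j => exact fun h => hij (congrArg some (hT h).symm)

lemma bas_cf_cont {n : ℕ} (T : Fin n → ℂ) (i : Option (Fin n)) :
    Continuous fun z => cf z T i := by
  cases i with
  | none => exact continuous_id
  | some i => exact continuous_const

lemma bas_nr_ev {n : ℕ} {T : Fin n → ℂ} (hT : Injective T) {z0 : ℂ} (hz : ∀ i, T i ≠ z0) :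
    ∀ᶠ z in 𝓝 z0, Nr (cf z0 T) (cf z T) := by
  unfold Nr
  refine eventually_all.2 fun i => eventually_all.2 fun j => ?_
  by_cases hij : i = j
  · exact Eventually.of_forall fun z h => absurd hij h
  · have hc : Continuous fun z => ‖(cf z T j - cf z T i) - (cf z0 T j - cf z0 T i)‖ :=
      (((bas_cf_cont T j).sub (bas_cf_cont T i)).sub continuous_const).norm
    have h0 : ‖(cf z0 T j - cf z0 T i) - (cf z0 T j - cf z0 T i)‖ < ‖cf z0 T j - cf z0 T i‖ := by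
      rw [sub_self, norm_zero]
      exact norm_pos_iff.2 (bas_cf_ne hT hz hij)
    exact (hc.continuousAt.eventually_lt continuousAt_const h0).mono fun z h _ => h

lemma bas_ne_ev {n : ℕ} {T : Fin n → ℂ} {z0 : ℂ} (hz : ∀ i, T i ≠ z0) :
    ∀ᶠ z in 𝓝 z0, ∀ i, T i ≠ z :=
  eventually_all.2 fun i => (eventually_ne_nhds (hz i).symm).mono fun _ h => h.symm

lemma bas_line_null (c : ℝ) : volume {z : ℂ | z.im = c} = 0 := by
  have h := Measure.addHaar_affineSubspace (volume : Measure ℂ)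
    (AffineSubspace.mk' (c * I : ℂ) (LinearMap.ker Complex.imLm)) (by
      intro h
      have h1 : ((c * I + I : ℂ)) ∈ AffineSubspace.mk' (c * I : ℂ) (LinearMap.ker Complex.imLm) := by
        rw [h]; trivial
      rw [AffineSubspace.mem_mk'] at h1
      simp at h1)
  refine measure_mono_null (fun z hz => ?_) h
  have hz' : z.im = c := hz
  show z ∈ AffineSubspace.mk' (c * I : ℂ) (LinearMap.ker Complex.imLm)
  rw [AffineSubspace.mem_mk']
  simp [hz']

lemma bas_ae_off {n : ℕ} (T : Fin n → ℂ) : ∀ᵐ z : ℂ, ∀ i, (T i).im ≠ z.im := by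
  rw [ae_all_iff]
  intro i
  have h := bas_line_null (T i).im
  rw [ae_iff]
  convert h using 2
  ext z
  simp [eq_comm]

section Hilbert

variable {H : Type} [NormedAddCommGroup H] [InnerProductSpace ℂ H] {n : ℕ}

lemma bas_aff (g : H ≃ᵃⁱ[ℂ] H) (x : H) : g x = g.linearIsometryEquiv x + g 0 := by
  have h := g.map_vadd (0 : H) x
  simpa using h

lemma bas_aff_comb (g : H ≃ᵃⁱ[ℂ] H) (x y w : H) (c : ℂ) :
    g (x + c • (y - w)) = g x + c • (g y - g w) := by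
  rw [bas_aff g (x + c • (y - w)), bas_aff g x, bas_aff g y, bas_aff g w]
  simp only [map_add, map_smul, map_sub, smul_sub, smul_add]
  abel

lemma bas_fderiv (g : H ≃ᵃⁱ[ℂ] H) (u : ℂ → H) (z v : ℂ) :
    fderiv ℝ (fun z => g (u z)) z v = g.linearIsometryEquiv (fderiv ℝ u z v) := by
  have h1 : (fun z => g (u z)) = fun z =>
      ((g.linearIsometryEquiv.toContinuousLinearEquiv.restrictScalars ℝ) ∘ u) z + g 0 := by
    funext z
    exact bas_aff g (u z)
  rw [h1, fderiv_add_const, ContinuousLinearEquiv.comp_fderiv]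
  rfl

lemma bas_one (τ : Tr n (H ≃ᵃⁱ[ℂ] H)) {T : Fin n → ℂ} (hT : Injective T) {z : ℂ}
    (hz : ∀ i, T i ≠ z) : τ.c (cf z T) (cf z T) = 1 := by
  have h := (bas_nr_ev hT hz).self_of_nhds
  have h1 := τ.co _ _ _ h h h
  exact left_eq_mul.1 h1

lemma bas_gauge (τ : Tr n (H ≃ᵃⁱ[ℂ] H)) {T : Fin n → ℂ} (hT : Injective T) (U : ℂ → H) {z0 : ℂ}
    (hz : ∀ i, T i ≠ z0) : ∀ᶠ z1 in 𝓝 z0, (∀ i, T i ≠ z1) ∧
    gz τ T U z1 =ᶠ[𝓝 z1] fun z => τ.c (cf z0 T) (cf z1 T) (gz τ T U z0 z) := by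
  filter_upwards [bas_ne_ev hz, bas_nr_ev hT hz, (bas_nr_ev hT hz).eventually_nhds] with
    z1 h1 h2 h3
  refine ⟨h1, ?_⟩
  filter_upwards [h3, bas_nr_ev hT h1] with z h4 h5
  have h6 := τ.co _ _ _ h2 h4 h5
  have h7 : (τ.c (cf z1 T) (cf z T))⁻¹ =
      τ.c (cf z0 T) (cf z1 T) * (τ.c (cf z0 T) (cf z T))⁻¹ := by
    rw [h6]; group
  show (τ.c (cf z1 T) (cf z T))⁻¹ (U z) =
    τ.c (cf z0 T) (cf z1 T) ((τ.c (cf z0 T) (cf z T))⁻¹ (U z))
  rw [h7]
  rfl

lemma bas_dd (τ : Tr n (H ≃ᵃⁱ[ℂ] H)) {T : Fin n → ℂ} (hT : Injective T) (U : ℂ → H) {z0 : ℂ}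
    (hz : ∀ i, T i ≠ z0) : ∀ᶠ z1 in 𝓝 z0, ∀ v, DD τ T U z1 v =
    (τ.c (cf z0 T) (cf z1 T)).linearIsometryEquiv (fderiv ℝ (gz τ T U z0) z1 v) := by
  filter_upwards [bas_gauge τ hT U hz] with z1 h v
  unfold DD
  rw [h.2.fderiv_eq, bas_fderiv]

lemma bas_meas (τ : Tr n (H ≃ᵃⁱ[ℂ] H)) {T : Fin n → ℂ} (hT : Injective T) {U : ℂ → H}
    (hU : IsSec τ T U) : AEStronglyMeasurable (DD τ T U) volume := by
  have hO : IsOpen {z : ℂ | ∀ i, (T i).im ≠ z.im} := by
    rw [Set.ofPred_forall]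
    exact isOpen_iInter_of_finite fun i =>
      isOpen_ne_fun continuous_const Complex.continuous_im
  have hc : ContinuousOn (DD τ T U) {z : ℂ | ∀ i, (T i).im ≠ z.im} := by
    intro z0 hz0
    have hz : ∀ i, T i ≠ z0 := fun i h => hz0 i (by rw [h])
    have h1 : ContinuousAt (fderiv ℝ (gz τ T U z0)) z0 :=
      (hU.1 z0 hz).continuousAt_fderiv (by norm_num)
    refine (h1.congr ?_).continuousWithinAt
    filter_upwards [bas_dd τ hT U hz, τ.loc z0 T hz0] with z1 h2 h3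
    ext1 v
    rw [h2 v, h3]
    rfl
  have h := hc.aestronglyMeasurable (μ := volume) hO.measurableSet
  have hae : ∀ᵐ z : ℂ, z ∈ {z : ℂ | ∀ i, (T i).im ≠ z.im} := bas_ae_off T
  rwa [Measure.restrict_eq_self_of_ae_mem hae] at h

lemma bas_norm_cont (τ : Tr n (H ≃ᵃⁱ[ℂ] H)) {T : Fin n → ℂ} (hT : Injective T) {U : ℂ → H}
    (hU : IsSec τ T U) {z0 : ℂ} (hz : ∀ i, T i ≠ z0) :
    ContinuousAt (fun z => ‖DD τ T U z‖) z0 := by
  have h1 : ContinuousAt (fun z => ‖fderiv ℝ (gz τ T U z0) z‖) z0 :=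
    ((hU.1 z0 hz).continuousAt_fderiv (by norm_num)).norm
  refine h1.congr ?_
  filter_upwards [bas_dd τ hT U hz] with z1 h2
  refine ContinuousLinearMap.opNorm_ext _ _ fun v => ?_
  rw [h2 v, LinearIsometryEquiv.norm_map]

lemma bas_memLp (τ : Tr n (H ≃ᵃⁱ[ℂ] H)) {T : Fin n → ℂ} (hT : Injective T) {U : ℂ → H}
    (hU : IsSec τ T U) : MemLp (DD τ T U) 2 volume := by
  obtain ⟨K, hK, hKT, hoff⟩ := hU.2
  have hc : ContinuousOn (fun z => ‖DD τ T U z‖) K := fun z hz =>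
    (bas_norm_cont τ hT hU fun i h => hKT i (h ▸ hz)).continuousWithinAt
  obtain ⟨C, hC⟩ := hK.exists_bound_of_continuousOn hc
  refine MemLp.of_le (memLp_indicator_const 2 hK.measurableSet C (Or.inr hK.measure_lt_top.ne))
    (bas_meas τ hT hU) ?_
  filter_upwards [bas_ae_off T] with z hz0
  have hz : ∀ i, T i ≠ z := fun i h => hz0 i (by rw [h])
  by_cases hzK : z ∈ K
  · rw [indicator_of_mem hzK]
    have h := hC z hzK
    rw [norm_norm] at h
    exact h.trans (le_abs_self C)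
  · have h1 : gz τ T U z =ᶠ[𝓝 z] fun _ => U z := hoff z hzK hz
    have h2 : DD τ T U z = 0 := by
      unfold DD
      rw [h1.fderiv_eq]
      simp
    rw [h2, norm_zero]
    exact norm_nonneg _

lemma bas_pt (D : ℂ →L[ℝ] H) :
    ‖D‖ ^ 2 ≤ ‖D 1 - I • D I‖ ^ 2 + ‖D 1 + I • D I‖ ^ 2 := by
  have hpar := parallelogram_law_with_norm ℂ (D 1) (I • D I)
  have hI : ‖I • D I‖ = ‖D I‖ := by rw [norm_smul, Complex.norm_I, one_mul]
  rw [hI] at hpar
  have hb : ‖D‖ ≤ ‖D 1‖ + ‖D I‖ := by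
    refine ContinuousLinearMap.opNorm_le_bound _ (by positivity) fun z => ?_
    have hz : z = z.re • (1 : ℂ) + z.im • I := by
      apply Complex.ext <;> simp
    have h1 : D z = z.re • D 1 + z.im • D I := by
      conv_lhs => rw [hz]
      rw [map_add, map_smul, map_smul]
    rw [h1]
    calc ‖z.re • D 1 + z.im • D I‖ ≤ ‖z.re • D 1‖ + ‖z.im • D I‖ := norm_add_le _ _
      _ = |z.re| * ‖D 1‖ + |z.im| * ‖D I‖ := by
        rw [norm_smul, norm_smul, Real.norm_eq_abs, Real.norm_eq_abs]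
      _ ≤ ‖z‖ * ‖D 1‖ + ‖z‖ * ‖D I‖ :=
        add_le_add (mul_le_mul_of_nonneg_right (Complex.abs_re_le_norm z) (norm_nonneg _))
          (mul_le_mul_of_nonneg_right (Complex.abs_im_le_norm z) (norm_nonneg _))
      _ = (‖D 1‖ + ‖D I‖) * ‖z‖ := by ring
  have h2 : ‖D‖ ^ 2 ≤ (‖D 1‖ + ‖D I‖) ^ 2 := pow_le_pow_left₀ (norm_nonneg _) hb 2
  nlinarith [sq_nonneg (‖D 1‖ - ‖D I‖)]

lemma bas_int (τ : Tr n (H ≃ᵃⁱ[ℂ] H)) {T : Fin n → ℂ} (hT : Injective T) {U : ℂ → H}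
    (hU : IsSec τ T U) : MemLp (d1 τ T U) 2 volume ∧ MemLp (d2 τ T U) 2 volume ∧
    Integrable (fun z => ‖DD τ T U z‖ ^ 2) ∧ ∫ z, ‖DD τ T U z‖ ^ 2 ≤ en τ T U := by
  have h := bas_memLp τ hT hU
  have hv : ∀ v : ℂ, MemLp (fun z => DD τ T U z v) 2 volume := fun v =>
    (ContinuousLinearMap.apply ℝ H v).comp_memLp' h
  have h1 : MemLp (d1 τ T U) 2 volume := (hv 1).sub ((hv I).const_smul I)
  have h2 : MemLp (d2 τ T U) 2 volume := (hv 1).add ((hv I).const_smul I)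
  have h3 := (memLp_two_iff_integrable_sq_norm h.1).1 h
  refine ⟨h1, h2, h3, ?_⟩
  exact integral_mono h3 (((memLp_two_iff_integrable_sq_norm h1.1).1 h1).add
    ((memLp_two_iff_integrable_sq_norm h2.1).1 h2)) fun z => bas_pt (DD τ T U z)

lemma bas_comb (τ : Tr n (H ≃ᵃⁱ[ℂ] H)) (T : Fin n → ℂ) (U U' U'' : ℂ → H) (c : ℂ)
    (hU : IsSec τ T U) (hU' : IsSec τ T U') (hU'' : IsSec τ T U'') :
    IsSec τ T (fun z => U z + c • (U' z - U'' z)) ∧ ∀ z, (∀ i, T i ≠ z) → ∀ v,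
      DD τ T (fun z => U z + c • (U' z - U'' z)) z v =
        DD τ T U z v + c • (DD τ T U' z v - DD τ T U'' z v) := by
  have hg : ∀ z0, gz τ T (fun z => U z + c • (U' z - U'' z)) z0 =
      fun z => gz τ T U z0 z + c • (gz τ T U' z0 z - gz τ T U'' z0 z) := by
    intro z0
    funext z
    exact bas_aff_comb _ _ _ _ c
  refine ⟨⟨fun z0 hz => ?_, ?_⟩, fun z hz v => ?_⟩
  · rw [hg]
    exact (hU.1 z0 hz).add (((hU'.1 z0 hz).sub (hU''.1 z0 hz)).const_smul c)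
  · obtain ⟨K, hK, hKT, hoff⟩ := hU.2
    obtain ⟨K', hK', hKT', hoff'⟩ := hU'.2
    obtain ⟨K'', hK'', hKT'', hoff''⟩ := hU''.2
    refine ⟨K ∪ K' ∪ K'', (hK.union hK').union hK'', fun i h => ?_, fun z0 h0 hz => ?_⟩
    · rcases h with (h | h) | h
      · exact hKT i h
      · exact hKT' i h
      · exact hKT'' i h
    · rw [hg]
      filter_upwards [hoff z0 (fun h => h0 (Or.inl (Or.inl h))) hz,
        hoff' z0 (fun h => h0 (Or.inl (Or.inr h))) hz, hoff'' z0 (fun h => h0 (Or.inr h)) hz]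
        with z e1 e2 e3
      rw [e1, e2, e3]
  · have d0 := ((hU.1 z hz).differentiableAt (by norm_num)).hasFDerivAt
    have d1 := ((hU'.1 z hz).differentiableAt (by norm_num)).hasFDerivAt
    have d2 := ((hU''.1 z hz).differentiableAt (by norm_num)).hasFDerivAt
    have d3 := d0.fun_add ((d1.fun_sub d2).fun_const_smul c)
    unfold DD
    rw [hg, d3.fderiv]
    rfl

lemma bas_en (τ : Tr n (H ≃ᵃⁱ[ℂ] H)) (T : Fin n → ℂ) (U : ℂ → H) : 0 ≤ en τ T U :=
  integral_nonneg fun _ => by positivity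

end Hilbert

theorem basSt : BasSt := by
  intro H _ _ _ n τ T hT
  refine ⟨fun z hz => bas_one τ hT hz, fun U z0 hz => bas_gauge τ hT U hz,
    fun U _ z0 hz => bas_dd τ hT U hz, fun U hU => bas_int τ hT hU,
    fun U U' U'' c hU hU' hU'' => bas_comb τ T U U' U'' c hU hU' hU'', bas_en τ T, ?_,
    fun U hU => ?_⟩
  · exact Real.sInf_nonneg fun x ⟨U, _, h⟩ => h ▸ bas_en τ T U
  · exact csInf_le ⟨0, fun x ⟨V, _, h⟩ => h ▸ bas_en τ T V⟩ ⟨U, hU, rfl⟩

end Pool.Agent.MA
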