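import Pool.Agent.Lib.MP_c86c76_al.An.St

/-!
A function with a Harnack step that is bounded along rays is bounded.
-/

set_option autoImplicit false

namespace Pool.Agent.MA

open Complex MeasureTheory Filter Topology Set Function

theorem bd_dist (A : Finset ℂ) {s : ℂ} (hs : s ∉ A) : ∃ d > 0, ∀ a ∈ A, d ≤ ‖s - a‖ := by
  have h : ∀ᶠ d : ℝ in 𝓝[>] 0, ∀ a ∈ A, d ≤ ‖s - a‖ := by
    rw [Filter.eventually_all_finset]
    intro a ha
    have h0 : 0 < ‖s - a‖ := norm_pos_iff.2 (sub_ne_zero.2 fun h => hs (h ▸ ha))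
    exact mem_nhdsWithin_of_mem_nhds (Iic_mem_nhds h0)
  obtain ⟨d, h1, h2⟩ := (h.and self_mem_nhdsWithin).exists
  exact ⟨d, h2, h1⟩

theorem bd_circle (A : Finset ℂ) (E : ℂ → ℝ) {c : ℝ} (hc : 0 < c)
    (hst : ∀ (s s' : ℂ) (d : ℝ), 0 < d → (∀ a ∈ A, d ≤ ‖s - a‖) → ‖s' - s‖ ≤ c * d →
      E s' ≤ 3 * E s) :
    ∃ N : ℕ, ∀ (a s : ℂ) (d : ℝ), 0 < d → ‖s - a‖ ≤ 2 * d →
      (∀ z : ℂ, ‖z - a‖ = ‖s - a‖ → ∀ b ∈ A, d ≤ ‖z - b‖) →
      E s ≤ 3 ^ N * E (a + (‖s - a‖ : ℝ)) := by
  obtain ⟨N, hN⟩ := exists_nat_gt (2 * Real.pi / c)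
  have hN0 : (0 : ℝ) < N := lt_trans (by positivity) hN
  refine ⟨N, fun a s d hd hr hz => ?_⟩
  set r : ℝ := ‖s - a‖ with hrd
  have hr0 : 0 ≤ r := norm_nonneg _
  set θ : ℝ := arg (s - a) / N with hθ
  have hθ1 : |θ| ≤ Real.pi / N := by
    rw [hθ, abs_div, abs_of_pos hN0]
    exact div_le_div_of_nonneg_right (abs_arg_le_pi _) hN0.le
  have key : ∀ m : ℕ, E (circleMap a r (m * θ)) ≤ 3 ^ m * E (a + r) := by
    intro m
    induction m with
    | zero => simp [circleMap]
    | succ m ih =>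
      have h1 : ‖circleMap a r ((m + 1 : ℕ) * θ) - circleMap a r (m * θ)‖ ≤ c * d := by
        have h2 := (lipschitzWith_circleMap a r).dist_le_mul ((m + 1 : ℕ) * θ) (m * θ)
        rw [dist_eq_norm, Real.dist_eq] at h2
        have e : ((m + 1 : ℕ) : ℝ) * θ - m * θ = θ := by push_cast; ring
        rw [e, Real.coe_nnabs, abs_of_nonneg hr0] at h2
        have h3 : 2 * Real.pi / N ≤ c := by
          rw [div_le_iff₀ hN0]
          rw [div_lt_iff₀ hc] at hN
          linarith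
        calc _ ≤ r * |θ| := h2
          _ ≤ (2 * d) * (Real.pi / N) := by gcongr
          _ = (2 * Real.pi / N) * d := by ring
          _ ≤ c * d := by gcongr
      have h4 := hst _ _ d hd (hz (circleMap a r (m * θ)) (by
        rw [circleMap_sub_center, norm_circleMap_zero, abs_of_nonneg hr0])) h1
      calc _ ≤ 3 * E (circleMap a r (m * θ)) := h4
        _ ≤ 3 * (3 ^ m * E (a + r)) := by gcongr
        _ = 3 ^ (m + 1) * E (a + r) := by ring
  have e : circleMap a r (N * θ) = s := by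
    have e1 : (N : ℝ) * θ = arg (s - a) := by rw [hθ]; field_simp
    rw [e1, circleMap, hrd, norm_mul_exp_arg_mul_I]
    ring
  simpa only [e] using key N

theorem bdSt : BdSt := by
  intro A E P _hA hE hH hnear hfar
  obtain ⟨c, hc, hst0⟩ := hH (1 / 2) (by norm_num) (by norm_num)
  have hst : ∀ (s s' : ℂ) (d : ℝ), 0 < d → (∀ a ∈ A, d ≤ ‖s - a‖) → ‖s' - s‖ ≤ c * d →
      E s' ≤ 3 * E s := fun s s' d hd h1 h2 => by
    have := (hst0 s s' d hd h1 h2).2.2
    linarith
  have hball : ∀ (s : ℂ) (ρ : ℝ), 0 < ρ → ∀ᶠ s' in 𝓝 s, ‖s' - s‖ ≤ ρ := fun s ρ hρ => by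
    filter_upwards [Metric.closedBall_mem_nhds s hρ] with s' h
    simpa [dist_eq_norm] using h
  obtain ⟨B, hB⟩ : ∃ B : ℝ, ∀ a ∈ A, ‖a‖ ≤ B :=
    ⟨∑ a ∈ A, ‖a‖, fun a ha => Finset.single_le_sum (fun b _ => norm_nonneg b) ha⟩
  obtain ⟨C, hC⟩ := hfar
  obtain ⟨N, hN⟩ := bd_circle A E hc hst
  refine ⟨?_, ?_, ?_⟩
  · have hpc : IsPreconnected (A : Set ℂ)ᶜ :=
      (A.countable_toSet.isPathConnected_compl_of_one_lt_rank
        (by rw [rank_real_complex]; norm_num)).isConnected.isPreconnected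
    obtain ⟨R, hR1, hR2⟩ := (hC.and (eventually_gt_atTop B)).exists
    have hRA : (R : ℂ) ∈ (A : Set ℂ)ᶜ := fun h => by
      have h1 := hB _ h
      rw [Complex.norm_real, Real.norm_eq_abs] at h1
      linarith [le_abs_self R]
    intro s hs
    have h := hpc.induction₂' (fun x y => P x → P y) (fun x hx => by
      obtain ⟨d, hd, h1⟩ := bd_dist A (s := x) hx
      filter_upwards [mem_nhdsWithin_of_mem_nhds (hball x (c * d) (by positivity))] with y hy
      exact ⟨(hst0 x y d hd h1 hy).1.1, (hst0 x y d hd h1 hy).1.2⟩)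
      (fun _ _ _ _ _ _ h1 h2 h => h2 (h1 h)) hRA hs
    exact h hR1.1
  · intro s hs
    apply ContinuousAt.continuousWithinAt
    obtain ⟨d, hd, h1⟩ := bd_dist A (s := s) hs
    rw [Metric.continuousAt_iff']
    intro ε hε
    have hEs := hE s
    set κ : ℝ := min (1 / 2) (ε / (4 * E s + 1)) with hκ
    have hκ0 : 0 < κ := lt_min (by norm_num) (by positivity)
    have hκ1 : κ ≤ 1 / 2 := min_le_left _ _
    have hκ2 : κ * (4 * E s + 1) ≤ ε := by
      rw [← le_div_iff₀ (by positivity)]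
      exact min_le_right _ _
    obtain ⟨c', hc', h2⟩ := hH κ hκ0 (by linarith)
    filter_upwards [hball s (c' * d) (by positivity), hball s (c * d) (by positivity)]
      with s' h3 h4
    obtain ⟨-, h5, h6⟩ := h2 s s' d hd h1 h3
    have h7 := hst s s' d hd h1 h4
    have h8 : κ * E s' ≤ κ * (3 * E s) := by gcongr
    rw [Real.dist_eq, abs_lt]
    constructor <;> nlinarith
  · obtain ⟨R0, hR0⟩ := eventually_atTop.1
      (hC.and ((eventually_ge_atTop (2 * B)).and (eventually_gt_atTop 0)))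
    have hout : ∀ s : ℂ, R0 ≤ ‖s‖ → E s ≤ 3 ^ N * C := fun s hs => by
      obtain ⟨h1, h2, h3⟩ := hR0 _ hs
      have h4 := hN 0 s (‖s‖ / 2) (by positivity) (by rw [sub_zero]; linarith) (fun z hz b hb => by
        rw [sub_zero, sub_zero] at hz
        have h5 := norm_sub_norm_le z b
        have h6 := hB b hb
        linarith)
      rw [sub_zero, zero_add] at h4
      exact h4.trans (by gcongr; exact h1.2)
    have hin : ∃ M : ℝ, ∀ s ∈ Metric.closedBall (0 : ℂ) R0, s ∉ A → E s ≤ M := by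
      refine (isCompact_closedBall (0 : ℂ) R0).induction_on
        (p := fun S => ∃ M : ℝ, ∀ s ∈ S, s ∉ A → E s ≤ M) ⟨0, by simp⟩ ?_ ?_ ?_
      · rintro S T hST ⟨M, hM⟩
        exact ⟨M, fun s hs => hM s (hST hs)⟩
      · rintro S T ⟨M, hM⟩ ⟨M', hM'⟩
        refine ⟨max M M', ?_⟩
        rintro s (hs | hs) hA
        · exact (hM s hs hA).trans (le_max_left _ _)
        · exact (hM' s hs hA).trans (le_max_right _ _)
      · intro x _
        by_cases hx : x ∈ A
        · obtain ⟨C', hC'⟩ := hnear x hx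
          obtain ⟨d, hd, h1⟩ := bd_dist (A.erase x) (s := x) (Finset.notMem_erase x A)
          obtain ⟨u, hu, h2⟩ := (nhdsGT_basis (0 : ℝ)).eventually_iff.1 hC'
          refine ⟨Metric.ball x (min u (d / 2)), mem_nhdsWithin_of_mem_nhds
            (Metric.ball_mem_nhds x (lt_min hu (by positivity))), 3 ^ N * C', fun s hs hA => ?_⟩
          rw [Metric.mem_ball, dist_eq_norm, lt_min_iff] at hs
          have h0 : 0 < ‖s - x‖ := norm_pos_iff.2 (sub_ne_zero.2 fun h => hA (h ▸ hx))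
          have h4 := hN x s ‖s - x‖ h0 (by linarith) (fun z hz b hb => by
            by_cases hbx : b = x
            · rw [hbx, hz]
            · have h5 := h1 b (Finset.mem_erase.2 ⟨hbx, hb⟩)
              have h6 : ‖x - b‖ ≤ ‖z - b‖ + ‖z - x‖ := by
                have e : x - b = (z - b) - (z - x) := by ring
                rw [e]
                exact norm_sub_le _ _
              linarith [hs.2])
          exact h4.trans (by gcongr; exact h2 ⟨h0, hs.1⟩)
        · obtain ⟨d, hd, h1⟩ := bd_dist A hx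
          exact ⟨{s | ‖s - x‖ ≤ c * d}, mem_nhdsWithin_of_mem_nhds (hball x (c * d) (by positivity)),
            3 * E x, fun s hs _ => hst x s d hd h1 hs⟩
    obtain ⟨M, hM⟩ := hin
    refine ⟨max M (3 ^ N * C), fun s hs => ?_⟩
    rw [abs_of_nonneg (hE s)]
    rcases le_total ‖s‖ R0 with h | h
    · exact (hM s (by simpa using h) hs).trans (le_max_left _ _)
    · exact (hout s h).trans (le_max_right _ _)

end Pool.Agent.MA
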