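import Pool.Agent.Lib.MP_c86c76_al.An.St

/-!
Change of variables for the map `z + s χ z`.
-/

set_option autoImplicit false

namespace Pool.Agent.MA

open Complex MeasureTheory Filter Topology Set Function

/-- The derivative of the map. -/
noncomputable def chL (χ : ℂ → ℝ) (s z : ℂ) : ℂ →L[ℝ] ℂ :=
  ContinuousLinearMap.id ℝ ℂ + (fderiv ℝ χ z).smulRight s

theorem ch_deriv (χ : ℂ → ℝ) (s z : ℂ) (hχ : ContDiff ℝ 2 χ) :
    HasFDerivAt (fun z : ℂ => z + s * (χ z : ℂ)) (chL χ s z) z := by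
  have h1 : HasFDerivAt χ (fderiv ℝ χ z) z :=
    (hχ.differentiable (by norm_num) z).hasFDerivAt
  have h2 : HasFDerivAt (fun z : ℂ => χ z • s) ((fderiv ℝ χ z).smulRight s) z :=
    h1.smul_const s
  have h3 := (hasFDerivAt_id z).add h2
  have e : (fun z : ℂ => z + s * (χ z : ℂ)) = (id + fun z : ℂ => χ z • s) := by
    funext w
    simp [mul_comm]
  rw [e]
  exact h3

theorem ch_jac (χ : ℂ → ℝ) (s z : ℂ) :
    ‖1 + s * bb χ z‖ ^ 2 - ‖s * bb χ z‖ ^ 2 = 1 + 2 * (s * bb χ z).re := by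
  rw [Complex.sq_norm, Complex.sq_norm, Complex.normSq_apply, Complex.normSq_apply]
  simp only [Complex.add_re, Complex.add_im, Complex.one_re, Complex.one_im]
  ring

theorem ch_re (χ : ℂ → ℝ) (s z : ℂ) :
    2 * (s * bb χ z).re = s.re * fderiv ℝ χ z 1 + s.im * fderiv ℝ χ z I := by
  simp [bb, Complex.mul_re]
  ring

theorem ch_det (χ : ℂ → ℝ) (s z : ℂ) :
    (chL χ s z).det = 1 + 2 * (s * bb χ z).re := by
  rw [ch_re, ContinuousLinearMap.det, ← LinearMap.det_toMatrix Complex.basisOneI,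
    Matrix.det_fin_two]
  simp [LinearMap.toMatrix_apply, chL]
  ring

theorem chSt : ChSt := by
  intro χ s κ F hχ hκ hb hinj hF hint
  have hd : ∀ z ∈ (univ : Set ℂ),
      HasFDerivWithinAt (fun z : ℂ => z + s * (χ z : ℂ)) (chL χ s z) univ z :=
    fun z _ => (ch_deriv χ s z hχ).hasFDerivWithinAt
  have hpos : ∀ z, 0 ≤ 1 + 2 * (s * bb χ z).re := by
    intro z
    have h1 : |(s * bb χ z).re| ≤ ‖s * bb χ z‖ := Complex.abs_re_le_norm _
    rw [norm_mul] at h1
    have h2 := neg_abs_le (s * bb χ z).re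
    have h3 := hb z
    linarith
  have hfun : (fun z => |(chL χ s z).det| • F (z + s * (χ z : ℂ))) =
      fun z => (‖1 + s * bb χ z‖ ^ 2 - ‖s * bb χ z‖ ^ 2) * F (z + s * χ z) := by
    funext z
    rw [ch_det, abs_of_nonneg (hpos z), ch_jac, smul_eq_mul]
  have h1 := (integrableOn_image_iff_integrableOn_abs_det_fderiv_smul volume MeasurableSet.univ hd
    hinj.injOn F).1 hint.integrableOn
  have h2 := integral_image_eq_integral_abs_det_fderiv_smul volume MeasurableSet.univ hd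
    hinj.injOn F
  rw [hfun, integrableOn_univ] at h1
  rw [hfun, Measure.restrict_univ] at h2
  refine ⟨h1, ?_⟩
  rw [← h2]
  exact setIntegral_le_integral hint (Eventually.of_forall hF)

end Pool.Agent.MA
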