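import Pool.Agent.Lib.MP_c86c76_al.An.St

/-!
The least energy is bounded when a puncture runs into another one.
-/

set_option autoImplicit false

namespace Pool.Agent.MA

open Complex MeasureTheory Filter Topology Set Function

theorem col_parLoc {n : ℕ} {t : Fin n → ℝ} {ψ : Fin n → ℂ → ℝ} (h : Par t ψ) (ht : Injective t)
    (m : Fin n) : ∀ᶠ z in 𝓝 (t m : ℂ), ∀ l, ψ l z = if l = m then 1 else 0 := by
  have h0 : ∀ l, l ≠ m → ∀ᶠ z in 𝓝 (t m : ℂ), ψ l z = 0 := by
    intro l hl
    rcases h.2.1 (t m) l with hA | hz
    · exfalso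
      rcases lt_trichotomy (t m) (t l) with q | q | q
      · exact lt_irrefl _ ((hA m).1 q)
      · exact hl (ht q).symm
      · exact lt_irrefl _ ((hA m).2 q)
    · exact hz
  have h1 : ∀ᶠ z in 𝓝 (t m : ℂ), ∀ l, l ≠ m → ψ l z = 0 := by
    rw [eventually_all]
    intro l
    by_cases hl : l = m
    · exact Eventually.of_forall fun z q => absurd hl q
    · exact (h0 l hl).mono fun z q _ => q
  filter_upwards [h1, h.2.2 (t m) ⟨m, le_rfl⟩ ⟨m, le_rfl⟩] with z hz hs l
  by_cases hl : l = m
  · subst hl
    rw [if_pos rfl, ← hs, Finset.sum_eq_single l]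
    · intro b _ hb
      exact hz b hb
    · intro q
      exact absurd (Finset.mem_univ l) q
  · rw [if_neg hl]
    exact hz l hl

theorem col_card {n : ℕ} {T : Fin n → ℝ} {π : Equiv.Perm (Fin n)} (h : StrictMono (T ∘ π))
    (x : ℝ) (k : ℕ) (hk : k ≤ n) (hx : ∀ l : Fin n, T (π l) < x ↔ (l : ℕ) < k) : kk T x = k := by
  have _h := h
  unfold kk
  have e : (Finset.univ.filter fun m => T m < x) =
      (Finset.univ.filter fun l : Fin n => (l : ℕ) < k).map π.toEmbedding := by
    ext m
    simp only [Finset.mem_filter, Finset.mem_univ, true_and, Finset.mem_map_equiv]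
    rw [← hx, Equiv.apply_symm_apply]
  rw [e, Finset.card_map, Fin.card_filter_val_lt]
  omega

theorem col_lo {n : ℕ} {T : Fin n → ℝ} {π : Equiv.Perm (Fin n)} (h : StrictMono (T ∘ π))
    {m : Fin n} {x : ℝ} (hA : Aj T m x) (hx : x < T m) : kk T x = (π.symm m : ℕ) := by
  apply col_card h x _ (π.symm m).isLt.le
  intro l
  have e : T m = (T ∘ π) (π.symm m) := by simp
  have q : T (π l) < T m ↔ (l : ℕ) < (π.symm m : ℕ) := by
    rw [e]
    exact h.lt_iff_lt (a := l) (b := π.symm m)
  rw [← q]
  exact ⟨fun a => a.trans hx, (hA _).1⟩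

theorem col_hi {n : ℕ} {T : Fin n → ℝ} {π : Equiv.Perm (Fin n)} (h : StrictMono (T ∘ π))
    {m : Fin n} {x : ℝ} (hA : Aj T m x) (hx : T m < x) : kk T x = (π.symm m : ℕ) + 1 := by
  apply col_card h x _ (π.symm m).isLt
  intro l
  have e : T m = (T ∘ π) (π.symm m) := by simp
  have q : T (π l) ≤ T m ↔ (l : ℕ) ≤ (π.symm m : ℕ) := by
    rw [e]
    exact h.le_iff_le (a := l) (b := π.symm m)
  rw [Nat.lt_succ_iff, ← q]
  refine ⟨fun a => ?_, fun a => a.trans_lt hx⟩
  by_contra b
  exact lt_asymm a ((hA _).2 (not_le.1 b))

theorem col_aj {n : ℕ} {T : Fin n → ℝ} {π : Equiv.Perm (Fin n)} (h : StrictMono (T ∘ π))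
    {m : Fin n} {x : ℝ} (hA : Aj T m x) (hx : T m ≠ x) :
    kk T x = (π.symm m : ℕ) ∨ kk T x = (π.symm m : ℕ) + 1 := by
  rcases lt_or_gt_of_ne hx with q | q
  · exact Or.inr (col_hi h hA q)
  · exact Or.inl (col_lo h hA q)

/-- The test functions. -/
noncomputable def colF {n : ℕ} (ψ : Fin n → ℂ → ℝ) (i : Fin n) (A B : ℂ → ℝ) :
    Option (Option (Option (Fin n))) → ℂ → ℝ
  | none => fun z => 1 - ∑ m, ψ m z
  | some none => A
  | some (some none) => B
  | some (some (some m)) => if m = i then fun z => ψ m z - A z - B z else ψ m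

theorem col_eq {n : ℕ} (ψ : Fin n → ℂ → ℝ) {i m : Fin n} (A B : ℂ → ℝ) (h : m = i) :
    colF ψ i A B (some (some (some m))) = fun z => ψ m z - A z - B z := if_pos h

theorem col_ne {n : ℕ} (ψ : Fin n → ℂ → ℝ) {i m : Fin n} (A B : ℂ → ℝ) (h : m ≠ i) :
    colF ψ i A B (some (some (some m))) = ψ m := if_neg h

theorem col_sum {n : ℕ} (ψ : Fin n → ℂ → ℝ) (i : Fin n) (A B : ℂ → ℝ) (z : ℂ) :
    ∑ o, colF ψ i A B o z = 1 := by
  simp only [Fintype.sum_option, colF]
  have e : ∀ m, (if m = i then fun z => ψ m z - A z - B z else ψ m) z =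
      ψ m z - if m = i then A z + B z else 0 := by
    intro m
    split_ifs
    · ring
    · ring
  simp only [e, Finset.sum_sub_distrib, Finset.sum_ite_eq', Finset.mem_univ, if_true]
  ring

theorem col_scale {A : ℂ → ℝ} (hA : ContDiff ℝ 2 A) (hc : HasCompactSupport A) (a : ℂ) {r : ℝ}
    (hr : 0 < r) : ContDiff ℝ 2 (fun z => A ((z - a) / r)) ∧
      HasCompactSupport (fun z => A ((z - a) / r)) := by
  refine ⟨hA.comp ((contDiff_id.sub contDiff_const).div_const _), ?_⟩
  obtain ⟨S, _, hS⟩ := hc.exists_pos_le_norm
  apply HasCompactSupport.intro (isCompact_closedBall a (S * r))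
  intro z hz
  apply hS
  rw [Metric.mem_closedBall, dist_eq_norm, not_le] at hz
  rw [norm_div, Complex.norm_real, Real.norm_of_nonneg hr.le, le_div_iff₀ hr]
  exact hz.le

theorem col_tend (a : ℂ) (r : ℝ) (x : ℂ) :
    Tendsto (fun z : ℂ => (z - a) / r) (𝓝 x) (𝓝 ((x - a) / r)) :=
  ((continuous_id.sub continuous_const).div_const (r : ℂ)).tendsto x

theorem colSt (hP : ParSt) (hD : DirSt) (hT : TesSt) : ColSt := by
  intro H _ _ _ n τ t i j hH ht hj hij
  obtain ⟨i', hi'⟩ := Fin.exists_succAbove_eq hij
  have hinj : Injective (t ∘ j.succAbove) := ht.injective.comp Fin.succAbove_right_injective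
  obtain ⟨ψ, hψ⟩ := hP n (t ∘ j.succAbove) hinj
  have h01 : Injective (![0, 1] : Fin 2 → ℝ) := by
    intro a b
    fin_cases a <;> fin_cases b <;> simp
  obtain ⟨φ, hφ⟩ := hP 2 ![0, 1] h01
  have hia : (t ∘ j.succAbove) i' = t i := by simp [hi']
  -- the radius
  obtain ⟨δ, hδ, hb⟩ : ∃ δ > 0, ∀ z : ℂ, dist z (t i) < δ →
      (∀ l, ψ l z = if l = i' then 1 else 0) ∧ ∀ l, l ≠ i → z ≠ t l := by
    have e1 := col_parLoc hψ hinj i'
    rw [hia] at e1
    have e2 : ∀ᶠ z : ℂ in 𝓝 (t i : ℂ), ∀ l, l ≠ i → z ≠ t l := by
      rw [eventually_all]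
      intro l
      by_cases hl : l = i
      · exact Eventually.of_forall fun z q => absurd hl q
      · have : (t i : ℂ) ≠ t l := fun q => hl (ht.injective (Complex.ofReal_injective q)).symm
        exact (eventually_ne_nhds this).mono fun z q _ => q
    obtain ⟨δ, hδ, hb⟩ := Metric.eventually_nhds_iff.1 (e1.and e2)
    exact ⟨δ, hδ, fun z hz => hb hz⟩
  have hd : ∀ x : ℝ, dist (x : ℂ) (t i) = |x - t i| := by
    intro x
    rw [dist_eq_norm, ← Complex.ofReal_sub, Complex.norm_real, Real.norm_eq_abs]
  have hgap : ∀ l, l ≠ i → t l ≤ t i - δ ∨ t i + δ ≤ t l := by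
    intro l hl
    have : ¬ dist (t l : ℂ) (t i) < δ := fun q => (hb _ q).2 l hl rfl
    rw [hd, not_lt, le_abs] at this
    rcases this with q | q
    · right; linarith
    · left; linarith
  have hball : ∀ x : ℝ, |x - t i| < δ → ∀ᶠ z in 𝓝 (x : ℂ), ∀ l, ψ l z = if l = i' then 1 else 0 := by
    intro x hx
    have : (x : ℂ) ∈ Metric.ball (t i : ℂ) δ := by rw [Metric.mem_ball, hd]; exact hx
    filter_upwards [Metric.isOpen_ball.mem_nhds this] with z hz
    exact (hb z hz).1
  obtain ⟨S, hS1, hS⟩ : ∃ S : ℝ, 1 ≤ S ∧ ∀ z : ℂ, S ≤ ‖z‖ → φ 0 z = 0 ∧ φ 1 z = 0 := by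
    obtain ⟨S0, _, h0⟩ := (hφ.1 0).2.exists_pos_le_norm
    obtain ⟨S1, _, h1⟩ := (hφ.1 1).2.exists_pos_le_norm
    refine ⟨max 1 (max S0 S1), le_max_left _ _, fun z hz => ⟨h0 z ?_, h1 z ?_⟩⟩
    · exact ((le_max_left _ _).trans (le_max_right _ _)).trans hz
    · exact ((le_max_right _ _).trans (le_max_right _ _)).trans hz
  -- the order
  have hord : ∀ r r0 : ℝ, 0 < r → r < δ → 0 < r0 → r0 < δ → ∀ m m',
      update t j (t i + r0) m < update t j (t i + r0) m' →
      update t j (t i + r) m < update t j (t i + r) m' := by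
    intro r r0 a1 a2 a3 a4 m m'
    by_cases hm : m = j
    · by_cases hm' : m' = j
      · subst hm hm'
        intro q
        exact absurd q (lt_irrefl _)
      · subst hm
        simp only [update_self, update_of_ne hm']
        intro q
        by_cases e : m' = i
        · subst e; linarith
        · rcases hgap m' e with w | w <;> linarith
    · by_cases hm' : m' = j
      · subst hm'
        simp only [update_self, update_of_ne hm]
        intro q
        by_cases e : m = i
        · subst e; linarith
        · rcases hgap m e with w | w <;> linarith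
      · simp only [update_of_ne hm, update_of_ne hm']
        exact id
  have hinj0 : Injective (update t j (t i + δ / 2)) := by
    intro m m'
    by_cases hm : m = j
    · by_cases hm' : m' = j
      · intro _; rw [hm, hm']
      · subst hm
        simp only [update_self, update_of_ne hm']
        intro q
        exfalso
        by_cases e : m' = i
        · subst e; linarith
        · rcases hgap m' e with w | w <;> linarith
    · by_cases hm' : m' = j
      · subst hm'
        simp only [update_self, update_of_ne hm]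
        intro q
        exfalso
        by_cases e : m = i
        · subst e; linarith
        · rcases hgap m e with w | w <;> linarith
      · simp only [update_of_ne hm, update_of_ne hm']
        exact fun q => ht.injective q
  obtain ⟨π, hπ⟩ : ∃ π : Equiv.Perm (Fin (n + 1)), ∀ r : ℝ, 0 < r → r < δ →
      StrictMono (update t j (t i + r) ∘ π) := by
    refine ⟨Tuple.sort (update t j (t i + δ / 2)), fun r a1 a2 k l hkl => ?_⟩
    have := (Tuple.monotone_sort (update t j (t i + δ / 2))).strictMono_of_injective
      (hinj0.comp (Equiv.injective _)) hkl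
    exact hord r (δ / 2) a1 a2 (by linarith) (by linarith) _ _ this
  have hπ0 : π 0 = 0 := by
    have hm := hπ (δ / 2) (by linarith) (by linarith)
    by_contra q
    have q1 : (0 : Fin (n + 1)) < π.symm 0 := by
      rw [Fin.pos_iff_ne_zero]
      intro e
      exact q ((congrArg π e).symm.trans (Equiv.apply_symm_apply π 0))
    have q2 := hm q1
    simp only [comp_apply, Equiv.apply_symm_apply, update_of_ne hj.symm] at q2
    by_cases e : π 0 = j
    · rw [e, update_self] at q2
      have := ht.monotone (Fin.zero_le i)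
      linarith
    · rw [update_of_ne e] at q2
      exact absurd q2 (not_lt.2 (ht.monotone (Fin.zero_le _)))
  -- neighbours
  have hAi : ∀ r x : ℝ, 0 < r → |x - t i| < δ → x < t i + r → Aj (update t j (t i + r)) i x := by
    intro r x a1 a2 a3 l
    rw [abs_lt] at a2
    rw [update_of_ne hij]
    by_cases hl : l = j
    · subst hl
      rw [update_self]
      exact ⟨fun q => by linarith, fun _ => a3⟩
    · rw [update_of_ne hl]
      by_cases e : l = i
      · subst e
        exact ⟨fun q => absurd q (lt_irrefl _), fun q => absurd q (lt_irrefl _)⟩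
      · rcases hgap l e with w | w
        · exact ⟨fun _ => by linarith, fun q => by linarith⟩
        · exact ⟨fun q => by linarith, fun _ => by linarith⟩
  have hAj : ∀ r x : ℝ, 0 < r → r < δ → |x - t i| < δ → t i < x →
      Aj (update t j (t i + r)) j x := by
    intro r x a1 a4 a2 a3 l
    rw [abs_lt] at a2
    rw [update_self]
    by_cases hl : l = j
    · subst hl
      rw [update_self]
      exact ⟨fun q => absurd q (lt_irrefl _), fun q => absurd q (lt_irrefl _)⟩
    · rw [update_of_ne hl]
      by_cases e : l = i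
      · subst e
        exact ⟨fun _ => a3, fun q => by linarith⟩
      · rcases hgap l e with w | w
        · exact ⟨fun _ => by linarith, fun q => by linarith⟩
        · exact ⟨fun q => by linarith, fun _ => by linarith⟩
  have hpos : (π.symm j : ℕ) = (π.symm i : ℕ) + 1 := by
    have hm := hπ (δ / 2) (by linarith) (by linarith)
    have e : |t i + δ / 4 - t i| < δ := by rw [abs_lt]; constructor <;> linarith
    have e1 := col_hi hm (hAi (δ / 2) (t i + δ / 4) (by linarith) e (by linarith))
      (by rw [update_of_ne hij]; linarith)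
    have e2 := col_lo hm (hAj (δ / 2) (t i + δ / 4) (by linarith) (by linarith) e (by linarith))
      (by rw [update_self]; linarith)
    omega
  -- the points
  obtain ⟨lo, hlo0, hlo1, hlo2, hlo3⟩ : ∃ lo : Option (Option (Option (Fin n))) → ℕ, lo none = 0 ∧
      lo (some none) = π.symm i ∧ lo (some (some none)) = π.symm j ∧
      ∀ m, lo (some (some (some m))) = π.symm (j.succAbove m) :=
    ⟨fun o => o.elim 0 fun o => o.elim (π.symm i) fun o => o.elim (π.symm j)
      fun m => π.symm (j.succAbove m), rfl, rfl, rfl, fun _ => rfl⟩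
  obtain ⟨hi, hhi0, hhi1, hhi2, hhi3⟩ : ∃ hi : Option (Option (Option (Fin n))) → ℕ,
      hi none = n + 1 ∧ hi (some none) = π.symm i + 1 ∧ hi (some (some none)) = π.symm j + 1 ∧
      ∀ m, hi (some (some (some m))) =
        if m = i' then (π.symm i : ℕ) + 2 else π.symm (j.succAbove m) + 1 :=
    ⟨fun o => o.elim (n + 1) fun o => o.elim (π.symm i + 1) fun o => o.elim (π.symm j + 1)
      fun m => if m = i' then (π.symm i : ℕ) + 2 else π.symm (j.succAbove m) + 1,
      rfl, rfl, rfl, fun _ => rfl⟩
  have hEl : ∀ o, El τ π (lo o) (hi o) := by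
    obtain ⟨g1, g2, _, g4⟩ := hH π hπ0
    rintro (_ | _ | _ | m)
    · rw [hlo0, hhi0]; exact g4
    · rw [hlo1, hhi1]; exact g1 _ (Nat.lt_succ_iff.1 (π.symm i).isLt)
    · rw [hlo2, hhi2]; exact g1 _ (Nat.lt_succ_iff.1 (π.symm j).isLt)
    · rw [hlo3, hhi3]
      split_ifs with e
      · rw [e, hi']
        apply g2
        have := (π.symm j).isLt
        omega
      · exact g1 _ (Nat.lt_succ_iff.1 (π.symm _).isLt)
  choose x hx using hEl
  obtain ⟨Bd, hBd0, hBd1, hBd2, hBd3⟩ : ∃ Bd : Option (Option (Option (Fin n))) → ℝ,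
      Bd none = dir (fun z => 1 - ∑ m, ψ m z) ∧ Bd (some none) = dir (φ 0) ∧
      Bd (some (some none)) = dir (φ 1) ∧ ∀ m, Bd (some (some (some m))) =
        if m = i' then 2 * (2 * dir (ψ m) + 2 * dir (φ 0)) + 2 * dir (φ 1) else dir (ψ m) :=
    ⟨fun o => o.elim (dir (fun z => 1 - ∑ m, ψ m z)) fun o => o.elim (dir (φ 0))
      fun o => o.elim (dir (φ 1)) fun m =>
        if m = i' then 2 * (2 * dir (ψ m) + 2 * dir (φ 0)) + 2 * dir (φ 1) else dir (ψ m),
      rfl, rfl, rfl, fun _ => rfl⟩
  refine ⟨4 * Fintype.card (Option (Option (Option (Fin n)))) *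
    ∑ o, (‖x o‖ ^ 2 + ‖τ.ga π (lo o) (x o)‖ ^ 2) * Bd o, ?_⟩
  have hSpos : 0 < S := by linarith
  filter_upwards [Ioo_mem_nhdsGT (div_pos hδ hSpos)] with r hr
  obtain ⟨hr0, hr1⟩ := hr
  rw [lt_div_iff₀ hSpos] at hr1
  have hrδ : r < δ := by nlinarith
  have hm := hπ r hr0 hrδ
  obtain ⟨hA1, hA2⟩ := col_scale (hφ.1 0).1 (hφ.1 0).2 (t i) hr0
  obtain ⟨hB1, hB2⟩ := col_scale (hφ.1 1).1 (hφ.1 1).2 (t i) hr0
  have hrc : (r : ℂ) ≠ 0 := Complex.ofReal_ne_zero.2 hr0.ne'
  have hfar : ∀ y : ℝ, δ ≤ |y - t i| → ∀ᶠ z in 𝓝 (y : ℂ),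
      φ 0 ((z - t i) / r) = 0 ∧ φ 1 ((z - t i) / r) = 0 := by
    intro y hy
    have e : r * S < dist (y : ℂ) (t i) := by rw [hd]; linarith
    have e2 : ∀ᶠ z : ℂ in 𝓝 (y : ℂ), r * S < dist z (t i) :=
      (continuous_id.dist continuous_const).continuousAt.eventually (lt_mem_nhds e)
    filter_upwards [e2] with z hz
    apply hS
    rw [norm_div, Complex.norm_real, Real.norm_of_nonneg hr0.le, le_div_iff₀ hr0, ← dist_eq_norm]
    linarith
  have hsc : ∀ (y : ℝ) (P : ℂ → Prop), (∀ᶠ w in 𝓝 (((y - t i) / r : ℝ) : ℂ), P w) →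
      ∀ᶠ z in 𝓝 (y : ℂ), P ((z - t i) / r) := by
    intro y P h
    apply (col_tend (t i) r y).eventually
    simpa using h
  have hloc : ∀ m, ∃ (v : Fin n → ℝ) (c0 c1 : ℝ),
      ∀ᶠ z in 𝓝 ((update t j (t i + r) m : ℝ) : ℂ),
        (∀ l, ψ l z = v l) ∧ φ 0 ((z - t i) / r) = c0 ∧ φ 1 ((z - t i) / r) = c1 := by
    intro m
    by_cases e : m = j
    · subst e
      rw [update_self]
      have e1 := hball (t i + r) (by rw [abs_lt]; constructor <;> linarith)
      have e2 := hsc (t i + r) (fun w => ∀ l, φ l w = if l = 1 then 1 else 0) (by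
        have := col_parLoc hφ h01 1
        have q : (t i + r - t i) / r = 1 := by field_simp; ring
        rw [q]
        simpa using this)
      exact ⟨_, _, _, (e1.and e2).mono fun z hz => ⟨hz.1, hz.2 0, hz.2 1⟩⟩
    · rw [update_of_ne e]
      by_cases e' : m = i
      · subst e'
        have e1 := hball (t m) (by simpa using hδ)
        have e2 := hsc (t m) (fun w => ∀ l, φ l w = if l = 0 then 1 else 0) (by
          have := col_parLoc hφ h01 0
          simpa using this)
        exact ⟨_, _, _, (e1.and e2).mono fun z hz => ⟨hz.1, hz.2 0, hz.2 1⟩⟩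
      · obtain ⟨m', hm'⟩ := Fin.exists_succAbove_eq e
        have e1 := col_parLoc hψ hinj m'
        simp only [comp_apply, hm'] at e1
        have e2 := hfar (t m) (by
          rw [le_abs]
          rcases hgap m e' with w | w
          · right; linarith
          · left; linarith)
        exact ⟨_, _, _, (e1.and e2).mono fun z hz => ⟨hz.1, hz.2.1, hz.2.2⟩⟩
  have key := hT H (n + 1) τ π (update t j (t i + r)) (Option (Option (Option (Fin n))))
    (colF ψ i' (fun z => φ 0 ((z - t i) / r)) (fun z => φ 1 ((z - t i) / r))) x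
    (fun o => τ.ga π (lo o) (x o)) hm ?_ (col_sum _ _ _ _) ?_ ?_ ?_
  · refine ⟨key.1, key.2.trans ?_⟩
    apply mul_le_mul_of_nonneg_left _ (by positivity)
    apply Finset.sum_le_sum
    intro o _
    apply mul_le_mul_of_nonneg_left _ (by positivity)
    rcases o with _ | _ | _ | m
    · rw [hBd0]; exact le_rfl
    · rw [hBd1]; exact (hD.1 _ _ _ hr0).le
    · rw [hBd2]; exact (hD.1 _ _ _ hr0).le
    · rw [hBd3]
      split_ifs with e
      · rw [col_eq _ _ _ e]
        have c1 : ContDiff ℝ 1 (ψ m) := (hψ.1 m).1.of_le (by norm_num)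
        have c2 : ContDiff ℝ 1 (fun z => φ 0 ((z - t i) / r)) := hA1.of_le (by norm_num)
        have c3 : ContDiff ℝ 1 (fun z => φ 1 ((z - t i) / r)) := hB1.of_le (by norm_num)
        have d1 := (hD.2.2 _ _ c1 (hψ.1 m).2 c2 hA2).1
        have d2 := (hD.2.2 _ _ (c1.sub c2) ((hψ.1 m).2.sub hA2) c3 hB2).1
        rw [hD.1 _ _ _ hr0] at d1 d2
        linarith
      · rw [col_ne _ _ _ e]
  · rintro (_ | _ | _ | m)
    · exact contDiff_const.sub (ContDiff.sum fun m _ => (hψ.1 m).1)
    · exact hA1
    · exact hB1
    · by_cases e : m = i'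
      · rw [col_eq _ _ _ e]
        exact ((hψ.1 m).1.sub hA1).sub hB1
      · rw [col_ne _ _ _ e]
        exact (hψ.1 m).1
  · intro o m
    obtain ⟨v, c0, c1, h⟩ := hloc m
    have h0 := h.self_of_nhds
    filter_upwards [h] with z hz
    rcases o with _ | _ | _ | l
    · simp only [colF, hz.1, h0.1]
    · exact hz.2.1.trans h0.2.1.symm
    · exact hz.2.2.trans h0.2.2.symm
    · by_cases e : l = i'
      · rw [col_eq _ _ _ e]
        simp only [hz.1, h0.1, hz.2.1, h0.2.1, hz.2.2, h0.2.2]
      · rw [col_ne _ _ _ e, hz.1, h0.1]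
  · rintro (_ | _ | _ | m)
    · refine ⟨1, ?_⟩
      have : HasCompactSupport (∑ m, ψ m) := HasCompactSupport.finset_sum fun m _ => (hψ.1 m).2
      have e : (fun z => colF ψ i' (fun z => φ 0 ((z - t i) / r)) (fun z => φ 1 ((z - t i) / r))
          none z - 1) = -∑ m, ψ m := by
        funext z
        simp [colF]
      rw [e]
      exact this.neg
    · exact ⟨0, by simpa [colF] using hA2⟩
    · exact ⟨0, by simpa [colF] using hB2⟩
    · refine ⟨0, ?_⟩
      by_cases e : m = i'
      · rw [col_eq _ _ _ e]
        simp only [sub_zero]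
        exact ((hψ.1 m).2.sub hA2).sub hB2
      · rw [col_ne _ _ _ e]
        simp only [sub_zero]
        exact (hψ.1 m).2
  · intro y hy o
    have hyi : t i ≠ y := by simpa [update_of_ne hij] using hy i
    have hyj : t i + r ≠ y := by simpa using hy j
    suffices h : (kk (update t j (t i + r)) y = lo o ∨ kk (update t j (t i + r)) y = hi o) ∨
        ∀ᶠ z in 𝓝 (y : ℂ), colF ψ i' (fun z => φ 0 ((z - t i) / r))
          (fun z => φ 1 ((z - t i) / r)) o z = 0 by
      rcases h with (h | h) | h
      · left; rw [h]
      · left; rw [h, hx]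
      · exact Or.inr h
    have hsplit : ∀ l, l ≠ j → ∃ l', update t j (t i + r) l = (t ∘ j.succAbove) l' := by
      intro l hl
      obtain ⟨l', hl'⟩ := Fin.exists_succAbove_eq hl
      exact ⟨l', by rw [update_of_ne hl, comp_apply, hl']⟩
    rcases o with _ | _ | _ | m
    · rw [hlo0, hhi0]
      by_cases h1 : ∃ m, (t ∘ j.succAbove) m ≤ y
      · by_cases h2 : ∃ m, y ≤ (t ∘ j.succAbove) m
        · right
          filter_upwards [hψ.2.2 y h1 h2] with z hz
          simp only [colF, hz, sub_self]
        · push Not at h2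
          rcases lt_or_gt_of_ne hyj with q | q
          · left; right
            apply col_card hm y _ le_rfl
            intro l
            refine ⟨fun _ => l.isLt, fun _ => ?_⟩
            by_cases e : π l = j
            · rw [e, update_self]; exact q
            · obtain ⟨l', hl'⟩ := hsplit _ e
              rw [hl']; exact h2 l'
          · right
            have q1 := h2 i'
            rw [hia] at q1
            filter_upwards [hball y (by rw [abs_lt]; constructor <;> linarith)] with z hz
            simp [colF, hz]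
      · push Not at h1
        left; left
        apply col_card hm y _ (Nat.zero_le _)
        intro l
        refine ⟨fun q => ?_, fun q => absurd q (Nat.not_lt_zero _)⟩
        exfalso
        by_cases e : π l = j
        · rw [e, update_self] at q
          have q1 := h1 i'
          rw [hia] at q1
          linarith
        · obtain ⟨l', hl'⟩ := hsplit _ e
          rw [hl'] at q
          exact lt_asymm q (h1 l')
    · rw [hlo1, hhi1]
      rcases lt_or_ge |y - t i| δ with q | q
      · rcases hφ.2.1 ((y - t i) / r) 0 with hA | hz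
        · left
          have q1 : (y - t i) / r < 1 := by simpa using (hA 1).2 (by simp)
          rw [div_lt_one hr0] at q1
          exact col_aj hm (hAi r y hr0 q (by linarith)) (hy i)
        · exact Or.inr (hsc y (fun w => φ 0 w = 0) hz)
      · exact Or.inr ((hfar y q).mono fun z hz => hz.1)
    · rw [hlo2, hhi2]
      rcases lt_or_ge |y - t i| δ with q | q
      · rcases hφ.2.1 ((y - t i) / r) 1 with hA | hz
        · left
          have q1 : 0 < (y - t i) / r := by simpa using (hA 0).1 (by simp)
          rw [lt_div_iff₀ hr0] at q1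
          exact col_aj hm (hAj r y hr0 hrδ q (by linarith)) (hy j)
        · exact Or.inr (hsc y (fun w => φ 1 w = 0) hz)
      · exact Or.inr ((hfar y q).mono fun z hz => hz.2)
    · rw [hlo3, hhi3]
      split_ifs with e
      · rw [col_eq _ _ _ e]
        subst e
        rw [hi']
        have hcase : Aj (t ∘ j.succAbove) m y ∨ ∀ᶠ z in 𝓝 (y : ℂ),
            ψ m z - φ 0 ((z - t i) / r) - φ 1 ((z - t i) / r) = 0 := by
          rcases hψ.2.1 y m with hA | hz
          · exact Or.inl hA
          · right
            rcases lt_or_ge |y - t i| δ with q | q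
            · exfalso
              have q1 := (hball y q).self_of_nhds m
              rw [hz.self_of_nhds, if_pos rfl] at q1
              exact zero_ne_one q1
            · filter_upwards [hz, hfar y q] with z a b
              rw [a, b.1, b.2]; ring
        rcases hcase with hA | hz
        swap
        · exact Or.inr hz
        rcases lt_or_gt_of_ne hyi with q | q
        · rcases lt_or_gt_of_ne hyj with q' | q'
          · left; right
            have hA' : Aj (update t j (t i + r)) j y := by
              intro l
              rw [update_self]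
              refine ⟨fun a => a.trans q', fun a => ?_⟩
              by_cases e : l = j
              · rw [e, update_self] at a; exact absurd a (lt_irrefl _)
              · obtain ⟨l', hl'⟩ := hsplit _ e
                rw [hl'] at a ⊢
                apply (hA l').2
                rw [hia]; linarith
            rw [col_hi hm hA' (by rw [update_self]; exact q'), hpos]
          · right
            have q1 := hφ.2.2 ((y - t i) / r) ⟨0, by
              have : 0 ≤ (y - t i) / r := div_nonneg (by linarith) hr0.le
              simpa using this⟩ ⟨1, by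
              have : (y - t i) / r ≤ 1 := by rw [div_le_one hr0]; linarith
              simpa using this⟩
            filter_upwards [hsc y (fun w => ∑ l, φ l w = 1) q1,
              hball y (by rw [abs_lt]; constructor <;> linarith)] with z a b
            rw [Fin.sum_univ_two] at a
            rw [b, if_pos rfl]; linarith
        · left; left
          have hA' : Aj (update t j (t i + r)) i y := by
            intro l
            rw [update_of_ne hij]
            refine ⟨fun a => ?_, fun a => q.trans a⟩
            by_cases e : l = j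
            · rw [e, update_self] at a; linarith
            · obtain ⟨l', hl'⟩ := hsplit _ e
              rw [hl'] at a ⊢
              apply (hA l').1
              rw [hia]; exact a
          exact col_lo hm hA' (by rw [update_of_ne hij]; exact q)
      · rw [col_ne _ _ _ e]
        rcases lt_or_ge |y - t i| δ with q | q
        · right
          filter_upwards [hball y q] with z hz
          rw [hz, if_neg e]
        · rcases hψ.2.1 y m with hA | hz
          swap
          · exact Or.inr hz
          left
          refine col_aj hm ?_ (hy _)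
          have hne : j.succAbove m ≠ j := Fin.succAbove_ne j m
          have hni : j.succAbove m ≠ i := fun w => e (Fin.succAbove_right_injective (w.trans hi'.symm))
          intro l
          rw [update_of_ne hne]
          by_cases e2 : l = j
          · rw [e2, update_self]
            have a1 := hA i'
            rw [hia, comp_apply] at a1
            rw [le_abs] at q
            constructor
            · intro a
              have := a1.1 (by linarith)
              rcases q with q | q <;> linarith
            · intro a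
              have : t (j.succAbove m) < t i := by
                rcases hgap _ hni with w | w <;> linarith
              have := a1.2 this
              linarith
          · obtain ⟨l', hl'⟩ := hsplit _ e2
            rw [hl']
            exact hA l'

end Pool.Agent.MA
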