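import Pool.Agent.Lib.MP_c86c76_al.An.St

/-!
The least energy is constant, hence zero.
-/

set_option autoImplicit false

namespace Pool.Agent.MA

open Complex MeasureTheory Filter Topology Set Function

theorem con_rc {n : ℕ} (t : Fin n → ℝ) (j : Fin n) (y : ℝ) :
    rc (update t j y) = update (rc t) j (y : ℂ) := by
  funext i
  by_cases h : i = j
  · subst h
    simp [rc]
  · simp [rc, update_of_ne h]

theorem con_nonneg {H : Type} [NormedAddCommGroup H] [InnerProductSpace ℂ H] {n : ℕ}
    (τ : Tr n (H ≃ᵃⁱ[ℂ] H)) (T : Fin n → ℂ) : 0 ≤ EE τ T :=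
  Real.sInf_nonneg (by
    rintro _ ⟨U, -, rfl⟩
    exact integral_nonneg fun z => by positivity)

theorem conSt (hLi : LioSt) (hLc : LcSt) (hS : SupSt) (hC : ColSt) (hI : InfSt) (hBd : BdSt)
    (_hB : BasSt) : ConSt := by
  classical
  intro H _ _ _ n τ t j x hy ht hj hx
  have inj : Injective (rc t) := fun a b e => ht.injective (Complex.ofReal_injective e)
  let A : Finset ℂ := (Finset.univ.filter (· ≠ j)).image (rc t)
  have hA : ∀ s, s ∈ A ↔ ∃ i, i ≠ j ∧ rc t i = s := fun s => by simp [A]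
  obtain ⟨h1, h2, M, h3⟩ := hBd A (fun s => EE τ (update (rc t) j s))
    (fun s => Ne τ (update (rc t) j s)) ⟨_, (hA _).2 ⟨0, hj.symm, rfl⟩⟩ (fun s => con_nonneg τ _)
    (fun κ k0 k1 => by
      obtain ⟨c, c0, hc⟩ := hLc κ k0 k1
      exact ⟨c, c0, fun s s' d d0 hd e =>
        hc H _ τ (rc t) j s s' d inj d0 (fun i hi => hd _ ((hA _).2 ⟨i, hi, rfl⟩)) e⟩)
    (fun a ha => by
      obtain ⟨i, hi, rfl⟩ := (hA a).1 ha
      obtain ⟨C, h⟩ := hC H n τ t i j hy ht hj hi
      refine ⟨C, h.mono fun r hr => ?_⟩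
      have := hr.2
      rwa [con_rc, ofReal_add] at this)
    (by
      obtain ⟨C, h⟩ := hI H n τ t j hy ht hj
      exact ⟨C, h.mono fun r hr => by rwa [con_rc] at hr⟩)
  have h4 := hLi A _ M h2 h3 fun s0 h0 =>
    hS H _ τ (rc t) j s0 inj (fun i hi e => h0 ((hA _).2 ⟨i, hi, e⟩))
      (Filter.Eventually.mono (A.finite_toSet.isClosed.isOpen_compl.mem_nhds h0) h1)
  have h5 : rc t j ∉ A := fun h => by
    obtain ⟨i, hi, e⟩ := (hA _).1 h
    exact hi (inj e)
  have h6 : (x : ℂ) ∉ A := fun h => by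
    obtain ⟨i, hi, e⟩ := (hA _).1 h
    exact hx i hi (Complex.ofReal_injective e)
  have h7 := h1 _ h5
  have h8 := h4 _ h5 _ h6
  simp only [update_eq_self] at h7 h8
  exact ⟨h7, by rw [con_rc, h8]⟩

/-- The configurations between the standard one and the degenerate one. -/
noncomputable def conHb (n : ℕ) (R : ℝ) (m : ℕ) : Fin (n + 1) → ℝ :=
  fun k => if (k : ℕ) < m then (k : ℝ) else dg n R k

theorem con_lt {n : ℕ} {R : ℝ} (hR : 2 ≤ R) {k : Fin (n + 1)} (hk : k ≠ 0) :
    ((k : ℕ) : ℝ) < dg n R k := by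
  rw [dg, if_neg hk]
  calc ((k : ℕ) : ℝ) < 2 ^ (k : ℕ) := by exact_mod_cast Nat.lt_two_pow_self
    _ ≤ R ^ (k : ℕ) := pow_le_pow_left₀ (by norm_num) hR _

theorem con_mono {n : ℕ} {R : ℝ} (hR : 2 ≤ R) (m : ℕ) : StrictMono (conHb n R m) := by
  intro k l h
  have h' : (k : ℕ) < l := h
  have h1 : ((k : ℕ) : ℝ) < (l : ℕ) := by exact_mod_cast h'
  have hl : l ≠ 0 := h.ne_bot
  simp only [conHb]
  split_ifs with a b b
  · exact h1
  · exact h1.trans (con_lt hR hl)
  · omega
  · by_cases hk : k = 0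
    · subst hk
      simpa [dg] using h1.trans (con_lt hR hl)
    · rw [dg, dg, if_neg hk, if_neg hl]
      exact pow_lt_pow_right₀ (by linarith) h'

theorem mainSt (hC : ConSt) (hD : DegSt) (hF : FinSt) (_hB : BasSt) : MainSt := by
  intro H _ _ _ n τ hn hy h3
  have ht : StrictMono fun k : Fin (n + 1) => ((k : ℕ) : ℝ) := fun k l h =>
    Nat.cast_lt.2 h
  refine hF H (n + 1) τ _ ht (hC H n τ _ (Fin.last n) _ hy ht ?_ fun i hi => ht.injective.ne hi).1
    (le_antisymm (le_of_forall_pos_le_add fun ε e0 => ?_) (con_nonneg τ _))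
  · intro e
    have := congrArg Fin.val e
    simp at this
    omega
  obtain ⟨R, hE, hR⟩ := ((hD H n τ hn h3 ε e0).and (eventually_ge_atTop 2)).exists
  have key : ∀ m, m ≤ n + 1 → EE τ (rc (conHb n R m)) = EE τ (rc (dg n R)) := by
    intro m
    induction m with
    | zero => exact fun _ => rfl
    | succ m ih =>
      intro hm
      rw [← ih (by omega)]
      have e : conHb n R (m + 1) = update (conHb n R m) ⟨m, by omega⟩ m := by
        funext k
        by_cases h : k = ⟨m, by omega⟩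
        · subst h
          simp [conHb]
        · have : (k : ℕ) ≠ m := fun e => h (Fin.ext e)
          rw [update_of_ne h]
          exact if_congr (by omega) rfl rfl
      rw [e]
      by_cases h0 : m = 0
      · subst h0
        congr 2
        exact update_eq_self_iff.2 (by simp [conHb, dg])
      · refine (hC H n τ _ _ _ hy (con_mono hR m) (fun e => h0 (congrArg Fin.val e))
          fun i hi => ?_).2.symm
        have h1 : (i : ℕ) ≠ m := fun e => hi (Fin.ext e)
        simp only [conHb]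
        split_ifs with a
        · exact_mod_cast h1
        · have h2 : (m : ℝ) < (i : ℕ) := by exact_mod_cast (by omega : m < i)
          exact (h2.trans (con_lt hR fun e => by simp [e] at a; exact h0 a)).ne'
  have e : conHb n R (n + 1) = fun k : Fin (n + 1) => ((k : ℕ) : ℝ) :=
    funext fun k => if_pos k.2
  rw [← e, key _ le_rfl, zero_add]
  exact hE.2

end Pool.Agent.MA
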