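import Pool.Agent.Lib.MP_c86c76_al.An.St

/-!
The least energy tends to zero at the degenerate configuration.
-/

set_option autoImplicit false

namespace Pool.Agent.MA

open Complex MeasureTheory Filter Topology Set Function

lemma deg_kk_le {N : ℕ} {t : Fin N → ℝ} (ht : Monotone t) {x : ℝ} {l : Fin N} (h : x ≤ t l) :
    kk t x ≤ l := by
  rw [← Fin.card_Iio l]
  refine Finset.card_le_card fun m hm => Finset.mem_Iio.2 (lt_of_not_ge fun e => ?_)
  exact ((Finset.mem_filter.1 hm).2.trans_le h).not_ge (ht e)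

lemma deg_lt_kk {N : ℕ} {t : Fin N → ℝ} (ht : Monotone t) {x : ℝ} {l : Fin N} (h : t l < x) :
    (l : ℕ) + 1 ≤ kk t x := by
  rw [← Fin.card_Iic l]
  exact Finset.card_le_card fun m hm =>
    Finset.mem_filter.2 ⟨Finset.mem_univ _, (ht (Finset.mem_Iic.1 hm)).trans_lt h⟩

lemma deg_kk_top {N : ℕ} (t : Fin N → ℝ) (x : ℝ) : kk t x ≤ N :=
  (Finset.card_le_univ _).trans (Fintype.card_fin N).le

lemma deg_ne {n : ℕ} (R : ℝ) {k : Fin (n + 1)} (h : (k : ℕ) ≠ 0) : dg n R k = R ^ (k : ℕ) :=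
  if_neg fun e => h (by rw [e]; rfl)

lemma deg_bd {n : ℕ} {R : ℝ} (hR : 1 < R) (k : Fin (n + 1)) :
    0 ≤ dg n R k ∧ dg n R k ≤ R ^ (k : ℕ) := by
  unfold dg
  split_ifs
  · exact ⟨le_rfl, by positivity⟩
  · exact ⟨by positivity, le_rfl⟩

lemma deg_mono {n : ℕ} {R : ℝ} (hR : 1 < R) : StrictMono (dg n R) := fun k l h => by
  have h' : (k : ℕ) < l := h
  rw [deg_ne R (k := l) (by omega)]
  exact (deg_bd hR k).2.trans_lt (pow_lt_pow_right₀ hR h')

/-- The cut-off functions between consecutive punctures. -/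
structure DegC (n : ℕ) (R D : ℝ) (η : ℕ → ℂ → ℝ) : Prop where
  zero : η 0 = fun _ => 0
  top : η n = fun _ => 1
  cd : ∀ k, ContDiff ℝ 2 (η k)
  one : ∀ k, k ≠ 0 → ∀ z, ‖z‖ ≤ 2 * R ^ k → η k z = 1
  out : ∀ k, k ≠ n → ∀ z, R ^ (k + 1) / 2 ≤ ‖z‖ → η k z = 0
  bd : ∀ k, k ≠ n → dir (η k) ≤ D

lemma deg_ex (hL : LogSt) {n : ℕ} (hn : 1 ≤ n) :
    ∃ C : ℝ, ∀ R : ℝ, 4 < R → ∃ η, DegC n R (C / Real.log (R / 4)) η := by
  obtain ⟨C, hC⟩ := hL
  refine ⟨C, fun R hR => ?_⟩
  choose L h1 h2 h3 h4 using fun k : ℕ =>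
    hC (2 * R ^ k) (R / 4) (by have : 0 < R := by linarith
                               positivity) (by linarith)
  have h0 : 0 ≤ C / Real.log (R / 4) := (integral_nonneg fun z => by positivity).trans (h4 0)
  refine ⟨fun k => if k = n then fun _ => 1 else if k = 0 then fun _ => 0 else L k,
    by rw [if_neg (by omega), if_pos rfl], if_pos rfl, fun k => ?_, fun k hk z hz => ?_,
    fun k hk z hz => ?_, fun k hk => ?_⟩
  · split_ifs
    exacts [contDiff_const, contDiff_const, h1 k]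
  · split_ifs
    exacts [rfl, h2 k z hz]
  · rw [if_neg hk]
    split_ifs
    exacts [rfl, h3 k z (by rw [pow_succ] at hz; linarith)]
  · rw [if_neg hk]
    split_ifs
    · simpa [dir] using h0
    · exact h4 k

namespace DegC

variable {n : ℕ} {R D : ℝ} {η : ℕ → ℂ → ℝ}

lemma ev_one (h : DegC n R D η) {k : ℕ} (hk : k ≠ 0) {z : ℂ} (hz : ‖z‖ < 2 * R ^ k) :
    ∀ᶠ w in 𝓝 z, η k w = 1 :=
  (continuous_norm.continuousAt.eventually_lt continuousAt_const hz).mono fun w hw =>
    h.one k hk w hw.le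

lemma ev_zero (h : DegC n R D η) {k : ℕ} (hk : k ≠ n) {z : ℂ} (hz : R ^ (k + 1) / 2 < ‖z‖) :
    ∀ᶠ w in 𝓝 z, η k w = 0 :=
  (continuousAt_const.eventually_lt continuous_norm.continuousAt hz).mono fun w hw =>
    h.out k hk w hw.le

lemma cs (h : DegC n R D η) {k : ℕ} (hk : k ≠ n) : HasCompactSupport (η k) :=
  HasCompactSupport.intro (isCompact_closedBall (0 : ℂ) (R ^ (k + 1) / 2)) fun z hz =>
    h.out k hk z (le_of_not_ge fun e => hz (mem_closedBall_zero_iff.2 e))

lemma loc (h : DegC n R D η) (hR : 1 < R) (k : ℕ) (m : Fin (n + 1)) :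
    ∀ᶠ z in 𝓝 (dg n R m : ℂ), η k z = η k (dg n R m) := by
  have hm := deg_bd hR m
  have e : ‖(dg n R m : ℂ)‖ = dg n R m := by rw [norm_real, Real.norm_of_nonneg hm.1]
  have p : ∀ i : ℕ, 0 < R ^ i := fun i => by positivity
  by_cases h0 : k = 0
  · rw [h0, h.zero]
    exact Eventually.of_forall fun _ => rfl
  by_cases h1 : (m : ℕ) ≤ k
  · have := h.ev_one h0 (z := dg n R m) (by
      have := pow_le_pow_right₀ hR.le h1
      linarith [p k])
    exact this.mono fun w hw => hw.trans this.self_of_nhds.symm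
  · have := h.ev_zero (k := k) (by omega) (z := dg n R m) (by
      have := pow_le_pow_right₀ hR.le (show k + 1 ≤ m by omega)
      rw [e, deg_ne R (by omega)]
      linarith [p (k + 1)])
    exact this.mono fun w hw => hw.trans this.self_of_nhds.symm

lemma dir_le (h : DegC n R D η) (hD : DirSt) {k : ℕ} (hk : k < n) :
    dir (fun z => η (k + 1) z - η k z) ≤ 4 * D := by
  have h1 := h.bd k hk.ne
  have h0 : 0 ≤ dir (η k) := integral_nonneg fun z => by positivity
  by_cases e : k + 1 = n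
  · rw [e, h.top, hD.2.1]
    linarith
  · have := (hD.2.2 _ _ ((h.cd (k + 1)).of_le (by norm_num)) (h.cs e)
      ((h.cd k).of_le (by norm_num)) (h.cs hk.ne)).1
    linarith [h.bd _ e]

lemma cs_sub (h : DegC n R D η) {k : ℕ} (hk : k < n) :
    ∃ c : ℝ, HasCompactSupport fun z => η (k + 1) z - η k z - c := by
  by_cases e : k + 1 = n
  · refine ⟨1, ?_⟩
    rw [e, h.top]
    simp only [sub_sub_cancel_left]
    exact (h.cs hk.ne).neg
  · refine ⟨0, ?_⟩
    simp only [sub_zero]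
    exact (h.cs e).sub (h.cs hk.ne)

lemma place (h : DegC n R D η) (hR : 1 < R) {k : ℕ} (hk : k < n) (x : ℝ) :
    kk (dg n R) x = 0 ∨ kk (dg n R) x = k + 1 ∨ kk (dg n R) x = k + 1 + 1 ∨
      ∀ᶠ z in 𝓝 (x : ℂ), η (k + 1) z - η k z = 0 := by
  have m := (deg_mono (n := n) hR).monotone
  have p : ∀ i : ℕ, 0 < R ^ i := fun i => by positivity
  have q : ∀ i : ℕ, R ^ i ≤ R ^ (i + 1) := fun i => pow_le_pow_right₀ hR.le (by omega)
  by_cases h0 : x ≤ dg n R 0
  · exact Or.inl (Nat.le_zero.1 (deg_kk_le m h0))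
  have h1 : 0 < x := (deg_bd hR 0).1.trans_lt (lt_of_not_ge h0)
  have e : ‖(x : ℂ)‖ = x := by rw [norm_real, Real.norm_of_nonneg h1.le]
  by_cases h2 : x ≤ dg n R ⟨k, by omega⟩
  · have k0 : k ≠ 0 := by
      rintro rfl
      exact h0 h2
    have h3 : x ≤ R ^ k := h2.trans (deg_bd hR _).2
    refine Or.inr (Or.inr (Or.inr ?_))
    filter_upwards [h.ev_one k0 (z := x) (by linarith [p k]),
      h.ev_one (k := k + 1) (by omega) (z := x) (by linarith [p k, q k])] with z a b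
    rw [a, b, sub_self]
  have h3 : k + 1 ≤ kk (dg n R) x := deg_lt_kk m (lt_of_not_ge h2)
  by_cases h4 : kk (dg n R) x ≤ k + 2
  · omega
  have h5 := deg_kk_top (dg n R) x
  have h6 : dg n R ⟨k + 2, by omega⟩ < x := lt_of_not_ge fun e => h4 (deg_kk_le m e)
  rw [deg_ne R (by simp)] at h6
  have h7 : R ^ (k + 1 + 1) < x := h6
  refine Or.inr (Or.inr (Or.inr ?_))
  filter_upwards [h.ev_zero hk.ne (z := x) (by linarith [p (k + 1), q (k + 1)]),
    h.ev_zero (k := k + 1) (by omega) (z := x) (by linarith [p (k + 1 + 1)])] with z a b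
  rw [a, b, sub_self]

end DegC

theorem degSt (hL : LogSt) (hD : DirSt) (hT : TesSt) : DegSt := by
  intro H _ _ _ n τ hn h3 ε hε
  obtain ⟨C, hC⟩ := deg_ex hL hn
  choose x hx hx' using fun i : Fin n => h3 (i + 1) (by omega) i.2
  set S : ℝ := ∑ i, (‖x i‖ ^ 2 + ‖τ.ga 1 0 (x i)‖ ^ 2) with hS
  have t0 : Tendsto (fun R : ℝ => 4 * n * (S * (4 * (C / Real.log (R / 4))))) atTop (𝓝 0) := by
    have := ((tendsto_const_nhds (x := C)).div_atTop (Real.tendsto_log_atTop.comp
      (tendsto_id.atTop_div_const (show (0 : ℝ) < 4 by norm_num)))).const_mul (4 * n * (S * 4))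
    rw [mul_zero] at this
    exact this.congr fun R => by simp only [Function.comp, id]; ring
  filter_upwards [eventually_gt_atTop 4, t0.eventually (ge_mem_nhds hε)] with R hR hb
  obtain ⟨η, h⟩ := hC R hR
  have R1 : 1 < R := by linarith
  obtain ⟨a, b⟩ := hT H (n + 1) τ 1 (dg n R) (Fin n) (fun i z => η (i + 1) z - η i z) x
    (fun i => τ.ga 1 0 (x i)) (deg_mono R1) (fun i => (h.cd _).sub (h.cd _))
    (fun z => by
      rw [Fin.sum_univ_eq_sum_range (fun i => η (i + 1) z - η i z),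
        Finset.sum_range_sub (fun i => η i z), h.top, h.zero, sub_zero])
    (fun i m => by
      filter_upwards [h.loc R1 (i + 1) m, h.loc R1 i m] with z a b
      rw [a, b])
    (fun i => h.cs_sub i.2) fun x0 _ i => by
      rcases h.place R1 i.2 x0 with e | e | e | e
      · exact Or.inl (by rw [e])
      · exact Or.inl (by rw [e, hx])
      · exact Or.inl (by rw [e, hx'])
      · exact Or.inr e
  refine ⟨a, b.trans (le_trans ?_ hb)⟩
  rw [Fintype.card_fin, hS, Finset.sum_mul]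
  exact mul_le_mul_of_nonneg_left (Finset.sum_le_sum fun i _ =>
    mul_le_mul_of_nonneg_left (h.dir_le hD i.2) (by positivity)) (by positivity)

end Pool.Agent.MA
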