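import Pool.Agent.Lib.MP_c86c76_al.An.St

/-!
Least energy zero gives almost fixed points.
-/

set_option autoImplicit false

namespace Pool.Agent.MA

open Complex MeasureTheory Filter Topology Set Function
open scoped InnerProductSpace

/-- The real point `x` lies in the interval number `k`. -/
def finGood {n : ℕ} (t : Fin n → ℝ) (k : ℕ) (x : ℝ) : Prop :=
  ∀ m : Fin n, ((m : ℕ) < k → t m < x) ∧ (k ≤ (m : ℕ) → x < t m)

theorem finGood_ne {n : ℕ} {t : Fin n → ℝ} {k : ℕ} {x : ℝ} (h : finGood t k x) (m : Fin n) :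
    t m ≠ x := by
  rcases lt_or_ge (m : ℕ) k with hm | hm
  · exact ((h m).1 hm).ne
  · exact ((h m).2 hm).ne'

theorem finGood_kk {n : ℕ} {t : Fin n → ℝ} {k : ℕ} {x : ℝ} (h : finGood t k x) (hk : k ≤ n) :
    kk t x = k := by
  have : (Finset.univ.filter fun m => t m < x) =
      Finset.univ.filter fun m : Fin n => (m : ℕ) < k := by
    ext m
    simp only [Finset.mem_filter, Finset.mem_univ, true_and]
    constructor
    · intro hm
      by_contra hk'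
      exact absurd ((h m).2 (not_lt.mp hk')) (not_lt.mpr hm.le)
    · exact (h m).1
  unfold kk
  rw [this, Fin.card_filter_val_lt]
  omega

theorem finGood_exists {n : ℕ} {t : Fin n → ℝ} (ht : StrictMono t) (k : ℕ) :
    ∃ c : ℝ, ∃ ρ > 0, ∀ x : ℝ, |x - c| < ρ → finGood t k x := by
  classical
  obtain ⟨c, hc1, hc2⟩ := Order.exists_between_finsets
    ((Finset.univ.filter fun m : Fin n => (m : ℕ) < k).image t)
    ((Finset.univ.filter fun m : Fin n => k ≤ (m : ℕ)).image t) (by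
      intro x hx y hy
      obtain ⟨a, ha, rfl⟩ := Finset.mem_image.mp hx
      obtain ⟨b, hb, rfl⟩ := Finset.mem_image.mp hy
      simp only [Finset.mem_filter, Finset.mem_univ, true_and] at ha hb
      exact ht (by rw [Fin.lt_def]; omega))
  have hev : ∀ᶠ x in 𝓝 c, finGood t k x := by
    unfold finGood
    rw [eventually_all]
    intro m
    rcases lt_or_ge (m : ℕ) k with hm | hm
    · have h1 : t m < c := hc1 _ (Finset.mem_image.mpr ⟨m, by simpa using hm, rfl⟩)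
      filter_upwards [lt_mem_nhds h1] with x hx
      exact ⟨fun _ => hx, fun h => absurd hm (not_lt.mpr h)⟩
    · have h1 : c < t m := hc2 _ (Finset.mem_image.mpr ⟨m, by simpa using hm, rfl⟩)
      filter_upwards [gt_mem_nhds h1] with x hx
      exact ⟨fun h => absurd h (not_lt.mpr hm), fun _ => hx⟩
  obtain ⟨ρ, hρ, h⟩ := Metric.eventually_nhds_iff.mp hev
  exact ⟨c, ρ, hρ, fun x hx => h (by rwa [Real.dist_eq])⟩

theorem finTube (c : ℝ) (p : ℂ) (hp : |p.im| = 1) (δ : ℝ) (z : ℂ) (hz : z ∈ segment ℝ (c : ℂ) p)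
    (ζ : ℂ) (hζ : ζ ∈ Metric.ball (0 : ℂ) δ) (h : (z + ζ).im = 0) :
    |(z + ζ).re - c| < δ * (1 + ‖p - c‖) := by
  rw [segment_eq_image'] at hz
  obtain ⟨θ, hθ, rfl⟩ := hz
  rw [mem_ball_zero_iff] at hζ
  have h1 : θ * p.im + ζ.im = 0 := by simpa using h
  have h2 : θ ≤ ‖ζ‖ := by
    have h3 : θ * p.im = -ζ.im := by linarith
    have h4 : |θ * p.im| = θ := by rw [abs_mul, hp, abs_of_nonneg hθ.1, mul_one]
    rw [← h4, h3, abs_neg]
    exact abs_im_le_norm ζ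
  have h5 : ((c : ℂ) + θ • (p - c) + ζ).re - c = θ * (p - c).re + ζ.re := by
    simp
    ring
  rw [h5]
  have h6 : |θ * (p - c).re| ≤ δ * ‖p - c‖ := by
    rw [abs_mul, abs_of_nonneg hθ.1]
    exact mul_le_mul (by linarith) (abs_re_le_norm _) (abs_nonneg _) (by linarith [norm_nonneg ζ])
  have h7 := abs_re_le_norm ζ
  have h8 := abs_add_le (θ * (p - c).re) ζ.re
  nlinarith

theorem finPick {ι : Type} [Fintype ι] (f : ι → ℂ → ℝ) (δ e : ℝ) (he : 0 < e) (B : ι → ℝ)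
    (hB : ∀ j, 0 ≤ B j) (hc : ∀ j, ContinuousOn (f j) (Metric.ball 0 δ))
    (hI : ∀ j, ∫⁻ ζ in Metric.ball (0 : ℂ) δ, ENNReal.ofReal (f j ζ) ≤ ENNReal.ofReal (B j))
    (hlt : ∑ j, B j < e * (volume (Metric.ball (0 : ℂ) δ)).toReal) :
    ∃ ζ ∈ Metric.ball (0 : ℂ) δ, ∀ j, f j ζ < e := by
  by_contra hcon
  push Not at hcon
  have hfin : volume (Metric.ball (0 : ℂ) δ) ≠ ⊤ := measure_ball_lt_top.ne
  have h1 : ENNReal.ofReal e * volume (Metric.ball (0 : ℂ) δ) ≤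
      ∫⁻ ζ in Metric.ball (0 : ℂ) δ, ∑ j, ENNReal.ofReal (f j ζ) := by
    rw [← setLIntegral_const]
    refine setLIntegral_mono' Metric.isOpen_ball.measurableSet fun ζ hζ => ?_
    obtain ⟨j, hj⟩ := hcon ζ hζ
    exact (ENNReal.ofReal_le_ofReal hj).trans
      (Finset.single_le_sum (f := fun j => ENNReal.ofReal (f j ζ)) (fun _ _ => zero_le)
        (Finset.mem_univ j))
  rw [lintegral_finsetSum' (f := fun j ζ => ENNReal.ofReal (f j ζ)) _ fun j _ =>
    (ENNReal.continuous_ofReal.comp_continuousOn (hc j)).aemeasurable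
      Metric.isOpen_ball.measurableSet] at h1
  have h2 : ∑ j, ∫⁻ ζ in Metric.ball (0 : ℂ) δ, ENNReal.ofReal (f j ζ) ≤
      ENNReal.ofReal (∑ j, B j) := by
    rw [ENNReal.ofReal_sum_of_nonneg fun j _ => hB j]
    exact Finset.sum_le_sum fun j _ => hI j
  have h3 : ENNReal.ofReal (e * (volume (Metric.ball (0 : ℂ) δ)).toReal) ≤
      ENNReal.ofReal (∑ j, B j) := by
    rw [ENNReal.ofReal_mul he.le, ENNReal.ofReal_toReal hfin]
    exact h1.trans h2
  rw [ENNReal.ofReal_le_ofReal_iff (Finset.sum_nonneg fun j _ => hB j)] at h3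
  linarith

section Hilbert

variable {H : Type} [NormedAddCommGroup H] [InnerProductSpace ℂ H] {n : ℕ}

theorem finMul (f g : H ≃ᵃⁱ[ℂ] H) (x : H) : (f * g) x = f (g x) := rfl

theorem finComp (g : H ≃ᵃⁱ[ℂ] H) (u : ℂ → H) (z0 : ℂ) (hu : ContDiffAt ℝ 1 u z0) :
    ContDiffAt ℝ 1 (fun z => g (u z)) z0 ∧
      ‖fderiv ℝ (fun z => g (u z)) z0‖ ≤ ‖fderiv ℝ u z0‖ := by
  let L : H →L[ℝ] H :=
    (g.linearIsometryEquiv.toContinuousLinearEquiv.toContinuousLinearMap).restrictScalars ℝ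
  have hL : ∀ v, L v = g.linearIsometryEquiv v := fun v => rfl
  have hg : (fun z => g (u z)) = fun z => L (u z) + g 0 := by
    funext z
    have := g.map_vadd (0 : H) (u z)
    simpa [hL] using this
  rw [hg]
  refine ⟨(L.contDiff.contDiffAt.comp z0 hu).add contDiffAt_const, ?_⟩
  have hd : HasFDerivAt (fun z => L (u z) + g 0) (L.comp (fderiv ℝ u z0)) z0 :=
    (L.hasFDerivAt.comp z0 (hu.differentiableAt one_ne_zero).hasFDerivAt).add_const _
  rw [hd.fderiv]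
  refine ContinuousLinearMap.opNorm_le_bound _ (norm_nonneg _) fun v => ?_
  rw [ContinuousLinearMap.comp_apply, hL, LinearIsometryEquiv.norm_map]
  exact (fderiv ℝ u z0).le_opNorm v

/-- The section continued through the interval number `k`. -/
noncomputable def finW (τ : Tr n (H ≃ᵃⁱ[ℂ] H)) (U : ℂ → H) (k : ℕ) : ℂ → H := fun z =>
  if 0 < z.im then U z else if z.im < 0 then (τ.ga 1 k)⁻¹ (U z) else τ.a 1 k (U z)

theorem finW_eq (τ : Tr n (H ≃ᵃⁱ[ℂ] H)) {t : Fin n → ℝ} (ht : StrictMono t) (U : ℂ → H) {k : ℕ}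
    (hk : k ≤ n) (z0 : ℂ) (h : z0.im = 0 → finGood t k z0.re) :
    (∀ i, rc t i ≠ z0) ∧ ∃ g : H ≃ᵃⁱ[ℂ] H,
      finW τ U k =ᶠ[𝓝 z0] fun z => g (gz τ (rc t) U z0 z) := by
  rcases lt_trichotomy z0.im 0 with h0 | h0 | h0
  · have hne : ∀ i, (rc t i).im ≠ z0.im := fun i => by simpa [rc] using h0.ne'
    refine ⟨fun i hi => hne i (by rw [hi]), (τ.ga 1 k)⁻¹, ?_⟩
    filter_upwards [τ.loc z0 (rc t) hne,
      (continuous_im.tendsto z0).eventually (gt_mem_nhds h0)] with z hz hz'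
    simp only [finW, gz, hz, inv_one, if_neg (not_lt.mpr hz'.le), if_pos hz']
    rfl
  · have hg := h h0
    have hz0 : ((z0.re : ℝ) : ℂ) = z0 := by
      apply Complex.ext <;> simp [h0]
    refine ⟨fun i hi => finGood_ne hg i (by rw [← hi]; simp [rc]), τ.a 1 k, ?_⟩
    have hre := τ.re 1 t z0.re (by simpa using ht) (finGood_ne hg)
    rw [hz0, finGood_kk hg hk] at hre
    filter_upwards [hre] with z hz
    simp only [finW, gz, hz]
    split_ifs with h1 h2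
    · rw [← finMul, mul_inv_cancel]
      rfl
    · rw [← finMul, Tr.ga, mul_inv_rev, inv_inv]
    · rw [inv_one]
      rfl
  · have hne : ∀ i, (rc t i).im ≠ z0.im := fun i => by simpa [rc] using h0.ne
    refine ⟨fun i hi => hne i (by rw [hi]), 1, ?_⟩
    filter_upwards [τ.loc z0 (rc t) hne,
      (continuous_im.tendsto z0).eventually (lt_mem_nhds h0)] with z hz hz'
    simp only [finW, gz, hz, inv_one, if_pos hz']
    rfl

theorem finW_loc (τ : Tr n (H ≃ᵃⁱ[ℂ] H)) {t : Fin n → ℝ} (ht : StrictMono t) {U : ℂ → H}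
    (hU : IsSec τ (rc t) U) {k : ℕ} (hk : k ≤ n) (z0 : ℂ) (h : z0.im = 0 → finGood t k z0.re) :
    ContDiffAt ℝ 1 (finW τ U k) z0 ∧
      ‖fderiv ℝ (finW τ U k) z0‖ ^ 2 ≤ ‖DD τ (rc t) U z0‖ ^ 2 := by
  obtain ⟨hne, g, hg⟩ := finW_eq τ ht U hk z0 h
  obtain ⟨h1, h2⟩ := finComp g _ z0 ((hU.1 z0 hne).of_le (by norm_num))
  refine ⟨h1.congr_of_eventuallyEq hg, ?_⟩
  rw [hg.fderiv_eq]
  exact pow_le_pow_left₀ (norm_nonneg _) h2 2

end Hilbert

/-- The end points of the two segments. -/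
def finP (s : Bool) : ℂ := if s then I else -I

theorem finP_im (s : Bool) : |(finP s).im| = 1 := by
  cases s <;> simp [finP]

theorem finSt (hB : BasSt) (hS : SegSt) : FinSt := by
  intro H _ _ _ n τ t ht hne hE ε hε
  have hinj : Injective (rc t) := fun i j hij =>
    ht.injective (by simpa [rc] using hij)
  obtain ⟨-, -, -, hB4, -⟩ := hB H n τ (rc t) hinj
  choose c ρ hρ hc using fun k : Fin (n + 1) => finGood_exists ht (k : ℕ)
  have hδ : ∃ δ : ℝ, 0 < δ ∧ δ < 1 ∧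
      ∀ j : Fin (n + 1) × Bool, δ * (1 + ‖finP j.2 - c j.1‖) < ρ j.1 := by
    have h1 : ∀ᶠ δ : ℝ in 𝓝 0,
        ∀ j : Fin (n + 1) × Bool, δ * (1 + ‖finP j.2 - c j.1‖) < ρ j.1 := by
      rw [eventually_all]
      intro j
      have h2 : Tendsto (fun δ : ℝ => δ * (1 + ‖finP j.2 - c j.1‖)) (𝓝 0) (𝓝 0) := by
        have := (continuous_mul_const (1 + ‖finP j.2 - (c j.1 : ℂ)‖)).tendsto (0 : ℝ)
        simpa using this
      exact h2.eventually (gt_mem_nhds (hρ j.1))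
    have h3 : ∀ᶠ δ : ℝ in 𝓝[>] 0, 0 < δ ∧ δ < 1 ∧
        ∀ j : Fin (n + 1) × Bool, δ * (1 + ‖finP j.2 - c j.1‖) < ρ j.1 := by
      filter_upwards [self_mem_nhdsWithin, nhdsWithin_le_nhds (gt_mem_nhds one_pos),
        nhdsWithin_le_nhds h1] with δ a b d
      exact ⟨a, b, d⟩
    exact h3.exists
  obtain ⟨δ, hδ0, hδ1, hδ⟩ := hδ
  set v : ℝ := (volume (Metric.ball (0 : ℂ) δ)).toReal with hv
  have hv0 : 0 < v :=
    ENNReal.toReal_pos (Metric.measure_ball_pos _ _ hδ0).ne' measure_ball_lt_top.ne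
  set S : ℝ := ∑ j : Fin (n + 1) × Bool, ‖finP j.2 - c j.1‖ ^ 2 with hSdef
  have hS0 : 0 ≤ S := Finset.sum_nonneg fun _ _ => by positivity
  have he : 0 < (ε / 4) ^ 2 := by positivity
  have hη : 0 < (ε / 4) ^ 2 * v / (S + 1) := by positivity
  obtain ⟨U, hU, hen⟩ : ∃ U, IsSec τ (rc t) U ∧ en τ (rc t) U < (ε / 4) ^ 2 * v / (S + 1) := by
    obtain ⟨U0, hU0⟩ := hne
    have h1 : sInf (en τ (rc t) '' {U | IsSec τ (rc t) U}) < (ε / 4) ^ 2 * v / (S + 1) := by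
      have : sInf (en τ (rc t) '' {U | IsSec τ (rc t) U}) = 0 := hE
      rw [this]
      exact hη
    have h3 : (en τ (rc t) '' {U | IsSec τ (rc t) U}).Nonempty := ⟨_, U0, hU0, rfl⟩
    obtain ⟨_, ⟨U, hU, rfl⟩, h2⟩ := exists_lt_of_csInf_lt h3 h1
    exact ⟨U, hU, h2⟩
  obtain ⟨-, -, hint, hle⟩ := hB4 U hU
  have hloc : ∀ j : Fin (n + 1) × Bool, ∀ z ∈ segment ℝ (c j.1 : ℂ) (finP j.2),
      ∀ ζ ∈ Metric.ball (0 : ℂ) δ, ContDiffAt ℝ 1 (finW τ U j.1) (z + ζ) ∧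
        ‖fderiv ℝ (finW τ U j.1) (z + ζ)‖ ^ 2 ≤ ‖DD τ (rc t) U (z + ζ)‖ ^ 2 := by
    intro j z hz ζ hζ
    exact finW_loc τ ht hU (Nat.lt_succ_iff.mp j.1.2) _ fun h =>
      hc j.1 _ ((finTube _ _ (finP_im j.2) δ z hz ζ hζ h).trans (hδ j))
  have hE0 : 0 ≤ ∫ z, ‖DD τ (rc t) U z‖ ^ 2 := integral_nonneg fun _ => by positivity
  obtain ⟨ζ, hζ, hf⟩ := finPick
    (fun (j : Fin (n + 1) × Bool) ζ =>
      ‖finW τ U j.1 (finP j.2 + ζ) - finW τ U j.1 (c j.1 + ζ)‖ ^ 2)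
    δ ((ε / 4) ^ 2) he (fun j => ‖finP j.2 - c j.1‖ ^ 2 * ∫ z, ‖DD τ (rc t) U z‖ ^ 2)
    (fun j => by positivity)
    (fun j ζ hζ => by
      have h1 := (hloc j _ (right_mem_segment _ _ _) ζ hζ).1.continuousAt
      have h2 := (hloc j _ (left_mem_segment _ _ _) ζ hζ).1.continuousAt
      have h3 : ContinuousAt (fun ζ => finW τ U j.1 (finP j.2 + ζ)) ζ :=
        ContinuousAt.comp (f := fun ζ => finP j.2 + ζ) h1 (by fun_prop)
      have h4 : ContinuousAt (fun ζ => finW τ U j.1 (c j.1 + ζ)) ζ :=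
        ContinuousAt.comp (f := fun ζ => (c j.1 : ℂ) + ζ) h2 (by fun_prop)
      exact ((h3.sub h4).norm.pow 2).continuousWithinAt)
    (fun j => hS H (finW τ U j.1) (fun z => ‖DD τ (rc t) U z‖ ^ 2) _ _ δ hδ0 (hloc j)
      (fun _ => by positivity) hint)
    (by
      rw [← Finset.sum_mul, ← hSdef, ← hv]
      have h1 : (∫ z, ‖DD τ (rc t) U z‖ ^ 2) * (S + 1) < (ε / 4) ^ 2 * v :=
        (lt_div_iff₀ (by positivity)).mp (hle.trans_lt hen)
      nlinarith)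
  have hζ' : |ζ.im| < 1 := by
    rw [mem_ball_zero_iff] at hζ
    linarith [abs_im_le_norm ζ]
  obtain ⟨hζ1, hζ2⟩ := abs_lt.mp hζ'
  have key : ∀ k : ℕ, k ≤ n → ‖τ.ga 1 k (U (I + ζ)) - U (-I + ζ)‖ < ε / 2 := by
    intro k hk
    have h1 := hf (⟨k, Nat.lt_succ_iff.mpr hk⟩, true)
    have h2 := hf (⟨k, Nat.lt_succ_iff.mpr hk⟩, false)
    have h1' := lt_of_pow_lt_pow_left₀ 2 (by positivity) h1
    have h2' := lt_of_pow_lt_pow_left₀ 2 (by positivity) h2
    have e1 : finW τ U k (finP true + ζ) = U (I + ζ) := by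
      have : 0 < (I + ζ).im := by simp; linarith
      simp only [finW, finP, if_true, if_pos this]
    have e2 : finW τ U k (finP false + ζ) = (τ.ga 1 k)⁻¹ (U (-I + ζ)) := by
      have h3 : (-I + ζ).im < 0 := by simp; linarith
      have h4 : finP false = -I := by simp [finP]
      simp only [finW, h4, if_neg (not_lt.mpr h3.le), if_pos h3]
    simp only [e1, e2] at h1' h2'
    have h5 : U (-I + ζ) = τ.ga 1 k ((τ.ga 1 k)⁻¹ (U (-I + ζ))) := by
      rw [← finMul, mul_inv_cancel]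
      rfl
    rw [h5, ← dist_eq_norm, AffineIsometryEquiv.dist_map]
    rw [← dist_eq_norm] at h1' h2'
    have := dist_triangle_right (U (I + ζ)) ((τ.ga 1 k)⁻¹ (U (-I + ζ)))
      (finW τ U k (c ⟨k, Nat.lt_succ_iff.mpr hk⟩ + ζ))
    linarith
  refine ⟨U (I + ζ), fun k hk => ?_⟩
  have h1 := key k hk
  have h2 := key 0 (Nat.zero_le _)
  rw [← dist_eq_norm] at h1 h2 ⊢
  have := dist_triangle_right (τ.ga 1 k (U (I + ζ))) (τ.ga 1 0 (U (I + ζ))) (U (-I + ζ))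
  linarith

end Pool.Agent.MA
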