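import Pool.Agent.Lib.MP_c86c76_al.An.St

/-!
The least energy stays bounded when a puncture runs to infinity.
-/

set_option autoImplicit false

namespace Pool.Agent.MA

open Complex MeasureTheory Filter Topology Set Function

theorem inf_lc {n : ℕ} {t : Fin n → ℝ} {ψ : Fin n → ℂ → ℝ} (h : Par t ψ) (ht : Injective t)
    (m : Fin n) : ∀ᶠ z in 𝓝 (t m : ℂ), ∀ i, ψ i z = if i = m then 1 else 0 := by
  have h1 : ∀ᶠ z in 𝓝 (t m : ℂ), ∀ i, i ≠ m → ψ i z = 0 := eventually_all.2 fun i => by
    by_cases e : i = m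
    · exact Eventually.of_forall fun _ h => absurd e h
    · refine ((h.2.1 (t m) i).resolve_left fun a => ?_).mono fun _ h _ => h
      rcases lt_or_gt_of_ne (ht.ne e) with b | b
      · exact lt_irrefl _ ((a m).2 b)
      · exact lt_irrefl _ ((a m).1 b)
  filter_upwards [h1, h.2.2 (t m) ⟨m, le_rfl⟩ ⟨m, le_rfl⟩] with z a b i
  split_ifs with e
  · rw [e, ← b, Finset.sum_eq_single m (fun i _ => a i) (by simp)]
  · exact a i e

theorem inf_kk {n : ℕ} (t : Fin (n + 1) → ℝ) (j : Fin (n + 1)) (R x : ℝ) :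
    kk (update t j R) x = (if R < x then 1 else 0) + kk (t ∘ j.succAbove) x := by
  rw [kk, kk, Finset.card_filter, Finset.card_filter, Fin.sum_univ_succAbove _ j, update_self]
  simp only [update_of_ne (Fin.succAbove_ne j _), comp]

theorem inf_aj {n : ℕ} {t : Fin n → ℝ} (ht : StrictMono t) {m : Fin n} {x : ℝ} (h : Aj t m x) :
    kk t x = m ∨ kk t x = m + 1 := by
  by_cases e : t m < x
  · refine Or.inr ((congrArg Finset.card (Finset.ext fun i => ?_)).trans (Fin.card_Iic m))
    simp only [Finset.mem_filter, Finset.mem_univ, true_and, Finset.mem_Iic]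
    exact ⟨fun a => not_lt.1 fun b => lt_asymm a ((h i).2 (ht b)), fun a =>
      (ht.monotone a).trans_lt e⟩
  · refine Or.inl ((congrArg Finset.card (Finset.ext fun i => ?_)).trans (Fin.card_Iio m))
    simp only [Finset.mem_filter, Finset.mem_univ, true_and, Finset.mem_Iio]
    exact ⟨fun a => not_le.1 fun b => e ((ht.monotone b).trans_lt a), fun a => (h i).1 (ht a)⟩

theorem inf_all {n : ℕ} {t : Fin n → ℝ} {x : ℝ} (h : ∀ m, t m < x) : kk t x = n := by
  simp [kk, h]

theorem inf_no {n : ℕ} {t : Fin n → ℝ} {x : ℝ} (h : ∀ m, ¬ t m < x) : kk t x = 0 := by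
  simp [kk, h]

theorem inf_sc {p : ℂ → Prop} {x R : ℝ} (h : ∀ᶠ z in 𝓝 ((x / R : ℝ) : ℂ), p z) :
    ∀ᶠ z in 𝓝 (x : ℂ), p (z / R) := by
  rw [ofReal_div] at h
  exact ((continuous_id.div_const (R : ℂ)).tendsto _).eventually h

theorem inf_pi {n : ℕ} {j : Fin (n + 1)} (hj : j ≠ 0) : ∃ π : Equiv.Perm (Fin (n + 1)), π 0 = 0 ∧
    π (Fin.last n) = j ∧ ∀ m, π m.castSucc = j.succAbove m := by
  have h : ∀ m : Fin n, ((finSuccEquiv' (Fin.last n)).trans (finSuccEquiv' j).symm) m.castSucc =
      j.succAbove m := fun m => by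
    rw [Equiv.trans_apply, ← Fin.succAbove_last, finSuccEquiv'_succAbove, finSuccEquiv'_symm_some]
  refine ⟨_, ?_, by simp, h⟩
  obtain _ | n := n
  · exact Subsingleton.elim (α := Fin 1) _ _
  · exact (h 0).trans (Fin.succAbove_ne_zero_zero hj)

/-- The test functions. -/
noncomputable def infF {n : ℕ} (ψ : Fin n → ℂ → ℝ) (φ : Fin 2 → ℂ → ℝ) (R : ℝ) :
    Option (Option (Option (Fin n))) → ℂ → ℝ
  | none => fun z => 1 - (φ 0 (z / R) + φ 1 (z / R))
  | some none => fun z => φ 0 (z / R) - ∑ m, ψ m z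
  | some (some none) => fun z => φ 1 (z / R)
  | some (some (some m)) => ψ m

/-- The intervals that the test functions meet. -/
def infK (n : ℕ) : Option (Option (Option (Fin n))) → ℕ × ℕ
  | none => (0, n + 1)
  | some none => (0, n)
  | some (some none) => (n, n + 1)
  | some (some (some m)) => (m, m + 1)

theorem infSt (hP : ParSt) (hD : DirSt) (hT : TesSt) : InfSt := by
  intro H _ _ _ n τ t j hτ ht hj
  obtain ⟨π, p0, p1, p2⟩ := inf_pi hj
  obtain ⟨e1, -, e2, e3⟩ := hτ π p0
  have hs : StrictMono (t ∘ j.succAbove) := ht.comp (Fin.strictMono_succAbove j)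
  set s := t ∘ j.succAbove with hs'
  obtain ⟨ψ, hψ⟩ := hP n s hs.injective
  have i01 : Injective (![0, 1] : Fin 2 → ℝ) := by
    intro a b
    fin_cases a <;> fin_cases b <;> simp
  obtain ⟨φ, hφ⟩ := hP 2 _ i01
  have el : ∀ i, El τ π (infK n i).1 (infK n i).2 := by
    rintro (_ | _ | _ | m)
    exacts [e3, e2, e1 n le_rfl, e1 m m.2.le]
  choose x hx using el
  obtain ⟨δ, hδ, z0⟩ := Metric.eventually_nhds_iff.1 (inf_lc hφ i01 0).eventually_nhds
  have z1 := inf_lc hφ i01 1
  obtain ⟨ρ, hρ⟩ : ∃ ρ : ℝ, ∀ m, |s m| < ρ ∧ ∀ z, ρ ≤ ‖z‖ → ψ m z = 0 :=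
    (eventually_all.2 fun m => by
      obtain ⟨r, -, hr⟩ := (hψ.1 m).2.exists_pos_le_norm
      filter_upwards [eventually_gt_atTop |s m|, eventually_ge_atTop r] with ρ a b
      exact ⟨a, fun z c => hr z (b.trans c)⟩ :
        ∀ᶠ ρ : ℝ in atTop, ∀ m, |s m| < ρ ∧ ∀ z, ρ ≤ ‖z‖ → ψ m z = 0).exists
  have cS : ContDiff ℝ 2 fun z => ∑ m, ψ m z := ContDiff.sum fun m _ => (hψ.1 m).1
  have kS : HasCompactSupport fun z => ∑ m, ψ m z :=
    HasCompactSupport.intro (isCompact_closedBall (0 : ℂ) ρ) fun z h =>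
      Finset.sum_eq_zero fun m _ => (hρ m).2 z (by simpa using h : ρ < ‖z‖).le
  refine ⟨4 * Fintype.card (Option (Option (Option (Fin n)))) * ∑ i,
    (‖x i‖ ^ 2 + ‖τ.ga π (infK n i).1 (x i)‖ ^ 2) * i.elim (dir fun z => φ 0 z + φ 1 z) fun i =>
      i.elim (2 * dir (φ 0) + 2 * dir fun z => ∑ m, ψ m z) fun i =>
        i.elim (dir (φ 1)) fun m => dir (ψ m), ?_⟩
  filter_upwards [eventually_gt_atTop 0, eventually_gt_atTop ρ, eventually_gt_atTop (ρ / δ)]
    with R r0 r1 r2
  rw [div_lt_iff₀ hδ] at r2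
  have cφ : ∀ i, ContDiff ℝ 2 fun z : ℂ => φ i (z / R) := fun i =>
    (hφ.1 i).1.comp (contDiff_id.div_const _)
  have kφ : ∀ i, HasCompactSupport fun z : ℂ => φ i (z / R) := fun i => by
    simpa [div_eq_inv_mul] using (hφ.1 i).2.comp_smul (inv_ne_zero (ofReal_ne_zero.2 r0.ne'))
  have dφ : ∀ f : ℂ → ℝ, dir (fun z => f (z / R)) = dir f := fun f => by
    simpa using hD.1 f 0 R r0
  have near : ∀ y : ℝ, |y| < R * δ → ∀ᶠ z in 𝓝 (y : ℂ), φ 0 (z / R) = 1 ∧ φ 1 (z / R) = 0 :=
    fun y h => (inf_sc (p := fun z => ∀ i, φ i z = if i = 0 then 1 else 0) (z0 (by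
      simpa [abs_of_pos r0, div_lt_iff₀' r0] using h))).mono fun z h => ⟨h 0, h 1⟩
  have far : ∀ y : ℝ, ρ < |y| → ∀ᶠ z in 𝓝 (y : ℂ), ∀ m, ψ m z = 0 := fun y h =>
    ((continuous_norm.tendsto (y : ℂ)).eventually (lt_mem_nhds (by simpa using h))).mono
      fun z h m => (hρ m).2 z h.le
  have sR : ∀ m, s m < R := fun m => (le_abs_self _).trans_lt ((hρ m).1.trans r1)
  have tm : ∀ m, update t j R (j.succAbove m) = s m := fun m =>
    update_of_ne (Fin.succAbove_ne j m) _ _
  refine And.imp_right (fun h2 => le_trans h2 ?_) (hT H (n + 1) τ π (update t j R) _ (infF ψ φ R) x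
    (fun i => τ.ga π (infK n i).1 (x i)) ?_ ?_ ?_ ?_ ?_ ?_)
  · gcongr with i
    rcases i with _ | _ | _ | m
    · exact ((hD.2.1 _ 1).trans (dφ fun z => φ 0 z + φ 1 z)).le
    · exact dφ (φ 0) ▸ (hD.2.2 _ _ ((cφ 0).of_le (by norm_num)) (kφ 0) (cS.of_le (by norm_num)) kS).1
    · exact (dφ _).le
    · exact le_rfl
  · intro a b h
    obtain ⟨a, rfl⟩ := Fin.exists_castSucc_eq.2 (Fin.ne_last_of_lt h)
    rcases b.eq_castSucc_or_eq_last with ⟨b, rfl⟩ | rfl
    · rw [comp, comp, p2, p2, tm, tm]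
      exact hs (Fin.castSucc_lt_castSucc_iff.1 h)
    · rw [comp, comp, p2, p1, tm, update_self]
      exact sR a
  · rintro (_ | _ | _ | m)
    exacts [contDiff_const.sub ((cφ 0).add (cφ 1)), (cφ 0).sub cS, cφ 1, (hψ.1 m).1]
  · intro z
    simp only [Fintype.sum_option, infF]
    ring
  · intro i m
    have : ∃ (u : Fin n → ℝ) (v w : ℝ), ∀ᶠ z in 𝓝 ((update t j R m : ℝ) : ℂ),
        (∀ k, ψ k z = u k) ∧ φ 0 (z / R) = v ∧ φ 1 (z / R) = w := by
      rcases j.eq_self_or_eq_succAbove m with rfl | ⟨m, rfl⟩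
      · rw [update_self]
        refine ⟨0, 0, 1, (far R (r1.trans_le (le_abs_self R))).and ((inf_sc
          (p := fun z => ∀ i, φ i z = if i = 1 then 1 else 0) ?_).mono fun z h => ⟨h 0, h 1⟩)⟩
        rwa [div_self r0.ne']
      · rw [tm]
        exact ⟨_, 1, 0, (inf_lc hψ hs.injective m).and (near _ ((hρ m).1.trans r2))⟩
    obtain ⟨u, v, w, h⟩ := this
    have h0 := h.self_of_nhds
    filter_upwards [h] with z h
    rcases i with _ | _ | _ | k <;> simp only [infF, h.1, h.2.1, h.2.2, h0.1, h0.2.1, h0.2.2]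
  · rintro (_ | _ | _ | m)
    · exact ⟨1, by simp only [infF, sub_sub_cancel_left]; exact ((kφ 0).add (kφ 1)).neg⟩
    · exact ⟨0, by simp only [infF, sub_zero]; exact (kφ 0).sub kS⟩
    · exact ⟨0, by simpa [infF] using kφ 1⟩
    · exact ⟨0, by simpa [infF] using (hψ.1 m).2⟩
  · intro y hy i
    have key : kk (update t j R) y = (infK n i).1 ∨ kk (update t j R) y = (infK n i).2 ∨
        ∀ᶠ z in 𝓝 (y : ℂ), infF ψ φ R i z = 0 := by
      rw [inf_kk, ← hs']
      have big : ρ ≤ y → kk s y = n := fun h =>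
        inf_all fun m => (le_abs_self _).trans_lt ((hρ m).1.trans_le h)
      have neg : y ≤ -ρ → kk s y = 0 := fun h =>
        inf_no fun m => not_lt.2 (h.trans (abs_lt.1 (hρ m).1).1.le)
      rcases lt_or_gt_of_ne (update_self j R t ▸ hy j : R ≠ y) with h | h
      · have f := far y ((r1.trans h).trans_le (le_abs_self y))
        rw [if_pos h, big (r1.trans h).le, add_comm]
        rcases i with _ | _ | _ | m
        · exact Or.inr (Or.inl rfl)
        · refine Or.inr (Or.inr ?_)
          filter_upwards [f, inf_sc ((hφ.2.1 (y / R) 0).resolve_left fun a =>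
            lt_asymm ((one_lt_div r0).2 h) ((a 1).2 zero_lt_one))] with z a b
          simp only [infF, a, b, Finset.sum_const_zero, sub_self]
        · exact Or.inr (Or.inl rfl)
        · exact Or.inr (Or.inr (f.mono fun z a => a m))
      · rw [if_neg h.not_gt, zero_add]
        rcases i with _ | _ | _ | m
        · by_cases a : y ≤ -ρ
          · exact Or.inl (neg a)
          · refine Or.inr (Or.inr ?_)
            by_cases b : 0 ≤ y
            · filter_upwards [inf_sc (hφ.2.2 (y / R) ⟨0, div_nonneg b r0.le⟩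
                ⟨1, (div_le_one r0).2 h.le⟩)] with z c
              rw [Fin.sum_univ_two] at c
              simp only [infF, c, sub_self]
            · filter_upwards [near y (abs_lt.2 ⟨by linarith, by nlinarith⟩)] with z c
              simp only [infF, c.1, c.2, add_zero, sub_self]
        · by_cases a : ∀ m, s m < y
          · exact Or.inr (Or.inl (inf_all a))
          · by_cases b : ∀ m, ¬ s m < y
            · exact Or.inl (inf_no b)
            · push Not at a b
              obtain ⟨m, a⟩ := a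
              obtain ⟨m', b⟩ := b
              refine Or.inr (Or.inr ?_)
              filter_upwards [hψ.2.2 y ⟨m', b.le⟩ ⟨m, a⟩, near y (abs_lt.2
                ⟨by linarith [(abs_lt.1 (hρ m').1).1], by linarith [(abs_lt.1 (hρ m).1).2]⟩)]
                with z c d
              simp only [infF, c, d.1, sub_self]
        · by_cases a : ρ ≤ y
          · exact Or.inl (big a)
          · refine Or.inr (Or.inr ?_)
            by_cases b : y ≤ 0
            · exact inf_sc ((hφ.2.1 (y / R) 1).resolve_left fun a =>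
                (div_nonpos_of_nonpos_of_nonneg b r0.le).not_gt ((a 0).1 zero_lt_one))
            · exact (near y (abs_lt.2 ⟨by nlinarith, by linarith⟩)).mono fun z c => c.2
        · rcases hψ.2.1 y m with a | a
          · exact (inf_aj hs a).imp_right Or.inl
          · exact Or.inr (Or.inr a)
    rcases key with e | e | e
    · exact Or.inl (by rw [e])
    · exact Or.inl (by rw [e, hx])
    · exact Or.inr e

end Pool.Agent.MA
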