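import Pool.Agent.Lib.MP_c86c76_al.An.St

/-!
The Hilbert space lemma.
-/

set_option autoImplicit false

namespace Pool.Agent.MA

open Complex Filter Topology Set Function
open scoped InnerProductSpace

section

variable {X Y : Type} [NormedAddCommGroup X] [InnerProductSpace ℂ X]
  [NormedAddCommGroup Y] [InnerProductSpace ℂ Y]

/-- Orthogonal projection on a closed subspace of a product. -/
theorem krein_proj [CompleteSpace X] [CompleteSpace Y] (B : Submodule ℂ (X × Y))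
    (hB : IsClosed (B : Set (X × Y))) :
    ∃ P : (X × Y) →L[ℂ] (X × Y), ∀ v, P v ∈ B ∧
      ∀ b ∈ B, ⟪(v - P v).1, b.1⟫_ℂ + ⟪(v - P v).2, b.2⟫_ℂ = 0 := by
  let e := WithLp.prodContinuousLinearEquiv 2 ℂ X Y
  let B' : Submodule ℂ (WithLp 2 (X × Y)) :=
    B.comap (e : WithLp 2 (X × Y) →L[ℂ] (X × Y)).toLinearMap
  have hc : IsClosed (B' : Set (WithLp 2 (X × Y))) := hB.preimage e.continuous
  haveI : CompleteSpace B' := hc.completeSpace_coe
  refine ⟨(e : WithLp 2 (X × Y) →L[ℂ] (X × Y)).comp (B'.starProjection.comp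
    (e.symm : (X × Y) →L[ℂ] WithLp 2 (X × Y))), fun v => ⟨?_, fun b hb => ?_⟩⟩
  · exact B'.starProjection_apply_mem (e.symm v)
  · have hb' : e.symm b ∈ B' := by
      change e (e.symm b) ∈ B
      rw [e.apply_symm_apply]
      exact hb
    have h := B'.starProjection_inner_eq_zero (e.symm v) (e.symm b) hb'
    rw [WithLp.prod_inner_apply] at h
    exact h

theorem krein_add_left (e e' w : X × Y) : QQ (e + e') w = QQ e w + QQ e' w := by
  simp only [QQ, Prod.fst_add, Prod.snd_add, inner_add_left]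
  ring

theorem krein_sub_left (e e' w : X × Y) : QQ (e - e') w = QQ e w - QQ e' w := by
  simp only [QQ, Prod.fst_sub, Prod.snd_sub, inner_sub_left]
  ring

theorem krein_cont_left (w : X × Y) : Continuous fun e : X × Y => QQ e w := by
  unfold QQ
  fun_prop

theorem krein_cont_right (e : X × Y) : Continuous fun w : X × Y => QQ e w := by
  unfold QQ
  fun_prop

theorem krein_pyth {E : Type} [NormedAddCommGroup E] [InnerProductSpace ℂ E] (x y : E)
    (h : ⟪x, y⟫_ℂ = 0) : ‖x + y‖ ^ 2 = ‖x‖ ^ 2 + ‖y‖ ^ 2 := by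
  rw [@norm_add_sq ℂ, h]
  simp

theorem krein_norm (b : X × Y) (h : QQ b b = 0) : ‖b.1‖ ^ 2 = ‖b.2‖ ^ 2 := by
  have h1 : ⟪b.1, b.1⟫_ℂ = ⟪b.2, b.2⟫_ℂ := sub_eq_zero.mp h
  rw [@norm_sq_eq_re_inner ℂ, @norm_sq_eq_re_inner ℂ, h1]

/-- The structure of an isotropic affine set. -/
theorem krein_str [CompleteSpace X] [CompleteSpace Y] (D : Set (X × Y)) (hne : D.Nonempty)
    (haff : ∀ e ∈ D, ∀ e' ∈ D, ∀ e'' ∈ D, ∀ c : ℂ, e + c • (e' - e'') ∈ D)
    (hiso : ∀ e ∈ D, ∀ e' ∈ D, ∀ e'' ∈ D, QQ e (e' - e'') = 0) :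
    ∃ (B : Set (X × Y)) (p : X × Y) (K : Y →L[ℂ] X), p ∈ closure D ∧ (∀ e ∈ D, e - p ∈ B) ∧
      (∀ b ∈ B, ∀ b' ∈ B, QQ b b' = 0) ∧ (∀ b ∈ B, ⟪p.1, b.1⟫_ℂ = 0 ∧ ⟪p.2, b.2⟫_ℂ = 0) ∧
      ∀ g, ∃ g', (K g, g') ∈ B ∧ ∀ b ∈ B, ⟪g - g', b.2⟫_ℂ = 0 := by
  obtain ⟨e0, he0⟩ := hne
  let B0 : Submodule ℂ (X × Y) :=
    { carrier := {b | e0 + b ∈ D}
      add_mem' := fun {b b'} hb hb' => by
        have h := haff _ hb _ hb' _ he0 1
        have h2 : e0 + b + (1 : ℂ) • (e0 + b' - e0) = e0 + (b + b') := by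
          rw [one_smul]; abel
        rw [h2] at h
        exact h
      zero_mem' := by
        change e0 + 0 ∈ D
        rw [add_zero]
        exact he0
      smul_mem' := fun c b hb => by
        have h := haff _ he0 _ hb _ he0 c
        rw [add_sub_cancel_left] at h
        exact h }
  have hm : ∀ b, b ∈ B0 ↔ e0 + b ∈ D := fun b => Iff.rfl
  have h0 : ∀ e ∈ D, ∀ b ∈ B0, QQ e b = 0 := fun e he b hb => by
    have h := hiso e he _ ((hm b).1 hb) _ he0
    rwa [add_sub_cancel_left] at h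
  have h1 : ∀ e ∈ D, ∀ b ∈ B0.topologicalClosure, QQ e b = 0 := fun e he b hb =>
    closure_minimal (t := {w | QQ e w = 0}) (fun w hw => h0 e he w hw)
      (isClosed_eq (krein_cont_right e) continuous_const) hb
  have h2 : ∀ b' ∈ B0.topologicalClosure, ∀ b ∈ B0, QQ b b' = 0 := fun b' hb' b hb => by
    have h := h1 _ ((hm b).1 hb) b' hb'
    rw [krein_add_left, h1 e0 he0 b' hb', zero_add] at h
    exact h
  have h3 : ∀ b ∈ B0.topologicalClosure, ∀ b' ∈ B0.topologicalClosure, QQ b b' = 0 :=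
    fun b hb b' hb' => closure_minimal (t := {w | QQ w b' = 0}) (fun w hw => h2 b' hb' w hw)
      (isClosed_eq (krein_cont_left b') continuous_const) hb
  obtain ⟨P, hP⟩ := krein_proj B0.topologicalClosure B0.isClosed_topologicalClosure
  refine ⟨B0.topologicalClosure, e0 - P e0,
    (2 : ℂ) • (ContinuousLinearMap.fst ℂ X Y).comp (P.comp (ContinuousLinearMap.inr ℂ X Y)),
    ?_, ?_, h3, ?_, ?_⟩
  · have hn : -P e0 ∈ closure (B0 : Set (X × Y)) := B0.topologicalClosure.neg_mem (hP e0).1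
    have hc : Continuous fun b : X × Y => e0 + b := by fun_prop
    have h := map_mem_closure hc hn (t := D) (fun b hb => (hm b).1 hb)
    rwa [← sub_eq_add_neg] at h
  · intro e he
    have h4 : e - e0 ∈ B0 := by
      rw [hm, add_sub_cancel]
      exact he
    have h5 : e - (e0 - P e0) = (e - e0) + P e0 := by abel
    rw [h5]
    exact B0.topologicalClosure.add_mem (B0.le_topologicalClosure h4) (hP e0).1
  · intro b hb
    have h4 := (hP e0).2 b hb
    have h5 : QQ (e0 - P e0) b = 0 := by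
      rw [krein_sub_left, h1 e0 he0 b hb, h3 _ (hP e0).1 b hb, sub_zero]
    unfold QQ at h5
    constructor
    · linear_combination (h4 + h5) / 2
    · linear_combination (h4 - h5) / 2
  · intro g
    refine ⟨(2 : ℂ) • (P (0, g)).2, B0.topologicalClosure.smul_mem (2 : ℂ) (hP (0, g)).1, ?_⟩
    intro b hb
    have h4 := (hP (0, g)).2 b hb
    have h5 := h3 _ (hP (0, g)).1 b hb
    unfold QQ at h5
    simp only [Prod.fst_sub, Prod.snd_sub, inner_sub_left, inner_zero_left] at h4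
    rw [inner_sub_left, inner_smul_left, map_ofNat]
    linear_combination h4 + h5

end

theorem kreinSt : KreinSt := by
  intro X Y _ _ _ _ _ _ D a b hne haff hiso
  obtain ⟨B, p, K, hp, hD, hB, ho, hK⟩ := krein_str D hne haff hiso
  have hdec : ∀ e ∈ D, ‖e.1‖ ^ 2 = ‖p.1‖ ^ 2 + ‖(e - p).1‖ ^ 2 ∧
      ‖e.2‖ ^ 2 = ‖p.2‖ ^ 2 + ‖(e - p).2‖ ^ 2 := fun e he => by
    have h := ho _ (hD e he)
    constructor
    · rw [← krein_pyth _ _ h.1]
      simp
    · rw [← krein_pyth _ _ h.2]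
      simp
  have hinf : sInf ((fun e : X × Y => ‖e.1‖ ^ 2 + ‖e.2‖ ^ 2) '' D) = ‖p.1‖ ^ 2 + ‖p.2‖ ^ 2 := by
    have hlb : ∀ x ∈ (fun e : X × Y => ‖e.1‖ ^ 2 + ‖e.2‖ ^ 2) '' D, ‖p.1‖ ^ 2 + ‖p.2‖ ^ 2 ≤ x := by
      rintro _ ⟨e, he, rfl⟩
      have h := hdec e he
      have h1 := sq_nonneg ‖(e - p).1‖
      have h2 := sq_nonneg ‖(e - p).2‖
      change _ ≤ ‖e.1‖ ^ 2 + ‖e.2‖ ^ 2
      linarith [h.1, h.2]
    refine le_antisymm ?_ (le_csInf (hne.image _) hlb)
    have hc : Continuous fun e : X × Y => ‖e.1‖ ^ 2 + ‖e.2‖ ^ 2 := by fun_prop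
    exact closure_minimal (t := {e : X × Y | sInf ((fun e : X × Y => ‖e.1‖ ^ 2 + ‖e.2‖ ^ 2) '' D) ≤
      ‖e.1‖ ^ 2 + ‖e.2‖ ^ 2}) (fun e he => csInf_le ⟨_, hlb⟩ ⟨e, he, rfl⟩)
      (isClosed_le continuous_const hc) hp
  set T : X →L[ℂ] X := K.comp a - b with hT
  have hu : ∀ s ∈ Metric.ball (0 : ℂ) (1 / (‖T‖ + 1)), IsUnit (1 - s • T) := fun s hs => by
    apply isUnit_one_sub_of_norm_lt_one
    rw [mem_ball_zero_iff, lt_div_iff₀ (by positivity)] at hs
    rw [norm_smul]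
    nlinarith [norm_nonneg s, norm_nonneg T]
  let f : ℂ → X := fun s => Ring.inverse (1 - s • T) p.1
  have hf : ∀ s ∈ Metric.ball (0 : ℂ) (1 / (‖T‖ + 1)), DifferentiableAt ℂ f s := fun s hs => by
    have h1 : DifferentiableAt ℂ (fun s : ℂ => (1 - s • T : X →L[ℂ] X)) s := by fun_prop
    exact (h1.inverse (hu s hs)).clm_apply (differentiableAt_const _)
  have he : ∀ s ∈ Metric.ball (0 : ℂ) (1 / (‖T‖ + 1)),
      f s + s • b (f s) = p.1 + K (s • a (f s)) := fun s hs => by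
    have h1 : (1 - s • T) (f s) = p.1 := by
      change ((1 - s • T) * Ring.inverse (1 - s • T)) p.1 = p.1
      rw [Ring.mul_inverse_cancel _ (hu s hs)]
      rfl
    rw [← h1, map_smul]
    simp only [hT, ContinuousLinearMap.sub_apply, ContinuousLinearMap.one_apply,
      ContinuousLinearMap.smul_apply, ContinuousLinearMap.comp_apply, smul_sub]
    abel
  refine ⟨1 / (‖T‖ + 1), by positivity, f, fun s =>
    4 * (innerSL ℂ p.1 (f s + s • b (f s)) - innerSL ℂ p.2 (s • a (f s))) -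
      ((3 * ‖p.1‖ ^ 2 - ‖p.2‖ ^ 2 : ℝ) : ℂ), ?_, ?_, ?_⟩
  · intro s hs
    have h1 := hf s hs
    apply DifferentiableAt.differentiableWithinAt
    fun_prop
  · have h0 : f 0 = p.1 := by simp [f]
    rw [hinf]
    simp only [h0, zero_smul, add_zero, map_zero, sub_zero, innerSL_apply_apply, Complex.sub_re,
      Complex.ofReal_re]
    have h1 : ⟪p.1, p.1⟫_ℂ = ((‖p.1‖ ^ 2 : ℝ) : ℂ) := by
      rw [inner_self_eq_norm_sq_to_K]
      simp
    rw [h1]
    have h2 : ((4 : ℂ) * ((‖p.1‖ ^ 2 : ℝ) : ℂ)).re = 4 * ‖p.1‖ ^ 2 := by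
      rw [← Complex.ofReal_ofNat, ← Complex.ofReal_mul, Complex.ofReal_re]
    rw [h2]
    ring
  · intro s hs e heD
    obtain ⟨g', hg, hg'⟩ := hK (s • a (f s))
    have h1 := he s hs
    beta_reduce
    generalize f s + s • b (f s) = w at h1 ⊢
    generalize s • a (f s) = g at h1 hg hg' ⊢
    have hb := hD e heD
    have hq : QQ (e - p) (w, g) = 0 := by
      have h2 := hB _ hb _ hg
      have h3 := inner_eq_zero_symm.mp (ho _ hb).1
      have h4 := inner_eq_zero_symm.mp (hg' _ hb)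
      unfold QQ at h2 ⊢
      rw [inner_sub_right] at h4
      simp only [h1, inner_add_right] at h2 ⊢
      linear_combination h2 + h3 - h4
    have hq2 : QQ e (w, g) = innerSL ℂ p.1 w - innerSL ℂ p.2 g := by
      rw [krein_sub_left, sub_eq_zero] at hq
      rw [hq]
      rfl
    have hw : ‖w‖ ^ 2 = ‖p.1‖ ^ 2 + ‖K g‖ ^ 2 := by
      rw [h1]
      exact krein_pyth _ _ (ho _ hg).1
    have hg2 : ‖g‖ ^ 2 = ‖g - g'‖ ^ 2 + ‖g'‖ ^ 2 := by
      rw [← krein_pyth _ _ (hg' _ hg), sub_add_cancel]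
    have hn : ‖K g‖ ^ 2 = ‖g'‖ ^ 2 := krein_norm _ (hB _ hg _ hg)
    have hn2 := krein_norm _ (hB _ hb _ hb)
    have hd := hdec e heD
    rw [← hq2]
    have h5 : ((4 : ℂ) * QQ e (w, g)).re = 4 * (QQ e (w, g)).re := by
      rw [← Complex.ofReal_ofNat, Complex.re_ofReal_mul]
    simp only [Complex.sub_re, Complex.ofReal_re, h5]
    have h6 := sq_nonneg ‖g - g'‖
    linarith [hd.1, hd.2]

end Pool.Agent.MA
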