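import Pool.Agent.Lib.MP_c86c76_al.An.St

/-!
Liouville's theorem for bounded functions with harmonic supports.
-/

set_option autoImplicit false

namespace Pool.Agent.MA

open Complex MeasureTheory Filter Topology Set Function

/-- A rational function with zeros at `A` and at infinity, and a pole at `s1`. -/
noncomputable def lioP (A : Finset ℂ) (s1 s : ℂ) : ℂ :=
  (∏ a ∈ A, (1 + (s1 - a) * (s - s1)⁻¹)) * (s - s1)⁻¹

theorem lio_diff (A : Finset ℂ) {s1 s : ℂ} (h : s ≠ s1) : DifferentiableAt ℂ (lioP A s1) s := by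
  have h1 : DifferentiableAt ℂ (fun s : ℂ => (s - s1)⁻¹) s :=
    (differentiableAt_id.sub_const s1).inv (sub_ne_zero.2 h)
  exact (DifferentiableAt.fun_finsetProd fun a _ => (h1.const_mul _).const_add 1).mul h1

theorem lio_zero (A : Finset ℂ) {s1 s : ℂ} (h : s ≠ s1) : lioP A s1 s = 0 ↔ s ∈ A := by
  have h0 := sub_ne_zero.2 h
  have e : ∀ a, 1 + (s1 - a) * (s - s1)⁻¹ = (s - a) * (s - s1)⁻¹ := fun a => by
    field_simp
    ring
  simp [lioP, e, h0, Finset.prod_eq_zero_iff, sub_eq_zero]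

theorem lio_lim (A : Finset ℂ) (s1 : ℂ) : Tendsto (lioP A s1) (cocompact ℂ) (𝓝 0) := by
  have h1 : Tendsto (fun s : ℂ => (s - s1)⁻¹) (cocompact ℂ) (𝓝 0) := by
    rw [← Metric.cobounded_eq_cocompact]
    exact tendsto_inv₀_cobounded.comp (tendsto_sub_const_cobounded s1)
  have h2 : Continuous fun w : ℂ => (∏ a ∈ A, (1 + (s1 - a) * w)) * w := by fun_prop
  exact (h2.tendsto' 0 0 (mul_zero _)).comp h1

theorem lio_max {A : Finset ℂ} {E : ℂ → ℝ} {M : ℝ} (hc : ContinuousOn E (A : Set ℂ)ᶜ)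
    (hM : ∀ s, s ∉ A → |E s| ≤ M)
    (hs : ∀ s0, s0 ∉ A → ∃ h : ℂ → ℂ, (∀ᶠ s in 𝓝 s0, DifferentiableAt ℂ h s) ∧
      (h s0).re = E s0 ∧ ∀ᶠ s in 𝓝 s0, (h s).re ≤ E s)
    {s1 s2 : ℂ} (h2 : s2 ∉ A) {δ N : ℝ} (hδ : 0 < δ) (hd : δ ≤ ‖s2 - s1‖) (hN : 0 ≤ N) :
    ∃ z, ‖z - s1‖ = δ ∧
      Real.exp (N * E s2) * ‖lioP A s1 s2‖ ≤ Real.exp (N * E z) * ‖lioP A s1 z‖ := by
  set G : ℂ → ℝ := fun s => Real.exp (N * E s) * ‖lioP A s1 s‖ with hG
  set D : Set ℂ := {s | δ ≤ ‖s - s1‖}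
  have hne : ∀ s ∈ D, s ≠ s1 := by
    rintro s h rfl
    exact hδ.not_ge (by simpa [D] using h)
  have g0 : ∀ s, 0 ≤ G s := fun s => by positivity
  have g1 : ∀ s, s ≠ s1 → G s ≤ Real.exp (N * M) * ‖lioP A s1 s‖ := fun s h => by
    by_cases e : s ∈ A
    · simp [hG, (lio_zero A h).2 e]
    · have := (abs_le.1 (hM s e)).2
      simp only [hG]
      gcongr
  have hop : IsOpen (A : Set ℂ)ᶜ := A.finite_toSet.isClosed.isOpen_compl
  have gc : ∀ s, s ≠ s1 → ContinuousAt G s := fun s h => by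
    have p := (lio_diff A h).continuousAt.norm
    by_cases e : s ∈ A
    · have e0 : G s = 0 := by simp [hG, (lio_zero A h).2 e]
      rw [ContinuousAt, e0]
      refine squeeze_zero' (Eventually.of_forall g0) ((eventually_ne_nhds h).mono g1) ?_
      simpa [(lio_zero A h).2 e] using p.tendsto.const_mul (Real.exp (N * M))
    · exact (((hc.continuousAt (hop.mem_nhds e)).const_mul N).rexp).mul p
  have hD : IsClosed D := isClosed_le continuous_const (by fun_prop)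
  have gD : ContinuousOn G D := fun s h => (gc s (hne s h)).continuousWithinAt
  have p2 : 0 < G s2 :=
    mul_pos (Real.exp_pos _) (norm_pos_iff.2 (mt (lio_zero A (hne s2 hd)).1 h2))
  have hl : Tendsto (fun s => Real.exp (N * M) * ‖lioP A s1 s‖) (cocompact ℂ) (𝓝 0) := by
    simpa using (lio_lim A s1).norm.const_mul (Real.exp (N * M))
  obtain ⟨z0, hz0, hm⟩ := gD.exists_isMaxOn' hD (x₀ := s2) hd (eventually_inf_principal.2
    ((hl.eventually (gt_mem_nhds p2)).mono fun s h m => (g1 s (hne s m)).trans h.le))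
  by_contra hcon
  have hcl : IsClosed (D ∩ G ⁻¹' {G z0}) := gD.preimage_isClosed_of_isClosed hD isClosed_singleton
  have hopn : IsOpen (D ∩ G ⁻¹' {G z0}) := by
    refine isOpen_iff_mem_nhds.2 fun z ⟨hz, (e : G z = G z0)⟩ => ?_
    have hz1 := hne z hz
    have hle : G s2 ≤ G z := e ▸ hm hd
    have hlt : δ < ‖z - s1‖ := lt_of_le_of_ne hz fun h => hcon ⟨z, h.symm, hle⟩
    have hA : z ∉ A := fun h => (p2.trans_le hle).ne' (by simp [hG, (lio_zero A hz1).2 h])
    obtain ⟨h, h1, h3, h4⟩ := hs z hA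
    have nD : ∀ᶠ s in 𝓝 z, s ∈ D :=
      (((continuous_id.sub continuous_const).norm.tendsto z).eventually (lt_mem_nhds hlt)).mono
        fun s h => le_of_lt h
    have nf : ∀ s, ‖exp (N * h s) * lioP A s1 s‖ = Real.exp (N * (h s).re) * ‖lioP A s1 s‖ :=
      fun s => by simp [norm_exp]
    have le : ∀ᶠ s in 𝓝 z, ‖exp (N * h s) * lioP A s1 s‖ ≤ G s := h4.mono fun s h => by
      rw [nf]
      simp only [hG]
      gcongr
    have ez : ‖exp (N * h z) * lioP A s1 z‖ = G z0 := by rw [nf, h3, ← e]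
    have := norm_eventually_eq_of_isLocalMax (f := fun s => exp (N * h s) * lioP A s1 s) (c := z)
      ((h1.and nD).mono fun s h => (h.1.const_mul _).cexp.mul (lio_diff A (hne s h.2)))
      ((le.and nD).mono fun s h => (h.1.trans (hm h.2)).trans_eq ez.symm)
    filter_upwards [this, le, nD] with s a b c
    exact ⟨c, le_antisymm (hm c) (ez ▸ a ▸ b)⟩
  rcases isClopen_iff.1 ⟨hcl, hopn⟩ with h | h
  · exact (h ▸ (⟨hz0, rfl⟩ : z0 ∈ D ∩ G ⁻¹' {G z0}) : z0 ∈ (∅ : Set ℂ))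
  · exact hne s1 (h ▸ mem_univ s1 : s1 ∈ D ∩ G ⁻¹' {G z0}).1 rfl

theorem lioSt : LioSt := by
  intro A E M hc hM hs
  have key : ∀ s1, s1 ∉ A → ∀ s2, s2 ∉ A → E s2 ≤ E s1 := by
    intro s1 h1 s2 h2
    rcases eq_or_ne s2 s1 with rfl | hne
    · exact le_rfl
    refine le_of_forall_pos_le_add fun η hη => ?_
    have hop : IsOpen (A : Set ℂ)ᶜ := A.finite_toSet.isClosed.isOpen_compl
    obtain ⟨r, hr, hb⟩ := Metric.eventually_nhds_iff.1
      ((hc.continuousAt (hop.mem_nhds h1)).eventually (gt_mem_nhds (lt_add_of_pos_right _ hη)))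
    have hd : 0 < min (r / 2) ‖s2 - s1‖ := lt_min (half_pos hr) (norm_pos_iff.2 (sub_ne_zero.2 hne))
    obtain ⟨C, hC⟩ := (isCompact_sphere s1 (min (r / 2) ‖s2 - s1‖)).exists_bound_of_continuousOn
      (f := lioP A s1) fun z hz => (lio_diff A (Metric.ne_of_mem_sphere hz hd.ne')).continuousAt
        |>.continuousWithinAt
    have p2 : 0 < ‖lioP A s1 s2‖ := norm_pos_iff.2 (mt (lio_zero A hne).1 h2)
    by_contra hcon
    have hp : 0 < E s2 - (E s1 + η) := sub_pos.2 (not_le.1 hcon)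
    have hl : Tendsto (fun N : ℝ => Real.exp (N * (E s2 - (E s1 + η))) * ‖lioP A s1 s2‖)
        atTop atTop :=
      (Real.tendsto_exp_atTop.comp (tendsto_id.atTop_mul_const hp)).atTop_mul_const p2
    obtain ⟨N, hN, h0⟩ := ((hl.eventually_gt_atTop C).and (eventually_ge_atTop 0)).exists
    obtain ⟨z, hz, h⟩ := lio_max hc hM hs (s1 := s1) h2 hd (min_le_right _ _) h0
    have e1 : E z < E s1 + η := hb (by
      rw [dist_eq_norm, hz]
      exact (min_le_left _ _).trans_lt (half_lt_self hr))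
    have e2 := hC z (mem_sphere_iff_norm.2 hz)
    have e3 : Real.exp (N * E z) * ‖lioP A s1 z‖ ≤ Real.exp (N * (E s1 + η)) * C := by gcongr
    rw [mul_sub, Real.exp_sub, div_mul_eq_mul_div, lt_div_iff₀' (Real.exp_pos _)] at hN
    exact hN.not_ge (h.trans e3)
  exact fun s h s' h' => le_antisymm (key s' h' s h) (key s h s' h')

end Pool.Agent.MA
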