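import Pool.Agent.Lib.MP_c86c76_al.An.St

/-!
Logarithmic cut-off functions.
-/

namespace Pool.Agent.MA

open MeasureTheory Filter Topology Set Function

/-- The rescaled logarithm of the absolute value. -/
noncomputable def logG (ρ R : ℝ) (z : ℂ) : ℝ := Real.log (‖z‖ ^ 2 / ρ ^ 2) / (2 * Real.log R)

variable {ρ R : ℝ} {z : ℂ}

lemma logG_nonpos (hρ : 0 < ρ) (hR : 1 < R) (h : ‖z‖ ≤ ρ) : logG ρ R z ≤ 0 :=
  div_nonpos_of_nonpos_of_nonneg (Real.log_nonpos (by positivity)
    (div_le_one_of_le₀ (by gcongr) (by positivity))) (by have := Real.log_pos hR; positivity)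

lemma logG_nonneg (hρ : 0 < ρ) (hR : 1 < R) (h : ρ ≤ ‖z‖) : 0 ≤ logG ρ R z :=
  div_nonneg (Real.log_nonneg ((one_le_div (by positivity)).2 (by gcongr)))
    (by have := Real.log_pos hR; positivity)

lemma logG_sq (hρ : 0 < ρ) : Real.log ((ρ * R) ^ 2 / ρ ^ 2) = 2 * Real.log R := by
  rw [mul_pow, mul_div_cancel_left₀ _ (by positivity), Real.log_pow, Nat.cast_ofNat]

lemma logG_ge (hρ : 0 < ρ) (hR : 1 < R) (h : ρ * R ≤ ‖z‖) : 1 ≤ logG ρ R z := by
  have h1 := Real.log_pos hR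
  rw [logG, one_le_div (by positivity), ← logG_sq hρ]
  gcongr

lemma logG_le (hρ : 0 < ρ) (hR : 1 < R) (h0 : ρ ≤ ‖z‖) (h : ‖z‖ ≤ ρ * R) : logG ρ R z ≤ 1 := by
  have h1 := Real.log_pos hR
  have h2 := hρ.trans_le h0
  rw [logG, div_le_one (by positivity), ← logG_sq hρ]
  gcongr

lemma logG_deriv (hρ : 0 < ρ) (hR : 1 < R) (h : z ≠ 0) :
    ∃ D : ℂ →L[ℝ] ℝ, HasFDerivAt (logG ρ R) D z ∧ ‖D‖ ≤ (‖z‖ * Real.log R)⁻¹ := by
  have h1 := Real.log_pos hR
  have h2 := norm_pos_iff.2 h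
  have h3 := (((hasStrictFDerivAt_norm_sq z).hasFDerivAt.mul_const (ρ ^ 2)⁻¹).log
    (by positivity)).mul_const (2 * Real.log R)⁻¹
  refine ⟨_, h3, ?_⟩
  rw [norm_smul, norm_smul, norm_smul, two_smul]
  have h4 : ‖innerSL ℝ z + innerSL ℝ z‖ ≤ 2 * ‖z‖ :=
    (norm_add_le _ _).trans (by rw [innerSL_apply_norm, two_mul])
  rw [Real.norm_of_nonneg (by positivity), Real.norm_of_nonneg (by positivity),
    Real.norm_of_nonneg (by positivity)]
  refine (mul_le_mul_of_nonneg_left (mul_le_mul_of_nonneg_left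
    (mul_le_mul_of_nonneg_left h4 (by positivity)) (by positivity)) (by positivity)).trans_eq ?_
  field_simp

lemma logInt (hρ : 0 < ρ) (hR : 1 < R) :
    Integrable (fun z : ℂ => (Icc ρ (ρ * R)).indicator (fun y => (y ^ 2)⁻¹) ‖z‖) ∧
    ∫ z : ℂ, (Icc ρ (ρ * R)).indicator (fun y => (y ^ 2)⁻¹) ‖z‖ =
      2 * volume.real (Metric.ball (0 : ℂ) 1) * Real.log R := by
  have h0 : ρ ≤ ρ * R := le_mul_of_one_le_right hρ.le hR.le
  constructor
  · have hK : IsCompact ((fun z : ℂ => ‖z‖) ⁻¹' Icc ρ (ρ * R)) :=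
      (isCompact_closedBall (0 : ℂ) (ρ * R)).of_isClosed_subset
        (isClosed_Icc.preimage continuous_norm) fun z hz => mem_closedBall_zero_iff.2 hz.2
    have h1 : ContinuousOn (fun z : ℂ => (‖z‖ ^ 2)⁻¹) ((fun z : ℂ => ‖z‖) ⁻¹' Icc ρ (ρ * R)) :=
      (continuous_norm.pow 2).continuousOn.inv₀ fun z hz => (pow_pos (hρ.trans_le hz.1) 2).ne'
    exact (h1.integrableOn_compact hK).integrable_indicator hK.measurableSet
  · rw [integral_fun_norm_addHaar volume ((Icc ρ (ρ * R)).indicator fun y => (y ^ 2)⁻¹),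
      Complex.finrank_real_complex]
    have h1 : ∫ y in Ioi (0 : ℝ), y ^ (2 - 1) • (Icc ρ (ρ * R)).indicator (fun y => (y ^ 2)⁻¹) y =
        ∫ y in Ioi (0 : ℝ), (Icc ρ (ρ * R)).indicator (fun y => y⁻¹) y := by
      refine setIntegral_congr_fun measurableSet_Ioi fun y hy => ?_
      have : y ≠ 0 := ne_of_gt hy
      by_cases h : y ∈ Icc ρ (ρ * R)
      · simp only [indicator_of_mem h, smul_eq_mul, Nat.add_one_sub_one]
        field_simp
      · simp only [indicator_of_notMem h, smul_zero]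
    rw [h1, setIntegral_indicator measurableSet_Icc,
      inter_eq_right.2 (show Icc ρ (ρ * R) ⊆ Ioi 0 from fun y hy => hρ.trans_le hy.1),
      integral_Icc_eq_integral_Ioc,
      ← intervalIntegral.integral_of_le h0, integral_inv_of_pos hρ (hρ.trans_le h0),
      mul_div_cancel_left₀ _ hρ.ne']
    simp [mul_assoc]

theorem logSt : LogSt := by
  have hS : ContDiff ℝ 2 Real.smoothTransition := Real.smoothTransition.contDiff
  obtain ⟨M, hM⟩ := isCompact_Icc.exists_bound_of_continuousOn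
    (hS.continuous_deriv (by norm_num)).continuousOn (s := Icc (0 : ℝ) 1)
  refine ⟨M ^ 2 * (2 * volume.real (Metric.ball (0 : ℂ) 1)), fun ρ R hρ hR =>
    ⟨fun z => 1 - Real.smoothTransition (logG ρ R z), ?_⟩⟩
  have h1 := Real.log_pos hR
  have e1 : ∀ z : ℂ, ‖z‖ ≤ ρ → 1 - Real.smoothTransition (logG ρ R z) = 1 := fun z h => by
    rw [Real.smoothTransition.zero_of_nonpos (logG_nonpos hρ hR h), sub_zero]
  have e0 : ∀ z : ℂ, ρ * R ≤ ‖z‖ → 1 - Real.smoothTransition (logG ρ R z) = 0 := fun z h => by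
    rw [Real.smoothTransition.one_of_one_le (logG_ge hρ hR h), sub_self]
  have v1 : ∀ z : ℂ, ‖z‖ < ρ →
      (fun z => 1 - Real.smoothTransition (logG ρ R z)) =ᶠ[𝓝 z] fun _ => 1 := fun z h =>
    (continuous_norm.continuousAt.eventually_lt continuousAt_const h).mono fun w hw => e1 w hw.le
  have v0 : ∀ z : ℂ, ρ * R < ‖z‖ →
      (fun z => 1 - Real.smoothTransition (logG ρ R z)) =ᶠ[𝓝 z] fun _ => 0 := fun z h =>
    (continuousAt_const.eventually_lt continuous_norm.continuousAt h).mono fun w hw => e0 w hw.le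
  refine ⟨contDiff_iff_contDiffAt.2 fun z => ?_, e1, e0, ?_⟩
  · by_cases h : z = 0
    · exact contDiffAt_const.congr_of_eventuallyEq (v1 z (by rwa [h, norm_zero]))
    · have := norm_pos_iff.2 h
      exact contDiffAt_const.sub (hS.contDiffAt.comp z
        ((((contDiff_norm_sq ℝ).contDiffAt.div_const _).log (by positivity)).div_const _))
  obtain ⟨i1, i2⟩ := logInt hρ hR
  refine (integral_mono_of_nonneg (Eventually.of_forall fun z => by positivity)
    (i1.const_mul (M ^ 2 / Real.log R ^ 2)) (Eventually.of_forall fun z => ?_)).trans_eq ?_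
  · dsimp only
    by_cases h : ‖z‖ ∈ Icc ρ (ρ * R)
    · have h2 := hρ.trans_le h.1
      obtain ⟨D, d1, d2⟩ := logG_deriv hρ hR (norm_pos_iff.1 h2)
      have d3 : HasFDerivAt (fun z => 1 - Real.smoothTransition (logG ρ R z)) _ z :=
        (((hS.differentiable (by norm_num)) (logG ρ R z)).hasDerivAt.comp_hasFDerivAt
          z d1).const_sub 1
      have d4 := hM _ ⟨logG_nonneg hρ hR h.1, logG_le hρ hR h.1 h.2⟩
      rw [indicator_of_mem h, d3.fderiv, norm_neg, norm_smul]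
      refine (pow_le_pow_left₀ (by positivity)
        (mul_le_mul d4 d2 (norm_nonneg _) ((norm_nonneg _).trans d4)) 2).trans_eq ?_
      field_simp
    · rw [indicator_of_notMem h, mul_zero]
      rw [mem_Icc, not_and_or, not_le, not_le] at h
      rcases h with h | h
      · rw [(v1 z h).fderiv_eq]; simp
      · rw [(v0 z h).fderiv_eq]; simp
  · rw [integral_const_mul, i2]
    field_simp

end Pool.Agent.MA
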