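import Pool.Agent.Lib.MP_c86c76_al.An.St

/-!
Partitions of unity adapted to a real configuration, and the Dirichlet integral.
-/

set_option autoImplicit false

namespace Pool.Agent.MA

open Complex MeasureTheory Filter Topology Set Function
open scoped Manifold

lemma par_cover {n : ℕ} (t : Fin (n + 1) → ℝ) (x : ℝ) : ∃ i, Aj t i x := by
  classical
  by_cases h : (Finset.univ.filter fun m => t m ≤ x).Nonempty
  · obtain ⟨i, hi, hmax⟩ := Finset.exists_max_image _ t h
    have hix : t i ≤ x := (Finset.mem_filter.1 hi).2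
    refine ⟨i, fun m => ⟨fun hm => hm.trans_le hix, fun hm => ?_⟩⟩
    by_contra hx
    exact absurd (hmax m (Finset.mem_filter.2 ⟨Finset.mem_univ _, not_lt.1 hx⟩)) (not_le.2 hm)
  · obtain ⟨i, -, hmin⟩ := Finset.exists_min_image Finset.univ t Finset.univ_nonempty
    refine ⟨i, fun m => ⟨fun hm => absurd (hmin m (Finset.mem_univ _)) (not_le.2 hm), fun _ => ?_⟩⟩
    by_contra hx
    exact h ⟨m, Finset.mem_filter.2 ⟨Finset.mem_univ _, not_lt.1 hx⟩⟩

lemma par_open {n : ℕ} (t : Fin n → ℝ) (i : Fin n) : IsOpen {z : ℂ | Aj t i z.re} := by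
  have : {z : ℂ | Aj t i z.re} = ⋂ m, ({z : ℂ | t m < t i → t m < z.re} ∩
      {z : ℂ | t i < t m → z.re < t m}) := by
    ext z
    simp only [Aj, mem_ofPred_eq, mem_iInter, mem_inter_iff]
  rw [this]
  refine isOpen_iInter_of_finite fun m => IsOpen.inter ?_ ?_
  · by_cases h : t m < t i
    · simp only [h, forall_const]
      exact isOpen_lt continuous_const continuous_re
    · simp [h]
  · by_cases h : t i < t m
    · simp only [h, forall_const]
      exact isOpen_lt continuous_re continuous_const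
    · simp [h]

theorem parSt : ParSt := by
  intro n t _
  cases n with
  | zero =>
    refine ⟨fun i => i.elim0, fun i => i.elim0, fun _ i => i.elim0, fun _ h => ?_⟩
    obtain ⟨m, -⟩ := h
    exact m.elim0
  | succ n =>
    obtain ⟨f, hf⟩ := SmoothPartitionOfUnity.exists_isSubordinate 𝓘(ℝ, ℂ) isClosed_univ
      (fun i : Fin (n + 1) => {z : ℂ | Aj t i z.re}) (par_open t)
      (fun z _ => mem_iUnion.2 (par_cover t z.re))
    have hR : 0 < ∑ m, |t m| + 1 := by positivity
    let b : ContDiffBump (0 : ℂ) := ⟨∑ m, |t m| + 1, ∑ m, |t m| + 2, hR, by linarith⟩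
    refine ⟨fun i z => b z * f i z, fun i => ⟨?_, ?_⟩, fun x i => ?_, fun x h1 h2 => ?_⟩
    · exact b.contDiff.mul ((f i).contMDiff.contDiff.of_le (by exact_mod_cast le_top))
    · exact b.hasCompactSupport.mul_right
    · by_cases h : Aj t i x
      · exact Or.inl h
      · right
        have hx : (x : ℂ) ∉ tsupport (f i) := fun hx => h (by simpa using hf i hx)
        filter_upwards [notMem_tsupport_iff_eventuallyEq.1 hx] with z hz
        rw [hz]
        simp
    · obtain ⟨m1, hm1⟩ := h1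
      obtain ⟨m2, hm2⟩ := h2
      have a1 : |t m1| ≤ ∑ m, |t m| :=
        Finset.single_le_sum (f := fun m => |t m|) (fun _ _ => abs_nonneg _) (Finset.mem_univ _)
      have a2 : |t m2| ≤ ∑ m, |t m| :=
        Finset.single_le_sum (f := fun m => |t m|) (fun _ _ => abs_nonneg _) (Finset.mem_univ _)
      have hx : (x : ℂ) ∈ Metric.ball (0 : ℂ) (∑ m, |t m| + 1) := by
        rw [mem_ball_zero_iff, norm_real, Real.norm_eq_abs, abs_lt]
        have := neg_abs_le (t m1)
        have := le_abs_self (t m2)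
        constructor <;> linarith
      filter_upwards [Metric.isOpen_ball.mem_nhds hx] with z hz
      rw [← Finset.mul_sum, b.one_of_mem_closedBall (Metric.ball_subset_closedBall hz), one_mul,
        ← finsum_eq_sum_of_fintype]
      exact f.sum_eq_one (mem_univ z)

lemma dir_int {φ : ℂ → ℝ} (h : ContDiff ℝ 1 φ) (hc : HasCompactSupport φ) :
    Integrable fun z => ‖fderiv ℝ φ z‖ ^ 2 := by
  refine ((h.continuous_fderiv one_ne_zero).norm.pow 2).integrable_of_hasCompactSupport ?_
  exact (hc.fderiv ℝ).comp_left (g := fun A : ℂ →L[ℝ] ℝ => ‖A‖ ^ 2) (by simp)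

lemma dir_le {φ ψ χ : ℂ → ℝ} (h1 : ContDiff ℝ 1 φ) (c1 : HasCompactSupport φ)
    (h2 : ContDiff ℝ 1 ψ) (c2 : HasCompactSupport ψ)
    (h : ∀ z, ‖fderiv ℝ χ z‖ ≤ ‖fderiv ℝ φ z‖ + ‖fderiv ℝ ψ z‖) :
    dir χ ≤ 2 * dir φ + 2 * dir ψ := by
  have i1 := dir_int h1 c1
  have i2 := dir_int h2 c2
  unfold dir
  rw [← integral_const_mul, ← integral_const_mul,
    ← integral_add (i1.const_mul 2) (i2.const_mul 2)]
  refine integral_mono_of_nonneg (Eventually.of_forall fun z => by positivity)
    ((i1.const_mul 2).add (i2.const_mul 2)) (Eventually.of_forall fun z => ?_)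
  have a := h z
  have b := norm_nonneg (fderiv ℝ χ z)
  have c := sq_nonneg (‖fderiv ℝ φ z‖ - ‖fderiv ℝ ψ z‖)
  have d : ‖fderiv ℝ χ z‖ ^ 2 ≤ (‖fderiv ℝ φ z‖ + ‖fderiv ℝ ψ z‖) ^ 2 := by gcongr
  simp only
  nlinarith

theorem dirSt : DirSt := by
  refine ⟨fun ψ a r hr => ?_, fun ψ c => ?_, fun φ ψ h1 c1 h2 c2 => ⟨?_, ?_⟩⟩
  · have e : ∀ z : ℂ, (z - a) / r = r⁻¹ • (z - a) := fun z => by
      rw [real_smul, ofReal_inv, div_eq_inv_mul]
    have d : ∀ z : ℂ, fderiv ℝ (fun z => ψ ((z - a) / r)) z =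
        r⁻¹ • fderiv ℝ ψ (r⁻¹ • (z - a)) := fun z => by
      simp only [e]
      rw [fderiv_comp_sub (f := fun w : ℂ => ψ (r⁻¹ • w)) a, fderiv_comp_smul]
    unfold dir
    simp only [d, norm_smul, mul_pow]
    rw [integral_const_mul,
      integral_sub_right_eq_self (fun w : ℂ => ‖fderiv ℝ ψ (r⁻¹ • w)‖ ^ 2) a,
      Measure.integral_comp_inv_smul volume (fun w : ℂ => ‖fderiv ℝ ψ w‖ ^ 2) r,
      finrank_real_complex, Real.norm_eq_abs, sq_abs, abs_of_pos (pow_pos hr 2), smul_eq_mul]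
    field_simp
  · unfold dir
    simp only [fderiv_const_sub, norm_neg]
  · refine dir_le h1 c1 h2 c2 fun z => ?_
    rw [fderiv_fun_sub (h1.differentiable one_ne_zero z) (h2.differentiable one_ne_zero z)]
    exact norm_sub_le _ _
  · refine dir_le h1 c1 h2 c2 fun z => ?_
    rw [fderiv_fun_add (h1.differentiable one_ne_zero z) (h2.differentiable one_ne_zero z)]
    exact norm_add_le _ _

end Pool.Agent.MA
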