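import Pool.Agent.Lib.MP_c86c76_al.An.St

/-!
The pull back of a section under a small deformation of the plane.
-/

set_option autoImplicit false

namespace Pool.Agent.MA

open Complex MeasureTheory Filter Topology Set Function

lemma pb_lin {E : Type} [NormedAddCommGroup E] [NormedSpace ℝ E] (D : ℂ →L[ℝ] E) (v : ℂ) :
    D v = v.re • D 1 + v.im • D I := by
  rw [← map_smul, ← map_smul, ← map_add]
  congr 1
  simp

lemma pb_norm (χ : ℂ → ℝ) (z : ℂ) : ‖fderiv ℝ χ z‖ ≤ 2 * ‖bb χ z‖ := by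
  refine ContinuousLinearMap.opNorm_le_bound _ (by positivity) fun v => ?_
  have h : fderiv ℝ χ z v = 2 * (bb χ z * v).re := by
    rw [pb_lin]; simp [bb]; ring
  rw [h, norm_mul, Real.norm_two, mul_assoc, ← norm_mul]
  exact mul_le_mul_of_nonneg_left (abs_re_le_norm _) zero_le_two

lemma pb_lip {χ : ℂ → ℝ} {s : ℂ} {κ : ℝ} (hχ : Differentiable ℝ χ)
    (h : ∀ z, 2 * ‖s‖ * ‖bb χ z‖ ≤ κ) (z w : ℂ) :
    ‖(z + s * χ z - (w + s * χ w)) - (z - w)‖ ≤ κ * ‖z - w‖ := by
  have h1 := convex_univ.norm_image_sub_le_of_norm_hasFDerivWithin_le (𝕜 := ℝ)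
    (f := fun z => ‖s‖ • χ z) (f' := fun z => ‖s‖ • fderiv ℝ χ z) (C := κ)
    (fun z _ => ((hχ z).hasFDerivAt.const_smul ‖s‖).hasFDerivWithinAt)
    (fun z _ => by
      rw [norm_smul, norm_norm]
      have := mul_le_mul_of_nonneg_left (pb_norm χ z) (norm_nonneg s)
      have := h z
      linarith) (mem_univ w) (mem_univ z)
  have e : (z + s * χ z - (w + s * χ w)) - (z - w) = s * ((χ z - χ w : ℝ) : ℂ) := by
    push_cast; ring
  rwa [← smul_sub, norm_smul, norm_norm, ← norm_real, ← norm_mul, ← e] at h1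

lemma pb_ev {ι : Type} [Finite ι] {p q : ℂ → ι → ℂ} {z0 : ℂ} (hp : ∀ i, Continuous (p · i))
    (hq : ∀ i, Continuous (q · i)) (h : Nr (p z0) (q z0)) : ∀ᶠ z in 𝓝 z0, Nr (p z) (q z) := by
  refine eventually_all.2 fun i => eventually_all.2 fun j => eventually_imp_distrib_left.2 fun e => ?_
  exact ContinuousAt.eventually_lt
    ((((hq j).sub (hq i)).sub ((hp j).sub (hp i))).norm.continuousAt)
    (((hp j).sub (hp i)).norm.continuousAt) (h i j e)

lemma pb_self {ι : Type} {p : ι → ℂ} (h : Injective p) : Nr p p := fun i j e => by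
  rw [sub_self, norm_zero, norm_pos_iff, sub_ne_zero]
  exact fun e' => e (h e').symm

lemma pb_inj {n : ℕ} {T : Fin n → ℂ} (hT : Injective T) {z : ℂ} (hz : ∀ i, T i ≠ z) :
    Injective (cf z T) := by
  rintro (_ | i) (_ | j) e
  · rfl
  · exact absurd e.symm (hz j)
  · exact absurd e (hz i)
  · exact congrArg some (hT e)

lemma pb_cont {n : ℕ} (T : Fin n → ℂ) {f : ℂ → ℂ} (hf : Continuous f) (i : Option (Fin n)) :
    Continuous fun z => cf (f z) T i := by
  cases i
  exacts [hf, continuous_const]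

variable {H : Type} [NormedAddCommGroup H] [InnerProductSpace ℂ H]

lemma pb_aff (g : H ≃ᵃⁱ[ℂ] H) : (g : H → H) = fun x => g.linearIsometryEquiv x + g 0 :=
  funext fun x => by simpa using g.map_vadd 0 x

lemma pb_der (g : H ≃ᵃⁱ[ℂ] H) (x : H) : HasFDerivAt g
    ((g.linearIsometryEquiv.toContinuousLinearEquiv : H →L[ℂ] H).restrictScalars ℝ) x := by
  rw [pb_aff]
  exact (ContinuousLinearMap.hasFDerivAt
    ((g.linearIsometryEquiv.toContinuousLinearEquiv : H →L[ℂ] H).restrictScalars ℝ)).add_const _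

lemma pb_smooth (g : H ≃ᵃⁱ[ℂ] H) : ContDiff ℝ 2 g := by
  rw [pb_aff]
  exact (ContinuousLinearMap.contDiff
    ((g.linearIsometryEquiv.toContinuousLinearEquiv : H →L[ℂ] H).restrictScalars ℝ)).add
      contDiff_const

lemma pb_split (D : ℂ →L[ℝ] H) (v : ℂ) :
    D v = (v / 2) • (D 1 - I • D I) + (starRingEnd ℂ v / 2) • (D 1 + I • D I) := by
  rw [pb_lin D v, ← coe_smul, ← coe_smul]
  match_scalars
  all_goals
    apply Complex.ext <;> simp
    ring

lemma pb_gauge {n : ℕ} (τ : Tr n (H ≃ᵃⁱ[ℂ] H)) {T : Fin n → ℂ} {φ : ℂ → ℂ} (hT : Injective T)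
    (hc : Continuous φ) (hi : Injective φ)
    (hφ : ∀ z w, z ≠ w → ‖(φ z - φ w) - (z - w)‖ < ‖z - w‖) (U : ℂ → H) {z0 : ℂ}
    (hz : ∀ i, T i ≠ z0) :
    gz τ T (fun z => (τ.c (cf z T) (cf (φ z) fun i => φ (T i)))⁻¹ (U (φ z))) z0 =ᶠ[𝓝 z0]
      fun z => (τ.c (cf z0 T) (cf (φ z0) fun i => φ (T i)))⁻¹
        (gz τ (fun i => φ (T i)) U (φ z0) (φ z)) := by
  have i0 := pb_inj hT hz
  have i1 := pb_inj (hi.comp hT) (z := φ z0) fun i e => hz i (hi e)
  have n0 : Nr (cf z0 T) (cf (φ z0) fun i => φ (T i)) := fun i j e => by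
    have e1 : ∀ k, cf (φ z0) (fun i => φ (T i)) k = φ (cf z0 T k) := fun k => by cases k <;> rfl
    rw [e1, e1]
    exact hφ _ _ fun e' => e (i0 e').symm
  have cP := pb_cont T continuous_id
  have cQ := pb_cont (fun i => φ (T i)) hc
  filter_upwards [pb_ev (p := fun _ => cf z0 T) (fun _ => continuous_const) cP (pb_self i0),
    pb_ev (p := fun _ => cf z0 T) (fun _ => continuous_const) cQ n0, pb_ev cP cQ n0,
    pb_ev (p := fun _ => cf (φ z0) fun i => φ (T i)) (fun _ => continuous_const) cQ (pb_self i1)]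
    with z h1 h2 h3 h4
  have e := (τ.co _ _ _ h1 h2 h3).symm.trans (τ.co _ _ _ n0 h2 h4)
  have e' := congrArg (fun g : H ≃ᵃⁱ[ℂ] H => g⁻¹ (U (φ z))) e
  simp only [mul_inv_rev, AffineIsometryEquiv.coe_mul, comp_apply] at e'
  exact e'

theorem pbSt (_hB : BasSt) : PbSt := by
  intro H _ _ _ n τ T χ s κ hT hχ _ hκ hs
  have hd : Differentiable ℝ χ := hχ.differentiable two_ne_zero
  have hl := pb_lip hd hs
  set φ : ℂ → ℂ := fun z => z + s * χ z with hφ
  have h1 : ∀ z w, z ≠ w → ‖(φ z - φ w) - (z - w)‖ < ‖z - w‖ := fun z w e =>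
    (hl z w).trans_lt (mul_lt_of_lt_one_left (norm_pos_iff.2 (sub_ne_zero.2 e)) hκ)
  have hi : Injective φ := fun z w e => by_contra fun e' => by
    have := h1 z w e'
    rw [e, sub_self, zero_sub, norm_neg] at this
    exact lt_irrefl _ this
  have h2 : ContDiff ℝ 2 φ := contDiff_id.add (contDiff_const.mul (ofRealCLM.contDiff.comp hχ))
  refine ⟨hi, fun U hU => ⟨fun z => (τ.c (cf z T) (cf (φ z) fun i => φ (T i)))⁻¹ (U (φ z)),
    fun z => (τ.c (cf z T) (cf (φ z) fun i => φ (T i)))⁻¹.linearIsometryEquiv,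
    ⟨fun z0 hz => ?_, ?_⟩, fun z0 hz => ?_⟩⟩
  · exact ((pb_smooth _).contDiffAt.comp z0 ((hU.1 (φ z0) fun i e => hz i (hi e)).comp z0
      h2.contDiffAt)).congr_of_eventuallyEq (pb_gauge τ hT h2.continuous hi h1 U hz)
  · obtain ⟨K, k1, k2, k3⟩ := hU.2
    refine ⟨φ ⁻¹' K, ?_, k2, fun z0 h0 hz => ?_⟩
    · obtain ⟨r, hr⟩ := k1.isBounded.subset_closedBall (φ 0)
      refine Metric.isCompact_of_isClosed_isBounded (k1.isClosed.preimage h2.continuous)
        ((Metric.isBounded_closedBall (x := (0 : ℂ)) (r := r / (1 - κ))).subset fun z hz => ?_)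
      have h3 : ‖φ z - φ 0‖ ≤ r := mem_closedBall_iff_norm.1 (hr hz)
      have h4 : ‖φ z - φ 0 - (z - 0)‖ ≤ κ * ‖z - 0‖ := hl z 0
      have h5 := norm_sub_norm_le (z - 0) (φ z - φ 0)
      rw [norm_sub_rev] at h4
      rw [mem_closedBall_iff_norm, le_div_iff₀ (sub_pos.2 hκ)]
      linarith
    · filter_upwards [pb_gauge τ hT h2.continuous hi h1 U hz,
        h2.continuous.continuousAt.eventually (k3 (φ z0) h0 fun i e => hz i (hi e))] with z e e'
      rw [e, e']
  · have h3 := ((hU.1 (φ z0) fun i e => hz i (hi e)).differentiableAt two_ne_zero).hasFDerivAt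
    have h4 : HasFDerivAt φ _ z0 := (hasFDerivAt_id z0).add
      ((ofRealCLM.hasFDerivAt.comp z0 (hd z0).hasFDerivAt).const_mul s)
    have h5 := (((pb_der (τ.c (cf z0 T) (cf (φ z0) fun i => φ (T i)))⁻¹ _).comp z0
      (h3.comp z0 h4)).congr_of_eventuallyEq (pb_gauge τ hT h2.continuous hi h1 U hz)).fderiv
    have h6 : ∀ v, DD τ T (fun z => (τ.c (cf z T) (cf (φ z) fun i => φ (T i)))⁻¹ (U (φ z))) z0 v =
        (τ.c (cf z0 T) (cf (φ z0) fun i => φ (T i)))⁻¹.linearIsometryEquiv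
          (DD τ (fun i => φ (T i)) U (φ z0) (v + s * (fderiv ℝ χ z0 v : ℝ))) := fun v => by
      rw [DD, h5]; rfl
    have h7 := fun v => pb_split (DD τ (fun i => φ (T i)) U (φ z0)) v
    change ∀ v, _ = (v / 2) • d1 τ (fun i => φ (T i)) U (φ z0) +
      (starRingEnd ℂ v / 2) • d2 τ (fun i => φ (T i)) U (φ z0) at h7
    constructor
    · rw [d1, h6, h6, ← map_smul, ← map_sub, h7, h7]
      congr 1
      match_scalars
      · rw [bb]; linear_combination (-1 / 2 : ℂ) * I_mul_I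
      · simp only [bb, map_add, map_mul, map_one, conj_ofReal, conj_I]
        linear_combination (1 / 2 : ℂ) * I_mul_I
    · rw [d2, h6, h6, ← map_smul, ← map_add, h7, h7]
      congr 1
      match_scalars
      · simp only [bb, map_div₀, map_sub, map_mul, conj_ofReal, conj_I, map_ofNat]
        linear_combination (1 / 2 : ℂ) * I_mul_I
      · simp only [bb, map_add, map_one, map_div₀, map_sub, map_mul, conj_ofReal, conj_I, map_ofNat]
        linear_combination (-1 / 2 : ℂ) * I_mul_I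

end Pool.Agent.MA
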