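import Pool.Agent.Lib.MP_c86c76_al.An.St

/-!
The pull back of a section, integrated.
-/

set_option autoImplicit false

namespace Pool.Agent.MA

open Complex MeasureTheory Filter Topology Set Function
open scoped InnerProductSpace

section
variable {H : Type} [NormedAddCommGroup H] [InnerProductSpace ℂ H]

theorem pul_one {κ : ℝ} {p q : ℂ} (hκ : κ < 1) (hq : 2 * ‖q‖ ≤ κ) (hp : 1 - ‖q‖ ≤ ‖p‖) (A B : H) :
    (1 - κ) * (‖p • A + starRingEnd ℂ q • B‖ ^ 2 + ‖q • A + starRingEnd ℂ p • B‖ ^ 2) ≤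
      (1 + κ) * ((‖p‖ ^ 2 - ‖q‖ ^ 2) * (‖A‖ ^ 2 + ‖B‖ ^ 2)) := by
  have h1 : ‖p • A + starRingEnd ℂ q • B‖ ≤ ‖p‖ * ‖A‖ + ‖q‖ * ‖B‖ := by
    simpa [norm_smul] using norm_add_le (p • A) (starRingEnd ℂ q • B)
  have h2 : ‖q • A + starRingEnd ℂ p • B‖ ≤ ‖q‖ * ‖A‖ + ‖p‖ * ‖B‖ := by
    simpa [norm_smul] using norm_add_le (q • A) (starRingEnd ℂ p • B)
  have h3 := pow_le_pow_left₀ (norm_nonneg _) h1 2
  have h4 := pow_le_pow_left₀ (norm_nonneg _) h2 2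
  have p0 := norm_nonneg p
  have q0 := norm_nonneg q
  generalize ‖p • A + starRingEnd ℂ q • B‖ ^ 2 = x at *
  generalize ‖q • A + starRingEnd ℂ p • B‖ ^ 2 = y at *
  generalize ‖p‖ = P at *
  generalize ‖q‖ = Q at *
  generalize ‖A‖ = a at *
  generalize ‖B‖ = b at *
  have h5 : x + y ≤ (P + Q) ^ 2 * (a ^ 2 + b ^ 2) := by
    nlinarith [mul_nonneg (mul_nonneg p0 q0) (sq_nonneg (a - b))]
  have h6 : Q ≤ κ * P := by nlinarith
  have h7 : 0 ≤ (κ * P - Q) * ((P + Q) * (a ^ 2 + b ^ 2)) :=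
    mul_nonneg (sub_nonneg.2 h6) (by positivity)
  have h8 := mul_le_mul_of_nonneg_left h5 (sub_pos.2 hκ).le
  nlinarith

theorem pul_two {p q : ℂ} (hJ : 0 ≤ ‖p‖ ^ 2 - ‖q‖ ^ 2) (R : H ≃ₗᵢ[ℂ] H) (A B f : H) :
    4 * (⟪R (p • A + starRingEnd ℂ q • B), p • f⟫_ℂ -
        ⟪R (q • A + starRingEnd ℂ p • B), q • f⟫_ℂ).re - 2 * (‖p • f‖ ^ 2 - ‖q • f‖ ^ 2) -
      (‖R (p • A + starRingEnd ℂ q • B)‖ ^ 2 - ‖R (q • A + starRingEnd ℂ p • B)‖ ^ 2) ≤
      (‖p‖ ^ 2 - ‖q‖ ^ 2) * (‖A‖ ^ 2 + ‖B‖ ^ 2) := by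
  obtain ⟨g, rfl⟩ := R.surjective f
  simp only [← map_smul, R.inner_map_map, R.norm_map]
  have e1 : ⟪p • A + starRingEnd ℂ q • B, p • g⟫_ℂ - ⟪q • A + starRingEnd ℂ p • B, q • g⟫_ℂ =
      ((‖p‖ ^ 2 - ‖q‖ ^ 2 : ℝ) : ℂ) * ⟪A, g⟫_ℂ := by
    simp only [inner_add_left, inner_smul_left, inner_smul_right, conj_conj]
    push_cast
    rw [← mul_conj' p, ← mul_conj' q]
    ring
  have e2 : ⟪p • A, starRingEnd ℂ q • B⟫_ℂ = ⟪q • A, starRingEnd ℂ p • B⟫_ℂ := by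
    simp only [inner_smul_left, inner_smul_right]
    ring
  have e3 := mul_nonneg hJ (sq_nonneg ‖A - g‖)
  rw [norm_sub_sq (𝕜 := ℂ)] at e3
  rw [e1, re_ofReal_mul, norm_add_sq (𝕜 := ℂ), norm_add_sq (𝕜 := ℂ), e2]
  simp only [norm_smul, RCLike.norm_conj, mul_pow, RCLike.re_to_complex] at e3 ⊢
  nlinarith

theorem pul_int {u v : ℂ → H} (hu : MemLp u 2 volume) (hv : MemLp v 2 volume) :
    Integrable fun z => ⟪u z, v z⟫_ℂ :=
  (hu.norm.integrable_mul hv.norm).mono' (hu.1.inner hv.1)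
    (Eventually.of_forall fun _ => norm_inner_le_norm _ _)

omit [InnerProductSpace ℂ H] in
theorem pul_sq {u : ℂ → H} (hu : MemLp u 2 volume) : Integrable fun z => ‖u z‖ ^ 2 :=
  (memLp_two_iff_integrable_sq_norm hu.1).1 hu

theorem pul_mul {f : ℂ → H} (hf : MemLp f 2 volume) {p : ℂ → ℂ} (hp : Continuous p) {c : ℝ}
    (h : ∀ z, ‖p z‖ ≤ c) : MemLp (fun z => p z • f z) 2 volume :=
  hf.of_le_mul (c := c) (hp.aestronglyMeasurable.smul hf.1) (Eventually.of_forall fun z => by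
    rw [norm_smul]
    exact mul_le_mul_of_nonneg_right (h z) (norm_nonneg _))

end

theorem pulSt (hB : BasSt) (hP : PbSt) (hC : ChSt) : PulSt := by
  intro H _ _ _ n τ T χ s κ hT hχ hcs hκ hb U hU
  obtain ⟨hφ, hV⟩ := hP H n τ T χ s κ hT hχ hcs hκ hb
  obtain ⟨V, R, hV, hR⟩ := hV U hU
  obtain ⟨u1, u2, -⟩ := (hB H n τ _ (hφ.comp hT)).2.2.2.1 U hU
  obtain ⟨v1, v2, -⟩ := (hB H n τ T hT).2.2.2.1 V hV
  obtain ⟨c1, c2⟩ := hC χ s κ (fun z => ‖d1 τ (fun i => T i + s * χ (T i)) U z‖ ^ 2 +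
    ‖d2 τ (fun i => T i + s * χ (T i)) U z‖ ^ 2) hχ hκ hb hφ (fun z => by positivity)
    ((pul_sq u1).add (pul_sq u2))
  have ae : ∀ᵐ z : ℂ, ∀ i, T i ≠ z :=
    ((finite_range T).countable.ae_notMem volume).mono fun z h i e => h ⟨i, e⟩
  have nq : ∀ z, ‖s * starRingEnd ℂ (bb χ z)‖ = ‖s * bb χ z‖ := fun z => by simp
  have hq : ∀ z, 2 * ‖s * bb χ z‖ ≤ κ := fun z => by rw [norm_mul, ← mul_assoc]; exact hb z
  have hp : ∀ z, 1 - ‖s * bb χ z‖ ≤ ‖1 + s * bb χ z‖ := fun z => by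
    simpa using norm_sub_norm_le (1 : ℂ) (-(s * bb χ z))
  have cq : ∀ z, starRingEnd ℂ s * bb χ z = starRingEnd ℂ (s * starRingEnd ℂ (bb χ z)) :=
    fun z => by simp
  refine ⟨V, hV, ?_, fun f hf => le_trans ?_ c2⟩
  · have k0 : 0 ≤ 1 + κ := by linarith [hq 0, norm_nonneg (s * bb χ 0)]
    refine le_trans ?_ (mul_le_mul_of_nonneg_left c2 k0)
    rw [en, ← integral_const_mul, ← integral_const_mul]
    refine integral_mono_ae (((pul_sq v1).add (pul_sq v2)).const_mul _) (c1.const_mul _)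
      (ae.mono fun z hz => ?_)
    have := pul_one hκ ((nq z).symm ▸ hq z) ((nq z).symm ▸ hp z)
      (d1 τ (fun i => T i + s * χ (T i)) U (z + s * χ z))
      (d2 τ (fun i => T i + s * χ (T i)) U (z + s * χ z))
    rw [nq] at this
    simp only [(hR z hz).1, (hR z hz).2, (R z).norm_map, cq]
    exact this
  · have cb : Continuous (bb χ) := by
      have := hχ.continuous_fderiv (by norm_num)
      unfold bb
      fun_prop
    have g1 : MemLp (fun z => (1 + s * bb χ z) • f z) 2 volume :=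
      pul_mul hf (c := 2) (by fun_prop) fun z => (norm_add_le _ _).trans (by
        rw [norm_one]; linarith [hq z])
    have g2 : MemLp (fun z => (s * starRingEnd ℂ (bb χ z)) • f z) 2 volume :=
      pul_mul hf (c := 1) (by fun_prop) fun z => by rw [nq]; linarith [hq z]
    have i1 : Integrable fun z => 4 * (⟪d1 τ T V z, (1 + s * bb χ z) • f z⟫_ℂ -
        ⟪d2 τ T V z, (s * starRingEnd ℂ (bb χ z)) • f z⟫_ℂ).re :=
      ((pul_int v1 g1).sub (pul_int v2 g2)).re.const_mul 4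
    have i2 : Integrable fun z => 2 * (‖(1 + s * bb χ z) • f z‖ ^ 2 -
        ‖(s * starRingEnd ℂ (bb χ z)) • f z‖ ^ 2) := ((pul_sq g1).sub (pul_sq g2)).const_mul 2
    have i3 : Integrable fun z => ‖d1 τ T V z‖ ^ 2 - ‖d2 τ T V z‖ ^ 2 :=
      (pul_sq v1).sub (pul_sq v2)
    rw [← integral_sub (pul_sq g1) (pul_sq g2), ← integral_sub (pul_sq v1) (pul_sq v2),
      ← integral_const_mul, ← integral_const_mul, ← integral_sub i1 i2]
    refine (integral_sub (i1.sub i2) i3).symm.trans_le ?_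
    refine integral_mono_ae ((i1.sub i2).sub i3) c1 (ae.mono fun z hz => ?_)
    have hJ : 0 ≤ ‖1 + s * bb χ z‖ ^ 2 - ‖s * starRingEnd ℂ (bb χ z)‖ ^ 2 := by
      rw [nq]
      exact sub_nonneg.2 (pow_le_pow_left₀ (norm_nonneg _) (by linarith [hq z, hp z]) 2)
    have := pul_two hJ (R z) (d1 τ (fun i => T i + s * χ (T i)) U (z + s * χ z))
      (d2 τ (fun i => T i + s * χ (T i)) U (z + s * χ z)) (f z)
    rw [← cq, ← (hR z hz).1, ← (hR z hz).2, nq] at this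
    exact this

end Pool.Agent.MA
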