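import Pool.Agent.Lib.MP_c86c76_al.An.St

/-!
Differences along a segment, on average.
-/

set_option autoImplicit false

namespace Pool.Agent.MA

open Complex MeasureTheory Filter Topology Set Function

theorem seg_cs (φ : ℝ → ℝ) (h : ContinuousOn φ (uIcc 0 1)) :
    (∫ t in (0 : ℝ)..1, φ t) ^ 2 ≤ ∫ t in (0 : ℝ)..1, φ t ^ 2 := by
  set m := ∫ t in (0 : ℝ)..1, φ t with hm
  have h1 : IntervalIntegrable φ volume 0 1 := h.intervalIntegrable
  have h2 : IntervalIntegrable (fun t => φ t ^ 2) volume 0 1 := (h.pow 2).intervalIntegrable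
  have h3 : IntervalIntegrable (fun t => 2 * m * φ t) volume 0 1 := h1.const_mul _
  have h0 : 0 ≤ ∫ t in (0 : ℝ)..1, (φ t ^ 2 - 2 * m * φ t + m ^ 2) :=
    intervalIntegral.integral_nonneg zero_le_one fun t _ => by nlinarith [sq_nonneg (φ t - m)]
  rw [intervalIntegral.integral_add (h2.sub h3) intervalIntegrable_const,
    intervalIntegral.integral_sub h2 h3, intervalIntegral.integral_const_mul,
    intervalIntegral.integral_const, ← hm] at h0
  simp only [sub_zero, smul_eq_mul, one_mul] at h0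
  nlinarith

theorem seg_pt {H : Type} [NormedAddCommGroup H] [InnerProductSpace ℂ H] [CompleteSpace H]
    (w : ℂ → H) (p v : ℂ) (h : ∀ t ∈ Icc (0 : ℝ) 1, ContDiffAt ℝ 1 w (p + t • v)) :
    ENNReal.ofReal (‖w (p + v) - w p‖ ^ 2) ≤ ENNReal.ofReal (‖v‖ ^ 2) *
      ∫⁻ t in Ioc (0 : ℝ) 1, ENNReal.ofReal (‖fderiv ℝ w (p + t • v)‖ ^ 2) := by
  have hu : uIcc (0 : ℝ) 1 = Icc 0 1 := uIcc_of_le zero_le_one
  have hγ : ∀ t : ℝ, HasDerivAt (fun t : ℝ => p + t • v) v t := fun t => by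
    simpa using ((hasDerivAt_id t).smul_const v).const_add p
  have hc : ContinuousOn (fun t : ℝ => fderiv ℝ w (p + t • v)) (uIcc 0 1) := by
    intro t ht
    rw [hu] at ht
    have h1 : ContinuousAt (fderiv ℝ w) (p + t • v) := (h t ht).continuousAt_fderiv one_ne_zero
    exact (ContinuousAt.comp (f := fun t : ℝ => p + t • v) h1 (hγ t).continuousAt).continuousWithinAt
  have hg : ContinuousOn (fun t : ℝ => fderiv ℝ w (p + t • v) v) (uIcc 0 1) :=
    hc.clm_apply continuousOn_const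
  have hd : ∀ t ∈ uIcc (0 : ℝ) 1,
      HasDerivAt (fun t : ℝ => w (p + t • v)) (fderiv ℝ w (p + t • v) v) t := by
    intro t ht
    rw [hu] at ht
    exact HasFDerivAt.comp_hasDerivAt (f := fun t : ℝ => p + t • v) t
      ((h t ht).differentiableAt one_ne_zero).hasFDerivAt (hγ t)
  have hF := intervalIntegral.integral_eq_sub_of_hasDerivAt hd hg.intervalIntegrable
  simp only [one_smul, zero_smul, add_zero] at hF
  have hn : ContinuousOn (fun t : ℝ => ‖fderiv ℝ w (p + t • v)‖) (uIcc 0 1) := hc.norm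
  have h1 : ‖w (p + v) - w p‖ ≤ ‖v‖ * ∫ t in (0 : ℝ)..1, ‖fderiv ℝ w (p + t • v)‖ := by
    rw [← hF, ← intervalIntegral.integral_const_mul]
    refine (intervalIntegral.norm_integral_le_integral_norm zero_le_one).trans ?_
    refine intervalIntegral.integral_mono_on zero_le_one hg.norm.intervalIntegrable
      (hn.intervalIntegrable.const_mul _) fun t _ => ?_
    rw [mul_comm]
    exact ContinuousLinearMap.le_opNorm _ _
  have h2 : ‖w (p + v) - w p‖ ^ 2 ≤
      ‖v‖ ^ 2 * ∫ t in (0 : ℝ)..1, ‖fderiv ℝ w (p + t • v)‖ ^ 2 := by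
    refine (pow_le_pow_left₀ (norm_nonneg _) h1 2).trans ?_
    rw [mul_pow]
    exact mul_le_mul_of_nonneg_left (seg_cs _ hn) (sq_nonneg _)
  refine (ENNReal.ofReal_le_ofReal h2).trans (le_of_eq ?_)
  have hi : IntervalIntegrable (fun t : ℝ => ‖fderiv ℝ w (p + t • v)‖ ^ 2) volume 0 1 :=
    (hn.pow 2).intervalIntegrable
  rw [ENNReal.ofReal_mul (sq_nonneg _), intervalIntegral.integral_of_le zero_le_one,
    ofReal_integral_eq_lintegral_ofReal hi.1 (Eventually.of_forall fun t => sq_nonneg _)]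

theorem segSt : SegSt := by
  intro H _ _ _ w F a b δ _ h hF0 hF
  have hs : ∀ t ∈ Icc (0 : ℝ) 1, a + t • (b - a) ∈ segment ℝ a b := fun t ht => by
    rw [segment_eq_image']
    exact ⟨t, ht, rfl⟩
  have hm : Measurable fun z : ℂ => ENNReal.ofReal (‖fderiv ℝ w z‖ ^ 2) :=
    ((measurable_fderiv ℝ w).norm.pow_const 2).ennreal_ofReal
  have hm2 : Measurable fun q : ℂ × ℝ =>
      ENNReal.ofReal (‖fderiv ℝ w (a + q.2 • (b - a) + q.1)‖ ^ 2) :=
    hm.comp (f := fun q : ℂ × ℝ => a + q.2 • (b - a) + q.1) (by fun_prop)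
  calc ∫⁻ ζ in Metric.ball (0 : ℂ) δ, ENNReal.ofReal (‖w (b + ζ) - w (a + ζ)‖ ^ 2)
      ≤ ∫⁻ ζ in Metric.ball (0 : ℂ) δ, ENNReal.ofReal (‖b - a‖ ^ 2) *
          ∫⁻ t in Ioc (0 : ℝ) 1, ENNReal.ofReal (‖fderiv ℝ w (a + t • (b - a) + ζ)‖ ^ 2) := by
        refine setLIntegral_mono' Metric.isOpen_ball.measurableSet fun ζ hζ => ?_
        have e : ∀ t : ℝ, a + ζ + t • (b - a) = a + t • (b - a) + ζ := fun t => by abel
        have := seg_pt w (a + ζ) (b - a) fun t ht => by
          rw [e]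
          exact (h _ (hs t ht) ζ hζ).1
        simp only [e] at this
        rwa [show a + ζ + (b - a) = b + ζ by abel] at this
    _ = ENNReal.ofReal (‖b - a‖ ^ 2) * ∫⁻ t in Ioc (0 : ℝ) 1, ∫⁻ ζ in Metric.ball (0 : ℂ) δ,
          ENNReal.ofReal (‖fderiv ℝ w (a + t • (b - a) + ζ)‖ ^ 2) := by
        rw [lintegral_const_mul' _ _ ENNReal.ofReal_ne_top,
          lintegral_lintegral_swap hm2.aemeasurable]
    _ ≤ ENNReal.ofReal (‖b - a‖ ^ 2) * ∫⁻ _t in Ioc (0 : ℝ) 1, ENNReal.ofReal (∫ z, F z) := by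
        refine mul_le_mul_right ?_ _
        refine setLIntegral_mono' measurableSet_Ioc fun t ht => ?_
        rw [ofReal_integral_eq_lintegral_ofReal hF (Eventually.of_forall hF0),
          ← lintegral_add_left_eq_self (fun z => ENNReal.ofReal (F z)) (a + t • (b - a))]
        refine le_trans ?_ (setLIntegral_le_lintegral (Metric.ball (0 : ℂ) δ) _)
        exact setLIntegral_mono' Metric.isOpen_ball.measurableSet fun ζ hζ =>
          ENNReal.ofReal_le_ofReal (h _ (hs t (Ioc_subset_Icc_self ht)) ζ hζ).2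
    _ = ENNReal.ofReal (‖b - a‖ ^ 2 * ∫ z, F z) := by
        rw [setLIntegral_const, Real.volume_Ioc, ENNReal.ofReal_mul (sq_nonneg _)]
        simp

end Pool.Agent.MA
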