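import Pool.Agent.Lib.MP_c86c76_al.An.St

/-!
Stokes' formula for flat sections.
-/

set_option autoImplicit false

namespace Pool.Agent.MA

open Complex MeasureTheory Filter Topology Set Function
open scoped InnerProductSpace

theorem Sto_int {P : ℂ → ℂ} (h : ContDiff ℝ 1 P) (hc : HasCompactSupport P) (v : ℂ) :
    Integrable (fun z => fderiv ℝ P z v) ∧ ∫ z, fderiv ℝ P z v = 0 := by
  have h1 : Integrable (fun z => fderiv ℝ P z v) :=
    ((h.continuous_fderiv one_ne_zero).clm_apply continuous_const).integrable_of_hasCompactSupport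
      (hc.fderiv_apply ℝ v)
  have h2 := integral_mul_fderiv_eq_neg_fderiv_mul_of_integrable (μ := volume)
    (f := fun _ : ℂ => (1 : ℂ)) (g := P) (v := v) (by simp) (by simpa using h1)
    (by simpa using h.continuous.integrable_of_hasCompactSupport hc)
    (fun _ _ => differentiableAt_const _) fun _ _ => h.differentiable one_ne_zero _
  exact ⟨h1, by simpa using h2⟩

variable {H : Type} [NormedAddCommGroup H] [InnerProductSpace ℂ H]

theorem Sto_der {u u' u'' : ℂ → H} {z : ℂ} (h : ContDiffAt ℝ 2 u z) (h' : ContDiffAt ℝ 2 u' z)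
    (h'' : ContDiffAt ℝ 2 u'' z) (v : ℂ) :
    ContDiffAt ℝ 1 (fun x => ⟪fderiv ℝ u x v, u' x - u'' x⟫_ℂ) z ∧ ∀ w,
      fderiv ℝ (fun x => ⟪fderiv ℝ u x v, u' x - u'' x⟫_ℂ) z w =
        ⟪fderiv ℝ u z v, fderiv ℝ u' z w - fderiv ℝ u'' z w⟫_ℂ +
          ⟪fderiv ℝ (fderiv ℝ u) z w v, u' z - u'' z⟫_ℂ := by
  have h1 : ContDiffAt ℝ 1 (fderiv ℝ u) z := h.fderiv_right (by norm_num)
  have h2 : ContDiffAt ℝ 1 (fun x => fderiv ℝ u x v) z := h1.clm_apply contDiffAt_const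
  have d' := h'.differentiableAt two_ne_zero
  have d'' := h''.differentiableAt two_ne_zero
  refine ⟨h2.inner ℂ ((h'.sub h'').of_le one_le_two), fun w => ?_⟩
  rw [fderiv_inner_apply ℂ (h2.differentiableAt one_ne_zero) (d'.fun_sub d''), fderiv_fun_sub d' d'',
    fderiv_clm_apply (h1.differentiableAt one_ne_zero) (differentiableAt_const _)]
  simp [inner_sub_right]

theorem Sto_alg (a b p p' q q' : H) :
    ⟪a - I • b, (p - I • q) - (p' - I • q')⟫_ℂ - ⟪a + I • b, (p + I • q) - (p' + I • q')⟫_ℂ =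
      -2 * I * (⟪a, q - q'⟫_ℂ - ⟪b, p - p'⟫_ℂ) := by
  simp only [inner_sub_left, inner_sub_right, inner_add_left, inner_add_right, inner_smul_left,
    inner_smul_right, conj_I]
  ring

theorem stoSt (hB : BasSt) : StoSt := by
  classical
  intro H _ _ _ n τ T hT U U' U'' s s' s''
  obtain ⟨-, b2, b3, -⟩ := hB H n τ T hT
  obtain ⟨K, k1, k2, k3⟩ := s.2
  obtain ⟨P, hP⟩ : ∃ P : ℂ → ℂ → ℂ, ∀ v z, P v z =
      if ∀ i, T i ≠ z then ⟪DD τ T U z v, U' z - U'' z⟫_ℂ else 0 := ⟨_, fun _ _ => rfl⟩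
  have h1 : ∀ v z, z ∉ K → P v z = 0 := fun v z hz => by
    rw [hP]
    split_ifs with c
    · rw [DD, EventuallyEq.fderiv_eq (f := fun _ => U z) (k3 z hz c)]
      simp
    · rfl
  have h2 : ∀ v z, (∀ i, T i ≠ z) → P v =ᶠ[𝓝 z] fun x =>
      ⟪fderiv ℝ (gz τ T U z) x v, gz τ T U' z x - gz τ T U'' z x⟫_ℂ := fun v z c => by
    filter_upwards [b2 U z c, b3 U s z c] with x e1 e2
    rw [hP, if_pos e1.1, e2, ← (τ.c (cf z T) (cf x T)).linearIsometryEquiv.inner_map_map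
      (fderiv ℝ (gz τ T U z) x v), ← vsub_eq_sub (gz τ T U' z x), AffineIsometryEquiv.map_vsub]
    simp [gz, AffineIsometryEquiv.coe_inv, inner_sub_right]
  have h3 : ∀ v, ContDiff ℝ 1 (P v) := fun v => contDiff_iff_contDiffAt.2 fun z => by
    by_cases c : ∀ i, T i ≠ z
    · exact (Sto_der (s.1 z c) (s'.1 z c) (s''.1 z c) v).1.congr_of_eventuallyEq (h2 v z c)
    · obtain ⟨i, rfl⟩ : ∃ i, T i = z := by simpa using c
      refine (contDiffAt_const (c := (0 : ℂ))).congr_of_eventuallyEq ?_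
      filter_upwards [k1.isClosed.isOpen_compl.mem_nhds (k2 i)] with x hx
      exact h1 v x hx
  have h4 := fun v => Sto_int (h3 v) (HasCompactSupport.intro k1 (h1 v))
  have h5 : ∀ᵐ z : ℂ, z ∉ range T := (finite_range T).countable.ae_notMem volume
  rw [integral_congr_ae (g := fun z => -2 * I * (fderiv ℝ (P 1) z I - fderiv ℝ (P I) z 1)),
    integral_const_mul, integral_sub (h4 1 I).1 (h4 I 1).1, (h4 1 I).2, (h4 I 1).2, sub_zero,
    mul_zero]
  filter_upwards [h5] with z hz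
  have c : ∀ i, T i ≠ z := fun i e => hz ⟨i, e⟩
  rw [(h2 1 z c).fderiv_eq, (h2 I z c).fderiv_eq,
    (Sto_der (s.1 z c) (s'.1 z c) (s''.1 z c) 1).2, (Sto_der (s.1 z c) (s'.1 z c) (s''.1 z c) I).2,
    (s.1 z c).isSymmSndFDerivAt (by simp) I 1, add_sub_add_right_eq_sub]
  exact Sto_alg _ _ _ _ _ _

end Pool.Agent.MA
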