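import Pool.Agent.Lib.MP_c86c76_al.An.St

/-!
Harmonic supports of the least energy.
-/

set_option autoImplicit false

namespace Pool.Agent.MA

open Complex MeasureTheory Filter Topology Set Function
open scoped InnerProductSpace ENNReal

section Aux

variable {H : Type} [NormedAddCommGroup H] [InnerProductSpace ℂ H]

theorem Sup_inner (u w : Lp H 2 (volume : Measure ℂ)) (g k : ℂ → H) (hu : u =ᵐ[volume] g)
    (hw : w =ᵐ[volume] k) :
    Integrable (fun z => ⟪g z, k z⟫_ℂ) ∧ ⟪u, w⟫_ℂ = ∫ z, ⟪g z, k z⟫_ℂ := by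
  have h : (fun z => ⟪u z, w z⟫_ℂ) =ᵐ[volume] fun z => ⟪g z, k z⟫_ℂ := by
    filter_upwards [hu, hw] with z h1 h2
    rw [h1, h2]
  refine ⟨(L2.integrable_inner (𝕜 := ℂ) u w).congr h, ?_⟩
  rw [L2.inner_def]
  exact integral_congr_ae h

theorem Sup_normsq (u : Lp H 2 (volume : Measure ℂ)) (g : ℂ → H) (hu : u =ᵐ[volume] g) :
    Integrable (fun z => ‖g z‖ ^ 2) ∧ ‖u‖ ^ 2 = ∫ z, ‖g z‖ ^ 2 := by
  obtain ⟨h1, h2⟩ := Sup_inner u u g g hu hu
  have e : (fun z => ‖g z‖ ^ 2) = fun z => RCLike.re ⟪g z, g z⟫_ℂ := by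
    funext z
    rw [inner_self_eq_norm_sq]
  refine ⟨by rw [e]; exact h1.re, ?_⟩
  rw [e, integral_re h1, ← h2, inner_self_eq_norm_sq]

theorem Sup_QQ (e w : Lp H 2 (volume : Measure ℂ) × Lp H 2 (volume : Measure ℂ))
    (g1 g2 k1 k2 : ℂ → H) (h1 : e.1 =ᵐ[volume] g1) (h2 : e.2 =ᵐ[volume] g2)
    (h3 : w.1 =ᵐ[volume] k1) (h4 : w.2 =ᵐ[volume] k2) :
    QQ e w = ∫ z, (⟪g1 z, k1 z⟫_ℂ - ⟪g2 z, k2 z⟫_ℂ) ∧
      (QQ e w).re = ∫ z, (⟪g1 z, k1 z⟫_ℂ - ⟪g2 z, k2 z⟫_ℂ).re := by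
  obtain ⟨a1, a2⟩ := Sup_inner e.1 w.1 g1 k1 h1 h3
  obtain ⟨b1, b2⟩ := Sup_inner e.2 w.2 g2 k2 h2 h4
  have e1 : QQ e w = ∫ z, (⟪g1 z, k1 z⟫_ℂ - ⟪g2 z, k2 z⟫_ℂ) := by
    rw [integral_sub a1 b1, ← a2, ← b2]
    rfl
  refine ⟨e1, ?_⟩
  rw [e1]
  exact (integral_re (a1.sub b1)).symm

theorem Sup_mul (g : ℂ → ℂ) (hg : Continuous g) (M : ℝ) (hM : ∀ z, ‖g z‖ ≤ M) :
    ∃ b : Lp H 2 (volume : Measure ℂ) →L[ℂ] Lp H 2 (volume : Measure ℂ),
      ∀ f, b f =ᵐ[volume] fun z => g z • f z := by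
  have hm : MemLp g ∞ (volume : Measure ℂ) :=
    memLp_top_of_bound hg.aestronglyMeasurable M (Eventually.of_forall hM)
  refine ⟨(ContinuousLinearMap.lsmul ℂ ℂ : ℂ →L[ℂ] H →L[ℂ] H).holderL volume ∞ 2 2 (hm.toLp g),
    fun f => ?_⟩
  have h1 := (ContinuousLinearMap.lsmul ℂ ℂ : ℂ →L[ℂ] H →L[ℂ] H).coeFn_holder (r := 2)
    (hm.toLp g) f
  filter_upwards [h1, hm.coeFn_toLp] with z hz hz'
  rw [← hz']
  exact hz

end Aux

theorem Sup_bump {n : ℕ} (T : Fin n → ℂ) (j : Fin n) (s0 : ℂ) (hs : ∀ i, i ≠ j → T i ≠ s0) :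
    ∃ χ : ℂ → ℝ, ContDiff ℝ 2 χ ∧ HasCompactSupport χ ∧ χ s0 = 1 ∧ ∀ i, i ≠ j → χ (T i) = 0 := by
  have h : ∀ᶠ ε in 𝓝[>] (0 : ℝ), ∀ i, i ≠ j → ε ≤ dist (T i) s0 := by
    refine eventually_all.2 fun i => ?_
    by_cases hi : i = j
    · exact Eventually.of_forall fun _ h => absurd hi h
    · have hp : 0 < dist (T i) s0 := dist_pos.2 (hs i hi)
      exact ((eventually_le_nhds hp).filter_mono nhdsWithin_le_nhds).mono fun _ h _ => h
  obtain ⟨ε, hε, hp⟩ := (h.and self_mem_nhdsWithin).exists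
  have hp' : 0 < ε := hp
  let φ : ContDiffBump s0 := ⟨ε / 2, ε, by linarith, by linarith⟩
  refine ⟨φ, φ.contDiff, φ.hasCompactSupport, ?_, fun i hi => ?_⟩
  · exact φ.one_of_mem_closedBall (Metric.mem_closedBall_self φ.rIn_pos.le)
  · exact φ.zero_of_le_dist (hε i hi)

theorem Sup_bb (χ : ℂ → ℝ) (h : ContDiff ℝ 2 χ) (hc : HasCompactSupport χ) :
    Continuous (bb χ) ∧ ∃ M : ℝ, 0 < M ∧ ∀ z, ‖bb χ z‖ ≤ M := by
  have hf : Continuous (fderiv ℝ χ) := h.continuous_fderiv (by norm_num)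
  have hb : Continuous (bb χ) := by
    unfold bb
    fun_prop
  refine ⟨hb, ?_⟩
  have hs : HasCompactSupport (bb χ) := by
    refine (hc.fderiv ℝ).mono ?_
    intro z hz
    rw [mem_support] at hz ⊢
    intro h0
    apply hz
    simp [bb, h0]
  obtain ⟨M, hM⟩ := hs.exists_bound_of_continuous hb
  exact ⟨max M 1, lt_max_of_lt_right one_pos, fun z => (hM z).trans (le_max_left _ _)⟩

theorem Sup_ae {n : ℕ} (T : Fin n → ℂ) : ∀ᵐ z ∂(volume : Measure ℂ), ∀ i, T i ≠ z := by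
  refine ae_all_iff.2 fun i => ?_
  have h : ∀ᵐ z ∂(volume : Measure ℂ), z ∉ ({T i} : Set ℂ) :=
    (countable_singleton (T i)).ae_notMem _
  filter_upwards [h] with z hz e
  exact hz (by simp [e])

theorem supSt (hK : KreinSt) (hB : BasSt) (hS : StoSt) (hP : PulSt) : SupSt := by
  intro H _ _ _ n τ T j s0 hT hs0 hNe
  set T0 := update T j s0 with hT0
  have hT0i : Injective T0 := by
    intro i k h
    by_cases hi : i = j <;> by_cases hk : k = j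
    · rw [hi, hk]
    · rw [hT0, hi, update_self, update_of_ne hk] at h
      exact absurd h.symm (hs0 k hk)
    · rw [hT0, hk, update_self, update_of_ne hi] at h
      exact absurd h (hs0 i hi)
    · rw [hT0, update_of_ne hi, update_of_ne hk] at h
      exact hT h
  obtain ⟨χ, hχ, hχc, hχ1, hχ0⟩ := Sup_bump T j s0 hs0
  obtain ⟨hbc, M, hM0, hM⟩ := Sup_bb χ hχ hχc
  obtain ⟨b, hb⟩ := Sup_mul (H := H) (bb χ) hbc M hM
  obtain ⟨a, ha⟩ := Sup_mul (H := H) (fun z => starRingEnd ℂ (bb χ z))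
    (Complex.continuous_conj.comp hbc) M (fun z => by simpa using hM z)
  obtain ⟨-, -, -, hL, hA, -⟩ := hB H n τ T0 hT0i
  let D : Set (Lp H 2 (volume : Measure ℂ) × Lp H 2 (volume : Measure ℂ)) :=
    {e | ∃ U, IsSec τ T0 U ∧ e.1 =ᵐ[volume] d1 τ T0 U ∧ e.2 =ᵐ[volume] d2 τ T0 U}
  have hD : ∀ U, IsSec τ T0 U →
      ∃ e ∈ D, e.1 =ᵐ[volume] d1 τ T0 U ∧ e.2 =ᵐ[volume] d2 τ T0 U := by
    intro U hU
    obtain ⟨h1, h2, -⟩ := hL U hU
    exact ⟨(h1.toLp _, h2.toLp _), ⟨U, hU, h1.coeFn_toLp, h2.coeFn_toLp⟩, h1.coeFn_toLp,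
      h2.coeFn_toLp⟩
  have hen : ∀ U (e : Lp H 2 (volume : Measure ℂ) × Lp H 2 (volume : Measure ℂ)),
      e.1 =ᵐ[volume] d1 τ T0 U → e.2 =ᵐ[volume] d2 τ T0 U →
      ‖e.1‖ ^ 2 + ‖e.2‖ ^ 2 = en τ T0 U := by
    intro U e h1 h2
    obtain ⟨a1, a2⟩ := Sup_normsq e.1 _ h1
    obtain ⟨b1, b2⟩ := Sup_normsq e.2 _ h2
    rw [a2, b2, en, integral_add a1 b1]
  have hDne : D.Nonempty := by
    obtain ⟨U, hU⟩ := hNe.self_of_nhds
    obtain ⟨e, he, -⟩ := hD U hU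
    exact ⟨e, he⟩
  have hsub : ∀ (u w : Lp H 2 (volume : Measure ℂ)) (g k : ℂ → H), u =ᵐ[volume] g →
      w =ᵐ[volume] k → (u - w : Lp H 2 (volume : Measure ℂ)) =ᵐ[volume] fun z => g z - k z := by
    intro u w g k h1 h2
    filter_upwards [Lp.coeFn_sub u w, h1, h2] with z e1 e2 e3
    rw [e1, Pi.sub_apply, e2, e3]
  have hcomb : ∀ (u w : Lp H 2 (volume : Measure ℂ)) (g k : ℂ → H) (c : ℂ), u =ᵐ[volume] g →
      w =ᵐ[volume] k →
      (u + c • w : Lp H 2 (volume : Measure ℂ)) =ᵐ[volume] fun z => g z + c • k z := by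
    intro u w g k c h1 h2
    filter_upwards [Lp.coeFn_add u (c • w), Lp.coeFn_smul c w, h1, h2] with z e1 e2 e3 e4
    rw [e1, Pi.add_apply, e2, Pi.smul_apply, e3, e4]
  have haff : ∀ e ∈ D, ∀ e' ∈ D, ∀ e'' ∈ D, ∀ c : ℂ, e + c • (e' - e'') ∈ D := by
    rintro e ⟨U, hU, h1, h2⟩ e' ⟨U', hU', h1', h2'⟩ e'' ⟨U'', hU'', h1'', h2''⟩ c
    obtain ⟨hV, hDD⟩ := hA U U' U'' c hU hU' hU''
    refine ⟨_, hV, ?_, ?_⟩
    · filter_upwards [hcomb _ _ _ _ c h1 (hsub _ _ _ _ h1' h1''), Sup_ae T0] with z e1 hz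
      refine Eq.trans e1 ?_
      simp only [d1, hDD z hz]
      module
    · filter_upwards [hcomb _ _ _ _ c h2 (hsub _ _ _ _ h2' h2''), Sup_ae T0] with z e1 hz
      refine Eq.trans e1 ?_
      simp only [d2, hDD z hz]
      module
  have hiso : ∀ e ∈ D, ∀ e' ∈ D, ∀ e'' ∈ D, QQ e (e' - e'') = 0 := by
    rintro e ⟨U, hU, h1, h2⟩ e' ⟨U', hU', h1', h2'⟩ e'' ⟨U'', hU'', h1'', h2''⟩
    rw [(Sup_QQ e (e' - e'') _ _ _ _ h1 h2 (hsub _ _ _ _ h1' h1'') (hsub _ _ _ _ h2' h2'')).1]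
    exact hS H n τ T0 hT0i U U' U'' hU hU' hU''
  obtain ⟨r, hr, f, h0, hd, hv, hle⟩ := hK _ _ D a b hDne haff hiso
  have hball : ∀ᶠ s in 𝓝 s0, s - s0 ∈ Metric.ball (0 : ℂ) r := by
    filter_upwards [Metric.ball_mem_nhds s0 hr] with s hs
    rwa [mem_ball_zero_iff, ← dist_eq_norm]
  refine ⟨fun s => h0 (s - s0), ?_, ?_, ?_⟩
  · filter_upwards [hball] with s hs
    exact (hd.differentiableAt (Metric.isOpen_ball.mem_nhds hs)).comp s
      (differentiableAt_id.sub_const s0)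
  · simp only [sub_self]
    rw [hv, EE]
    congr 1
    ext x
    constructor
    · rintro ⟨e, ⟨U, hU, h1, h2⟩, rfl⟩
      exact ⟨U, hU, (hen U e h1 h2).symm⟩
    · rintro ⟨U, hU, rfl⟩
      obtain ⟨e, he, h1, h2⟩ := hD U hU
      exact ⟨e, he, hen U e h1 h2⟩
  · have hsm : ∀ᶠ s in 𝓝 s0, ‖s - s0‖ < 1 / (4 * M) := by
      filter_upwards [Metric.ball_mem_nhds s0 (show 0 < 1 / (4 * M) by positivity)] with s hs
      rwa [← dist_eq_norm]
    filter_upwards [hball, hsm, hNe] with s hs hs' hne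
    have hTs : (fun i => T0 i + (s - s0) * χ (T0 i)) = update T j s := by
      funext i
      by_cases hi : i = j
      · rw [hi, hT0, update_self, update_self, hχ1]
        simp
      · rw [hT0, update_of_ne hi, update_of_ne hi, hχ0 i hi]
        simp
    have hκ : ∀ z, 2 * ‖s - s0‖ * ‖bb χ z‖ ≤ 1 / 2 := by
      intro z
      have h1 : ‖s - s0‖ * ‖bb χ z‖ ≤ 1 / (4 * M) * M :=
        mul_le_mul hs'.le (hM z) (norm_nonneg _) (by positivity)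
      have h2 : 1 / (4 * M) * M = 1 / 4 := by field_simp
      linarith
    have hPs := hP H n τ T0 χ (s - s0) (1 / 2) hT0i hχ hχc (by norm_num) hκ
    rw [hTs] at hPs
    refine le_csInf ?_ ?_
    · obtain ⟨U, hU⟩ := hne
      exact ⟨_, U, hU, rfl⟩
    rintro _ ⟨U, hU, rfl⟩
    obtain ⟨V, hV, -, hin⟩ := hPs U hU
    obtain ⟨e, he, h1, h2⟩ := hD V hV
    have hw1 : (f (s - s0) + (s - s0) • b (f (s - s0)) : Lp H 2 (volume : Measure ℂ)) =ᵐ[volume]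
        fun z => (1 + (s - s0) * bb χ z) • f (s - s0) z := by
      filter_upwards [hcomb _ _ _ _ (s - s0) (ae_eq_refl (f (s - s0) : ℂ → H))
        (hb (f (s - s0)))] with z e1
      rw [e1, add_smul, one_smul, mul_smul]
    have hw2 : ((s - s0) • a (f (s - s0)) : Lp H 2 (volume : Measure ℂ)) =ᵐ[volume]
        fun z => ((s - s0) * starRingEnd ℂ (bb χ z)) • f (s - s0) z := by
      filter_upwards [Lp.coeFn_smul (s - s0) (a (f (s - s0))), ha (f (s - s0))] with z e1 e2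
      rw [e1, Pi.smul_apply, e2, mul_smul]
    have key := hle (s - s0) hs e he
    rw [(Sup_QQ e (f (s - s0) + (s - s0) • b (f (s - s0)), (s - s0) • a (f (s - s0))) _ _ _ _
      h1 h2 hw1 hw2).2, (Sup_normsq _ _ hw1).2, (Sup_normsq _ _ hw2).2, (Sup_normsq _ _ h1).2,
      (Sup_normsq _ _ h2).2] at key
    exact key.trans (hin _ (Lp.memLp _))

end Pool.Agent.MA
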