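import Pool.Agent.Lib.MP_c86c76_al.An.St

/-!
Test sections.
-/

set_option autoImplicit false

namespace Pool.Agent.MA

open Complex MeasureTheory Filter Topology Set Function
open scoped InnerProductSpace

section

variable {H : Type} [NormedAddCommGroup H] [InnerProductSpace ℂ H] {ι : Type} [Fintype ι]

/-- The combination of the points `v` with the weights `ψ`. -/
noncomputable def tesS (ψ : ι → ℂ → ℝ) (v : ι → H) (z : ℂ) : H := ∑ i, ψ i z • v i

theorem tes_aff (g : H ≃ᵃⁱ[ℂ] H) {ψ : ι → ℂ → ℝ} (v : ι → H) {z : ℂ} (h : ∑ i, ψ i z = 1) :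
    g (tesS ψ v z) = tesS ψ (fun i => g (v i)) z := by
  have e : ∀ p, g p = g.linearIsometryEquiv p + g 0 := fun p => by
    simpa using g.map_vadd 0 p
  rw [e, tesS, tesS, map_sum]
  simp only [e (v _), smul_add, Finset.sum_add_distrib, ← Finset.sum_smul, ← Complex.coe_smul,
    map_smul]
  rw [← ofReal_sum, h, ofReal_one, one_smul]

theorem tes_kk {n : ℕ} {t : Fin n → ℝ} {x : ℝ} (h : ∀ m, t m ≠ x) :
    ∀ᶠ z in 𝓝 (x : ℂ), kk t z.re = kk t x := by
  have : ∀ m, ∀ᶠ z in 𝓝 (x : ℂ), (t m < z.re ↔ t m < x) := fun m => by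
    have hc : Tendsto re (𝓝 (x : ℂ)) (𝓝 x) := continuous_re.tendsto' _ _ (ofReal_re x)
    rcases lt_or_gt_of_ne (h m) with k | k
    · exact (hc.eventually (lt_mem_nhds k)).mono fun z hz => iff_of_true hz k
    · exact (hc.eventually (gt_mem_nhds k)).mono fun z hz => iff_of_false hz.not_gt k.not_gt
  exact (eventually_all.2 this).mono fun z hz =>
    congrArg Finset.card (Finset.filter_congr fun m _ => hz m)

theorem tes_bound {ψ : ι → ℂ → ℝ} (hψ : ∀ i, ContDiff ℝ 2 (ψ i)) (v : ι → H) (z : ℂ) :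
    ‖fderiv ℝ (tesS ψ v) z 1 - I • fderiv ℝ (tesS ψ v) z I‖ ^ 2 +
      ‖fderiv ℝ (tesS ψ v) z 1 + I • fderiv ℝ (tesS ψ v) z I‖ ^ 2 ≤
      4 * Fintype.card ι * ∑ i, ‖v i‖ ^ 2 * ‖fderiv ℝ (ψ i) z‖ ^ 2 := by
  have hd : HasFDerivAt (tesS ψ v) (∑ i, (fderiv ℝ (ψ i) z).smulRight (v i)) z :=
    HasFDerivAt.fun_sum fun i _ =>
      (((hψ i).differentiable (by norm_num) z).hasFDerivAt).smul_const (v i)
  have hn : ‖fderiv ℝ (tesS ψ v) z‖ ≤ ∑ i, ‖v i‖ * ‖fderiv ℝ (ψ i) z‖ := by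
    rw [hd.fderiv]
    refine (norm_sum_le _ _).trans (Finset.sum_le_sum fun i _ => ?_)
    rw [ContinuousLinearMap.norm_smulRight_apply, mul_comm]
  have h2 : ‖fderiv ℝ (tesS ψ v) z‖ ^ 2 ≤
      Fintype.card ι * ∑ i, ‖v i‖ ^ 2 * ‖fderiv ℝ (ψ i) z‖ ^ 2 := by
    refine (pow_le_pow_left₀ (norm_nonneg _) hn 2).trans ?_
    simpa only [mul_pow, Finset.card_univ] using
      sq_sum_le_card_mul_sum_sq (s := Finset.univ) (f := fun i => ‖v i‖ * ‖fderiv ℝ (ψ i) z‖)
  have h3 : ∀ w : ℂ, ‖w‖ = 1 → ‖fderiv ℝ (tesS ψ v) z w‖ ^ 2 ≤ ‖fderiv ℝ (tesS ψ v) z‖ ^ 2 :=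
    fun w hw => pow_le_pow_left₀ (norm_nonneg _)
      (by simpa only [hw, mul_one] using (fderiv ℝ (tesS ψ v) z).le_opNorm w) 2
  have h4 := parallelogram_law_with_norm ℂ (fderiv ℝ (tesS ψ v) z 1)
    (I • fderiv ℝ (tesS ψ v) z I)
  rw [norm_smul, norm_I, one_mul] at h4
  nlinarith [h3 1 norm_one, h3 I norm_I]

theorem tes_ga {n : ℕ} (τ : Tr n (H ≃ᵃⁱ[ℂ] H)) (π : Equiv.Perm (Fin n)) (k : ℕ) (p : H) :
    (τ.b π k)⁻¹ (τ.ga π k p) = (τ.a π k)⁻¹ p := by
  rw [← inv_mul_cancel_left (τ.b π k) (τ.a π k)⁻¹]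
  rfl

end

theorem tes_null : ∀ᵐ z : ℂ, z.im ≠ 0 := by
  have h : volume ((LinearMap.ker imLm : Submodule ℝ ℂ) : Set ℂ) = 0 :=
    Measure.addHaar_submodule _ _ fun e => by
      simpa using (e ▸ Submodule.mem_top : I ∈ LinearMap.ker imLm)
  exact measure_mono_null (fun z hz => not_not.1 hz) h

theorem tes_int {ψ : ℂ → ℝ} (hψ : ContDiff ℝ 2 ψ) {c : ℝ} (hc : HasCompactSupport fun z => ψ z - c) :
    Integrable fun z => ‖fderiv ℝ ψ z‖ ^ 2 := by
  have h2 : HasCompactSupport (fderiv ℝ ψ) := by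
    rw [← show (fderiv ℝ fun z => ψ z - c) = fderiv ℝ ψ from funext fun z => fderiv_sub_const c]
    exact hc.fderiv ℝ
  have h3 : Continuous fun z => ‖fderiv ℝ ψ z‖ ^ 2 := (hψ.continuous_fderiv (by norm_num)).norm.pow 2
  exact h3.integrable_of_hasCompactSupport
    (h2.comp_left (g := fun L : ℂ →L[ℝ] ℝ => ‖L‖ ^ 2) (by simp))

theorem tesSt : TesSt := by
  intro H _ _ _ n τ π t ι _ ψ x y hπ hψ h1 hT hc hg
  let U : ℂ → H := fun z => if 0 < z.im then tesS ψ x z else if z.im < 0 then tesS ψ y z else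
    (τ.a π (kk t z.re))⁻¹ (tesS ψ x z)
  have up : ∀ z0 : ℂ, 0 < z0.im → gz τ (rc t) U z0 =ᶠ[𝓝 z0] tesS ψ x := fun z0 h => by
    filter_upwards [τ.loc z0 (rc t) fun i => by simpa [rc] using h.ne,
      continuous_im.continuousAt.eventually (lt_mem_nhds h)] with z e hz
    simp [gz, e, U, hz]
  have dn : ∀ z0 : ℂ, z0.im < 0 → gz τ (rc t) U z0 =ᶠ[𝓝 z0] tesS ψ y := fun z0 h => by
    filter_upwards [τ.loc z0 (rc t) fun i => by simpa [rc] using h.ne',
      continuous_im.continuousAt.eventually (gt_mem_nhds h)] with z e hz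
    simp [gz, e, U, hz, hz.not_gt]
  have key : ∀ z0, (∀ i, rc t i ≠ z0) →
      ∃ v, gz τ (rc t) U z0 =ᶠ[𝓝 z0] tesS ψ v ∧ tesS ψ v z0 = U z0 := fun z0 h0 => by
    rcases lt_trichotomy 0 z0.im with h | h | h
    · exact ⟨x, up z0 h, by simp [U, h]⟩
    · obtain ⟨x0, rfl⟩ : ∃ x0 : ℝ, z0 = x0 := ⟨z0.re, Complex.ext rfl h.symm⟩
      have ht : ∀ m, t m ≠ x0 := fun m e => h0 m (congrArg _ e)
      refine ⟨fun i => (τ.a π (kk t x0))⁻¹ (x i), ?_, by simp [U, tes_aff _ _ (h1 _)]⟩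
      have h2 : ∀ i, ∀ᶠ z in 𝓝 (x0 : ℂ), ψ i z • y i = ψ i z • τ.ga π (kk t x0) (x i) := fun i =>
        (hg x0 ht i).elim (fun e => .of_forall fun z => by rw [e])
          fun e => e.mono fun z hz => by rw [hz, zero_smul, zero_smul]
      filter_upwards [τ.re π t x0 hπ ht, tes_kk ht, eventually_all.2 h2] with z e hk hz
      rw [← tes_aff _ _ (h1 z)]
      simp only [gz, e, U, hk]
      split_ifs
      · rfl
      · rw [show tesS ψ y z = τ.ga π (kk t x0) (tesS ψ x z) from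
          (Finset.sum_congr rfl fun i _ => hz i).trans (tes_aff _ _ (h1 z)).symm]
        exact tes_ga τ π _ _
      · rfl
    · exact ⟨y, dn z0 h, by simp [U, h, h.not_gt]⟩
  choose c hc using hc
  have hU : IsSec τ (rc t) U := by
    refine ⟨fun z0 h0 => ?_, {z0 | ∀ i, ∀ᶠ z in 𝓝 z0, ψ i z = ψ i z0}ᶜ, ?_,
      fun m h => h fun i => hT i m, fun z0 hK h0 => ?_⟩
    · obtain ⟨v, hv, -⟩ := key z0 h0
      exact (ContDiff.sum fun i _ => (hψ i).smul contDiff_const).contDiffAt.congr_of_eventuallyEq hv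
    · refine (isCompact_iUnion fun i => (hc i).isCompact).of_isClosed_subset
        (isOpen_iff_mem_nhds.2 fun z0 h => ?_).isClosed_compl fun z0 h => ?_
      · filter_upwards [eventually_all.2 fun i => (h i).eventually_nhds] with z1 hz i
        exact (hz i).mono fun z e => e.trans (hz i).self_of_nhds.symm
      · by_contra k
        refine h fun i => ?_
        have := notMem_tsupport_iff_eventuallyEq.1 fun e => k (mem_iUnion.2 ⟨i, e⟩)
        exact this.mono fun z e => (sub_eq_zero.1 e).trans (sub_eq_zero.1 this.self_of_nhds).symm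
    · obtain ⟨v, hv, e⟩ := key z0 h0
      filter_upwards [hv, eventually_all.2 (not_not.1 hK)] with z e1 e2
      rw [e1, ← e]
      exact Finset.sum_congr rfl fun i _ => by rw [e2 i]
  have hi : ∀ i, Integrable fun z => ‖fderiv ℝ (ψ i) z‖ ^ 2 := fun i => tes_int (hψ i) (hc i)
  refine ⟨⟨U, hU⟩, le_trans (b := en τ (rc t) U) (csInf_le ⟨0, ?_⟩ ⟨U, hU, rfl⟩) ?_⟩
  · rintro _ ⟨V, -, rfl⟩
    exact integral_nonneg fun z => by positivity
  · simp only [dir, ← integral_const_mul]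
    rw [← integral_finsetSum _ fun i _ => (hi i).const_mul _, ← integral_const_mul]
    refine integral_mono_of_nonneg (.of_forall fun z => by positivity)
      ((integrable_finsetSum _ fun i _ => (hi i).const_mul _).const_mul _) ?_
    filter_upwards [tes_null] with z hz
    have h4 : (0 : ℝ) ≤ 4 * Fintype.card ι := by positivity
    rcases lt_or_gt_of_ne hz with h | h
    · simp only [d1, d2, DD, (dn z h).fderiv_eq]
      refine (tes_bound hψ y z).trans (mul_le_mul_of_nonneg_left (Finset.sum_le_sum fun i _ => ?_) h4)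
      exact mul_le_mul_of_nonneg_right (le_add_of_nonneg_left (sq_nonneg _)) (sq_nonneg _)
    · simp only [d1, d2, DD, (up z h).fderiv_eq]
      refine (tes_bound hψ x z).trans (mul_le_mul_of_nonneg_left (Finset.sum_le_sum fun i _ => ?_) h4)
      exact mul_le_mul_of_nonneg_right (le_add_of_nonneg_right (sq_nonneg _)) (sq_nonneg _)

end Pool.Agent.MA
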