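import Pool.Agent.Lib.MP_c86c76_al.An.St

/-!
Parallel transport from permutation braids.
-/

set_option autoImplicit false

namespace Pool.Agent.MA

open Complex Filter Topology Set Function

section Lists

variable {ι : Type}

theorem tr_ful_perm {l l' : List ι} (h : Ful l) (hp : l.Perm l') : Ful l' :=
  ⟨hp.nodup_iff.1 h.1, fun i => hp.mem_iff.1 (h.2 i)⟩

theorem tr_perm_of_ful {l l' : List ι} (h : Ful l) (h' : Ful l') : l.Perm l' :=
  (List.perm_ext_iff_of_nodup h.1 h'.1).2 fun a => ⟨fun _ => h'.2 a, fun _ => h.2 a⟩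

theorem tr_move {G : Type} (Φ : List ι → G) (f : ι → ℝ)
    (hΦ : ∀ l1 l2 i j, Ful (l1 ++ i :: j :: l2) → f i = f j →
      Φ (l1 ++ j :: i :: l2) = Φ (l1 ++ i :: j :: l2)) (x : ι) (v : List ι) :
    ∀ (u pre : List ι), (∀ y ∈ u, f y = f x) → Ful (pre ++ (u ++ x :: v)) →
      Φ (pre ++ (u ++ x :: v)) = Φ (pre ++ x :: (u ++ v))
  | [], pre, _, _ => by simp
  | y :: u, pre, hu, hF => by
    have e1 : pre ++ (y :: u ++ x :: v) = (pre ++ [y]) ++ (u ++ x :: v) := by simp
    have e2 : (pre ++ [y]) ++ x :: (u ++ v) = pre ++ y :: x :: (u ++ v) := by simp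
    have hF2 : Ful (pre ++ y :: x :: (u ++ v)) :=
      tr_ful_perm hF (List.Perm.append_left _ (List.Perm.cons _ List.perm_middle))
    rw [e1, tr_move Φ f hΦ x v u (pre ++ [y]) (fun z hz => hu z (List.mem_cons_of_mem _ hz))
      (e1 ▸ hF), e2, ← hΦ pre (u ++ v) y x hF2 (hu y List.mem_cons_self)]
    simp

theorem tr_sorted {G : Type} (Φ : List ι → G) (f : ι → ℝ)
    (hΦ : ∀ l1 l2 i j, Ful (l1 ++ i :: j :: l2) → f i = f j →
      Φ (l1 ++ j :: i :: l2) = Φ (l1 ++ i :: j :: l2)) :
    ∀ (l' l pre : List ι), l.Perm l' → l.Pairwise (fun i j => f i ≤ f j) →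
      l'.Pairwise (fun i j => f i ≤ f j) → Ful (pre ++ l) → Φ (pre ++ l) = Φ (pre ++ l')
  | [], l, pre, hp, _, _, _ => by rw [hp.eq_nil]
  | x :: w, l, pre, hp, h1, h2, hF => by
    obtain ⟨u, v, rfl⟩ := List.append_of_mem (hp.mem_iff.2 List.mem_cons_self)
    have hp' : (u ++ v).Perm w := (List.perm_middle.symm.trans hp).cons_inv
    have hu : ∀ y ∈ u, f y = f x := fun y hy =>
      le_antisymm ((List.pairwise_append.1 h1).2.2 y hy x List.mem_cons_self)
        ((List.pairwise_cons.1 h2).1 y (hp'.mem_iff.1 (List.mem_append_left _ hy)))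
    have e : ∀ z : List ι, pre ++ x :: z = (pre ++ [x]) ++ z := fun z => by simp
    rw [tr_move Φ f hΦ x v u pre hu hF, e (u ++ v), e w]
    refine tr_sorted Φ f hΦ w (u ++ v) (pre ++ [x]) hp'
      (h1.sublist (List.Sublist.append_left (List.sublist_cons_self _ _) _))
      (List.pairwise_cons.1 h2).2 ?_
    rw [← e]
    exact tr_ful_perm hF (List.Perm.append_left _ List.perm_middle)

variable [DecidableEq ι]

theorem tr_pw_idx {r : ι → ι → Prop} {s : List ι} (hs : Ful s) (hp : s.Pairwise r) {i j : ι}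
    (h : s.idxOf i < s.idxOf j) : r i j := by
  have hi := List.idxOf_lt_length_of_mem (hs.2 i)
  have hj := List.idxOf_lt_length_of_mem (hs.2 j)
  have := List.pairwise_iff_getElem.1 hp _ _ hi hj h
  simpa [List.getElem_idxOf] using this

theorem tr_idx_ne {s : List ι} (hs : Ful s) {i j : ι} (h : i ≠ j) : s.idxOf i ≠ s.idxOf j := by
  intro e
  apply h
  have hi := List.idxOf_lt_length_of_mem (hs.2 i)
  have hj := List.idxOf_lt_length_of_mem (hs.2 j)
  have h1 : s[s.idxOf i] = i := List.getElem_idxOf hi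
  have h2 : s[s.idxOf j] = j := List.getElem_idxOf hj
  rw [← h1, ← h2]
  simp only [e]

/-- The configuration does not cross the cuts of the order `s`. -/
def trInU (s : List ι) (q : ι → ℂ) : Prop :=
  ∀ i j, s.idxOf i < s.idxOf j → (q i).im = (q j).im → (q i).re < (q j).re

theorem tr_key {G : Type} [Group G] {A : List ι → List ι → G} (hA : Swp A) {s t : List ι}
    (hs : Ful s) (ht : Ful t) {q : ι → ℂ} (hqs : trInU s q) (hqt : trInU t q) {l l' : List ι}
    (hl : Ful l) (hl' : Ful l') (h1 : l.Pairwise fun i j => (q i).im ≤ (q j).im)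
    (h2 : l'.Pairwise fun i j => (q i).im ≤ (q j).im) :
    (A l s)⁻¹ * A l t = (A l' s)⁻¹ * A l' t := by
  have := tr_sorted (fun l => (A l s)⁻¹ * A l t) (fun i => (q i).im) ?_ l' l []
    (tr_perm_of_ful hl hl') h1 h2 (by simpa using hl)
  · simpa using this
  intro l1 l2 i j hF hij
  have hne : i ≠ j := by
    have := (List.nodup_append.1 hF.1).2.1
    rw [List.nodup_cons] at this
    exact fun e => this.1 (e ▸ List.mem_cons_self)
  have hF' : Ful (l1 ++ j :: i :: l2) :=
    tr_ful_perm hF (List.Perm.append_left _ (List.Perm.swap _ _ _))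
  rcases lt_or_gt_of_ne (tr_idx_ne hs hne) with a | a <;>
    rcases lt_or_gt_of_ne (tr_idx_ne ht hne) with b | b
  · obtain ⟨c, hc⟩ := hA l1 l2 i j hF
    simp only [hc s hs a, hc t ht b]
    group
  · exact absurd (hqs i j a hij) (not_lt.2 (hqt j i b hij.symm).le)
  · exact absurd (hqt i j b hij) (not_lt.2 (hqs j i a hij.symm).le)
  · obtain ⟨c, hc⟩ := hA l1 l2 j i hF'
    simp only [hc s hs a, hc t ht b]
    group

end Lists

section Sorting

variable {ι : Type} [Fintype ι]

/-- The sorting key. -/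
noncomputable def trKey (f g : ι → ℝ) (i : ι) : ℝ ×ₗ ℝ ×ₗ ℕ :=
  toLex (f i, toLex (g i, (Fintype.equivFin ι i : ℕ)))

theorem tr_key_le (f g : ι → ℝ) (i j : ι) : trKey f g i ≤ trKey f g j ↔
    f i < f j ∨ f i = f j ∧ (g i < g j ∨ g i = g j ∧
      (Fintype.equivFin ι i : ℕ) ≤ (Fintype.equivFin ι j : ℕ)) := by
  simp only [trKey, Prod.Lex.toLex_le_toLex]

theorem tr_key_inj (f g : ι → ℝ) {i j : ι} (h : trKey f g i = trKey f g j) : i = j := by
  simp only [trKey, toLex_inj, Prod.mk.injEq] at h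
  exact (Fintype.equivFin ι).injective (Fin.ext h.2.2)

open Classical in
/-- All labels, sorted by `f`, then by `g`. -/
noncomputable def trSrt (f g : ι → ℝ) : List ι :=
  (Finset.univ : Finset ι).toList.mergeSort fun i j => decide (trKey f g i ≤ trKey f g j)

theorem tr_srt_ful (f g : ι → ℝ) : Ful (trSrt f g) :=
  tr_ful_perm ⟨Finset.nodup_toList _, fun i => by simp⟩ (List.mergeSort_perm _ _).symm

theorem tr_srt_pw (f g : ι → ℝ) : (trSrt f g).Pairwise fun i j => trKey f g i ≤ trKey f g j := by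
  classical
  have := List.pairwise_mergeSort (le := fun i j => decide (trKey f g i ≤ trKey f g j))
    (fun a b c h1 h2 => by simpa using le_trans (of_decide_eq_true h1) (of_decide_eq_true h2))
    (fun a b => by simpa using le_total _ _) (Finset.univ : Finset ι).toList
  refine List.Pairwise.imp (fun h => of_decide_eq_true h) ?_
  unfold trSrt
  convert this using 1

theorem tr_srt_fst (f g : ι → ℝ) : (trSrt f g).Pairwise fun i j => f i ≤ f j :=
  (tr_srt_pw f g).imp fun h => by
    rcases (tr_key_le _ _ _ _).1 h with h | h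
    exacts [h.le, h.1.le]

theorem tr_srt_eq {f g : ι → ℝ} {l : List ι} (hl : Ful l)
    (h : l.Pairwise fun i j => trKey f g i ≤ trKey f g j) : trSrt f g = l :=
  List.Perm.eq_of_pairwise (fun _ _ _ _ h1 h2 => tr_key_inj f g (le_antisymm h1 h2))
    (tr_srt_pw f g) h (tr_perm_of_ful (tr_srt_ful f g) hl)

/-- Sorted by the imaginary part. -/
noncomputable def trRho (p : ι → ℂ) : List ι := trSrt (fun i => (p i).im) fun i => (p i).re

/-- Sorted by the real part. -/
noncomputable def trSg (p : ι → ℂ) : List ι := trSrt (fun i => (p i).re) fun i => (p i).im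

theorem tr_inU [DecidableEq ι] {p0 q : ι → ℂ} (h : Nr p0 q) : trInU (trSg p0) q := by
  intro i j hij him
  have hne : i ≠ j := fun e => by simp [e] at hij
  have h1 : (p0 i).re ≤ (p0 j).re :=
    tr_pw_idx (r := fun i j => (p0 i).re ≤ (p0 j).re) (s := trSg p0) (tr_srt_ful _ _)
      (tr_srt_fst (fun i => (p0 i).re) _) hij
  have h2 := h i j hne
  by_contra hc
  rw [not_lt] at hc
  have h3 := pow_lt_pow_left₀ h2 (norm_nonneg _) two_ne_zero
  rw [Complex.sq_norm, Complex.sq_norm, Complex.normSq_apply, Complex.normSq_apply] at h3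
  simp only [sub_re, sub_im, him, sub_self, zero_sub] at h3
  nlinarith [mul_nonneg (sub_nonneg.2 h1) (sub_nonneg.2 hc), sq_nonneg ((q i).re - (q j).re)]

omit [Fintype ι] in
theorem tr_nr_seg {p0 p p' : ι → ℂ} (h : Nr p0 p) (h' : Nr p0 p') {τ : ℝ} (h0 : 0 ≤ τ)
    (h1 : τ ≤ 1) : Nr p0 fun i => p i + τ * (p' i - p i) := by
  intro i j hij
  have := (convex_ball (p0 j - p0 i) ‖p0 j - p0 i‖).add_smul_sub_mem
    (mem_ball_iff_norm.2 (h i j hij)) (mem_ball_iff_norm.2 (h' i j hij)) ⟨h0, h1⟩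
  rw [mem_ball_iff_norm] at this
  have e : p j + τ * (p' j - p j) - (p i + τ * (p' i - p i)) =
      p j - p i + τ • (p' j - p' i - (p j - p i)) := by
    rw [Complex.real_smul]
    ring
  simpa only [e] using this

omit [Fintype ι] in
theorem tr_nr_self {p0 p : ι → ℂ} (h : Nr p0 p) : Nr p p := by
  intro i j hij
  rw [sub_self, norm_zero, norm_pos_iff]
  intro e
  have := h i j hij
  rw [e, zero_sub, norm_neg] at this
  exact lt_irrefl _ this

theorem tr_rho_near (q0 : ι → ℂ) :
    ∀ᶠ q in 𝓝 q0, (trRho q).Pairwise fun i j => (q0 i).im ≤ (q0 j).im := by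
  have : ∀ᶠ q : ι → ℂ in 𝓝 q0, ∀ i j, (q0 j).im < (q0 i).im → (q j).im < (q i).im := by
    simp only [eventually_all]
    intro i j h
    exact ContinuousAt.eventually_lt (f := fun q : ι → ℂ => (q j).im)
      (g := fun q : ι → ℂ => (q i).im)
      (Complex.continuous_im.comp (continuous_apply j)).continuousAt
      (Complex.continuous_im.comp (continuous_apply i)).continuousAt h
  filter_upwards [this] with q hq
  exact (tr_srt_fst (fun i => (q i).im) fun i => (q i).re).imp fun {i j} h =>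
    not_lt.1 fun h' => absurd (hq i j h') (not_lt.2 h)

theorem tr_co [DecidableEq ι] {G : Type} [Group G] {A : List ι → List ι → G} (hA : Swp A)
    {p0 p p' : ι → ℂ} (h1 : Nr p0 p) (h2 : Nr p0 p') (h3 : Nr p p') :
    (A (trRho p') (trSg p))⁻¹ * A (trRho p') (trSg p0) =
      (A (trRho p) (trSg p))⁻¹ * A (trRho p) (trSg p0) := by
  let γ : Icc (0 : ℝ) 1 → ι → ℂ := fun τ i => p i + (τ : ℝ) * (p' i - p i)
  have hγ : Continuous γ := by fun_prop
  have hlc : IsLocallyConstant fun τ : Icc (0 : ℝ) 1 =>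
      (A (trRho (γ τ)) (trSg p))⁻¹ * A (trRho (γ τ)) (trSg p0) := by
    rw [IsLocallyConstant.iff_eventually_eq]
    intro τ
    filter_upwards [hγ.continuousAt.tendsto.eventually (tr_rho_near (γ τ))] with σ hσ
    exact tr_key hA (tr_srt_ful _ _) (tr_srt_ful _ _)
      (tr_inU (tr_nr_seg (tr_nr_self h1) h3 τ.2.1 τ.2.2)) (tr_inU (tr_nr_seg h1 h2 τ.2.1 τ.2.2))
      (tr_srt_ful _ _) (tr_srt_ful _ _) hσ (tr_srt_fst _ _)
  have : PreconnectedSpace (Icc (0 : ℝ) 1) := Subtype.preconnectedSpace isPreconnected_Icc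
  have := hlc.apply_eq_of_preconnectedSpace ⟨1, by simp⟩ ⟨0, by simp⟩
  have e1 : γ ⟨1, by simp⟩ = p' := by funext i; simp [γ]
  have e0 : γ ⟨0, by simp⟩ = p := by funext i; simp [γ]
  simpa only [e1, e0] using this

end Sorting

section Real

variable {n : ℕ}

theorem tr_ful_od (π : Equiv.Perm (Fin n)) : Ful (none :: od π) := by
  refine ⟨List.nodup_cons.2 ⟨by simp [od, List.mem_ofFn], ?_⟩, fun i => ?_⟩
  · exact List.nodup_ofFn.2 fun a b h => π.injective (Option.some_injective _ h)
  · cases i with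
    | none => exact List.mem_cons_self
    | some i => exact List.mem_cons_of_mem _ (List.mem_ofFn.2 ⟨π.symm i, by simp⟩)

theorem tr_ful_odk (π : Equiv.Perm (Fin n)) (k : ℕ) : Ful (odk π k) := by
  refine tr_ful_perm (tr_ful_od π) ?_
  have := (List.perm_middle (a := (none : Option (Fin n))) (l₁ := (od π).take k)
    (l₂ := (od π).drop k)).symm
  rwa [List.take_append_drop] at this

theorem tr_od_pw {π : Equiv.Perm (Fin n)} {t : Fin n → ℝ} (ht : StrictMono (t ∘ π))
    {r : Option (Fin n) → Option (Fin n) → Prop} (hr : ∀ i j, t i < t j → r (some i) (some j)) :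
    (od π).Pairwise r :=
  List.pairwise_ofFn.2 fun _ _ h => hr _ _ (ht h)

theorem tr_kk {π : Equiv.Perm (Fin n)} {t : Fin n → ℝ} (ht : StrictMono (t ∘ π)) (x : ℝ)
    (m : Fin n) : (m : ℕ) < kk t x ↔ t (π m) < x := by
  have h := Tuple.lt_card_lt_iff_apply_lt_of_monotone (f := t ∘ π) (a := x) (j := m) ht.monotone
  have e : kk t x = (Finset.univ.filter fun i => (t ∘ π) i < x).card := by
    unfold kk
    exact (Finset.card_equiv π (by simp)).symm
  rw [e]
  exact h

theorem tr_odk_pw {π : Equiv.Perm (Fin n)} {t : Fin n → ℝ} (ht : StrictMono (t ∘ π)) {x : ℝ}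
    (hx : ∀ i, t i ≠ x) {r : Option (Fin n) → Option (Fin n) → Prop}
    (hr : ∀ i j, t i < t j → r (some i) (some j)) (hl : ∀ i, t i < x → r (some i) none)
    (hg : ∀ i, x < t i → r none (some i)) : (odk π (kk t x)).Pairwise r := by
  have h1 : ∀ a ∈ (od π).take (kk t x), ∃ i, a = some i ∧ t i < x := by
    intro a ha
    obtain ⟨j, hj, rfl⟩ := List.mem_take_iff_getElem.1 ha
    have hj' : j < n := by simpa [od] using (lt_min_iff.1 hj).2
    exact ⟨π ⟨j, hj'⟩, by simp [od], (tr_kk ht x ⟨j, hj'⟩).1 (lt_min_iff.1 hj).1⟩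
  have h2 : ∀ a ∈ (od π).drop (kk t x), ∃ i, a = some i ∧ x < t i := by
    intro a ha
    obtain ⟨j, hj, rfl⟩ := List.mem_drop_iff_getElem.1 ha
    have hj' : kk t x + j < n := by simpa [od, add_comm] using hj
    refine ⟨π ⟨_, hj'⟩, by simp [od], lt_of_le_of_ne (not_lt.1 fun h => ?_) (hx _).symm⟩
    have := (tr_kk ht x ⟨_, hj'⟩).2 h
    simp at this
  have h0 := tr_od_pw ht hr
  refine List.pairwise_append.2 ⟨h0.sublist (List.take_sublist _ _),
    List.pairwise_cons.2 ⟨fun a ha => ?_, h0.sublist (List.drop_sublist _ _)⟩, fun a ha b hb => ?_⟩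
  · obtain ⟨i, rfl, hi⟩ := h2 a ha
    exact hg i hi
  · obtain ⟨i, rfl, hi⟩ := h1 a ha
    rcases List.mem_cons.1 hb with rfl | hb
    · exact hl i hi
    · obtain ⟨j, rfl, hj⟩ := h2 b hb
      exact hr i j (hi.trans hj)

theorem tr_mem_od {π : Equiv.Perm (Fin n)} {a : Option (Fin n)} (h : a ∈ od π) :
    ∃ i, a = some i := by
  obtain ⟨i, rfl⟩ := List.mem_ofFn.1 h
  exact ⟨_, rfl⟩

theorem tr_loc (z0 : ℂ) (T : Fin n → ℂ) (h : ∀ i, (T i).im ≠ z0.im) :
    ∀ᶠ z in 𝓝 z0, trRho (cf z T) = trRho (cf z0 T) := by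
  have : ∀ᶠ z : ℂ in 𝓝 z0, ∀ i, ((T i).im < z0.im → (T i).im < z.im) ∧
      (z0.im < (T i).im → z.im < (T i).im) := by
    simp only [eventually_all, eventually_and]
    intro i
    exact ⟨fun h => continuousAt_const.eventually_lt Complex.continuous_im.continuousAt h,
      fun h => Complex.continuous_im.continuousAt.eventually_lt continuousAt_const h⟩
  filter_upwards [this] with z hz
  refine tr_srt_eq (tr_srt_ful _ _) ((tr_srt_pw _ _).imp fun {i j} hij => ?_)
  rw [tr_key_le] at hij ⊢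
  cases i with
  | none =>
    cases j with
    | none => simp
    | some j =>
      rcases hij with hij | hij
      · exact Or.inl ((hz j).2 hij)
      · exact absurd hij.1.symm (h j)
  | some i =>
    cases j with
    | none =>
      rcases hij with hij | hij
      · exact Or.inl ((hz i).1 hij)
      · exact absurd hij.1 (h i)
    | some j => exact hij

theorem tr_re {π : Equiv.Perm (Fin n)} {t : Fin n → ℝ} (ht : StrictMono (t ∘ π)) {x : ℝ}
    (hx : ∀ i, t i ≠ x) : trSg (cf x (rc t)) = odk π (kk t x) ∧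
      ∀ᶠ z in 𝓝 (x : ℂ), trRho (cf z (rc t)) =
        if 0 < z.im then od π ++ [none] else if z.im < 0 then none :: od π
        else odk π (kk t x) := by
  constructor
  · refine tr_srt_eq (tr_ful_odk _ _) (tr_odk_pw ht hx ?_ ?_ ?_) <;>
      intros <;> rw [tr_key_le] <;> left <;> simpa [cf, rc]
  have : ∀ᶠ z : ℂ in 𝓝 (x : ℂ), ∀ i, (t i < x → t i < z.re) ∧ (x < t i → z.re < t i) := by
    simp only [eventually_all, eventually_and]
    intro i
    exact ⟨fun h => continuousAt_const.eventually_lt Complex.continuous_re.continuousAt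
        (by simpa using h),
      fun h => Complex.continuous_re.continuousAt.eventually_lt continuousAt_const
        (by simpa using h)⟩
  filter_upwards [this] with z hz
  have hr : ∀ i j, t i < t j → trKey (fun i => (cf z (rc t) i).im) (fun i => (cf z (rc t) i).re)
      (some i) ≤ trKey (fun i => (cf z (rc t) i).im) (fun i => (cf z (rc t) i).re) (some j) := by
    intro i j h
    rw [tr_key_le]
    exact Or.inr ⟨by simp [cf, rc], Or.inl (by simpa [cf, rc] using h)⟩
  split_ifs with h1 h2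
  · refine tr_srt_eq (tr_ful_perm (tr_ful_od π) (List.perm_append_singleton _ _).symm)
      (List.pairwise_append.2 ⟨tr_od_pw ht hr, List.pairwise_singleton _ _, fun a ha b hb => ?_⟩)
    obtain ⟨i, rfl⟩ := tr_mem_od ha
    rw [List.mem_singleton.1 hb, tr_key_le]
    exact Or.inl (by simpa [cf, rc] using h1)
  · refine tr_srt_eq (tr_ful_od π) (List.pairwise_cons.2 ⟨fun a ha => ?_, tr_od_pw ht hr⟩)
    obtain ⟨i, rfl⟩ := tr_mem_od ha
    rw [tr_key_le]
    exact Or.inl (by simpa [cf, rc] using h2)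
  · have h0 : z.im = 0 := le_antisymm (not_lt.1 h1) (not_lt.1 h2)
    refine tr_srt_eq (tr_ful_odk _ _) (tr_odk_pw ht hx hr (fun i hi => ?_) fun i hi => ?_) <;>
      rw [tr_key_le]
    · exact Or.inr ⟨by simp [cf, rc, h0], Or.inl (by simpa [cf, rc] using (hz i).1 hi)⟩
    · exact Or.inr ⟨by simp [cf, rc, h0], Or.inl (by simpa [cf, rc] using (hz i).2 hi)⟩

end Real

theorem trSt : TrSt := by
  intro n G _ A hA
  refine ⟨⟨fun p0 p => A (trRho p) (trSg p0) * (A (trRho p0) (trSg p0))⁻¹,
    fun π k => A (od π ++ [none]) (odk π k) * (A (odk π k) (odk π k))⁻¹,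
    fun π k => A (none :: od π) (odk π k) * (A (odk π k) (odk π k))⁻¹, ?_, ?_, ?_⟩, ?_⟩
  · intro p0 p p' h1 h2 h3
    have h := tr_co hA h1 h2 h3
    rw [inv_mul_eq_iff_eq_mul] at h
    rw [h]
    group
  · intro z0 T h
    filter_upwards [tr_loc z0 T h] with z hz
    rw [hz, mul_inv_cancel]
  · intro π t x ht hx
    obtain ⟨h1, h2⟩ := tr_re ht hx
    have h3 := h2.self_of_nhds
    simp only [ofReal_im, lt_irrefl, if_false] at h3
    filter_upwards [h2] with z hz
    rw [h1, h3, hz]
    split_ifs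
    exacts [rfl, rfl, mul_inv_cancel _]
  · intro π k _
    simp only [Tr.ga]
    group

end Pool.Agent.MA
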