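import Pool.Agent.Lib.MP_c86c76_al.An.Br
import Pool.Agent.Lib.MP_c86c76_al.An.Bas
import Pool.Agent.Lib.MP_c86c76_al.An.Bd
import Pool.Agent.Lib.MP_c86c76_al.An.Ch
import Pool.Agent.Lib.MP_c86c76_al.An.Col
import Pool.Agent.Lib.MP_c86c76_al.An.Cons
import Pool.Agent.Lib.MP_c86c76_al.An.Deg
import Pool.Agent.Lib.MP_c86c76_al.An.Fin
import Pool.Agent.Lib.MP_c86c76_al.An.Inf
import Pool.Agent.Lib.MP_c86c76_al.An.Krein
import Pool.Agent.Lib.MP_c86c76_al.An.Lc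
import Pool.Agent.Lib.MP_c86c76_al.An.Lio
import Pool.Agent.Lib.MP_c86c76_al.An.Log
import Pool.Agent.Lib.MP_c86c76_al.An.Par
import Pool.Agent.Lib.MP_c86c76_al.An.Pb
import Pool.Agent.Lib.MP_c86c76_al.An.Pul
import Pool.Agent.Lib.MP_c86c76_al.An.Seg
import Pool.Agent.Lib.MP_c86c76_al.An.Sto
import Pool.Agent.Lib.MP_c86c76_al.An.Sup
import Pool.Agent.Lib.MP_c86c76_al.An.Tes
import Pool.Agent.Lib.MP_c86c76_al.An.Tr

/-!
The energy theorem.
-/

set_option autoImplicit false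

namespace Pool.Agent.MA

theorem pulA : PulSt := pulSt basSt (pbSt basSt) chSt

theorem lcA : LcSt := lcSt basSt pulA

theorem supA : SupSt := supSt kreinSt basSt (stoSt basSt) pulA

theorem conA : ConSt :=
  conSt lioSt lcA supA (colSt parSt dirSt tesSt) (infSt parSt dirSt tesSt) bdSt basSt

theorem mainA : MainSt := mainSt conA (degSt logSt dirSt tesSt) (finSt basSt segSt) basSt

/-- The energy theorem for actions of the group of braid-like automorphisms. -/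
theorem brMain {H : Type} [NormedAddCommGroup H] [InnerProductSpace ℂ H]
    [CompleteSpace H] {N : ℕ} (hN : 2 ≤ N) (α : BL (N + 1) →* (H ≃ᵃⁱ[ℂ] H))
    (h1 : ∀ k, k < N → ∃ x, α (MM N k) x = α (MM N (k + 1)) x)
    (h2 : ∀ k, k + 2 ≤ N → ∃ x, α (MM N k) x = α (MM N (k + 2)) x)
    (h3 : ∃ x, α (MM N 0) x = α (MM N (N - 1)) x) (h4 : ∃ x, α (MM N 0) x = x)
    (h5 : ∀ k, 1 ≤ k → k < N →
      ∃ x, α (MM N 0) x = α (MM N k) x ∧ α (MM N 0) x = α (MM N (k + 1)) x)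
    (ε : ℝ) (hε : 0 < ε) : ∃ x, ∀ k, k ≤ N → ‖α (MM N k) x - x‖ < ε :=
  brMain' trSt mainA hN α h1 h2 h3 h4 h5 ε hε

end Pool.Agent.MA
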