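import Pool.Agent.Lib.MP_c86c76_al.An.St
import Pool.Agent.Lib.MP_c86c76_al.B.Defs

/-!
Permutation braids as automorphisms of the free group.
-/

set_option autoImplicit false

namespace Pool.Agent.MA

open Pool.Agent.MB FreeGroup

section Lab

variable {ι : Type} [DecidableEq ι]

/-- The retraction that kills a letter. -/
def brK (l : ι) : FreeGroup ι →* FreeGroup ι := lift fun j => if j = l then 1 else of j

/-- Conjugation of one letter. -/
def brE (l : ι) (U : FreeGroup ι) : FreeGroup ι →* FreeGroup ι :=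
  lift fun j => if j = l then brK l U * of l * (brK l U)⁻¹ else of j

theorem brE_K (l : ι) (U V : FreeGroup ι) : brE l U (brK l V) = brK l V := by
  have : (brE l U).comp (brK l) = brK l := by
    ext j
    by_cases h : j = l <;> simp [brK, brE, h]
  exact DFunLike.congr_fun this V

theorem brE_inv (l : ι) (U : FreeGroup ι) : (brE l U).comp (brE l U⁻¹) = MonoidHom.id _ := by
  ext j
  by_cases h : j = l
  · subst h
    have h1 : brE j U (of j) = brK j U * of j * (brK j U)⁻¹ := by simp [brE]
    have h2 : brE j U⁻¹ (of j) = (brK j U)⁻¹ * of j * brK j U := by simp [brE]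
    simp only [MonoidHom.comp_apply, h2, _root_.map_mul, _root_.map_inv, brE_K, h1,
      MonoidHom.id_apply]
    group
  · simp [brE, h]

/-- Conjugation of one letter as an automorphism. -/
def brA (l : ι) (U : FreeGroup ι) : MulAut (FreeGroup ι) :=
  MonoidHom.toMulEquiv (brE l U) (brE l U⁻¹) (by simpa using brE_inv l U⁻¹) (brE_inv l U)

theorem brA_ne {l j : ι} (U : FreeGroup ι) (h : j ≠ l) : brA l U (of j) = of j := by
  simp [brA, brE, h]

/-- The product of the letters of a list. -/
def pw (u : List ι) : FreeGroup ι := (u.map of).prod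

omit [DecidableEq ι] in
theorem pw_nil : pw ([] : List ι) = 1 := rfl

omit [DecidableEq ι] in
theorem pw_cons (a : ι) (u : List ι) : pw (a :: u) = of a * pw u := by simp [pw]

omit [DecidableEq ι] in
theorem pw_append (u v : List ι) : pw (u ++ v) = pw u * pw v := by simp [pw]

omit [DecidableEq ι] in
theorem pw_fix {F : Type} [FunLike F (FreeGroup ι) (FreeGroup ι)]
    [MonoidHomClass F (FreeGroup ι) (FreeGroup ι)] (f : F) (u : List ι)
    (h : ∀ a ∈ u, f (of a) = of a) : f (pw u) = pw u := by
  induction u with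
  | nil => simp [pw_nil]
  | cons a u ih =>
    rw [pw_cons, _root_.map_mul, h a (by simp), ih fun b hb => h b (by simp [hb])]

theorem brA_self {l : ι} {u : List ι} (h : l ∉ u) :
    brA l (pw u) (of l) = pw u * of l * (pw u)⁻¹ := by
  have : brK l (pw u) = pw u := pw_fix _ _ fun a ha => by
    have : a ≠ l := fun e => h (e ▸ ha)
    simp [brK, this]
  simp [brA, brE, this]

theorem brA_pw {l : ι} (U : FreeGroup ι) {u : List ι} (h : l ∉ u) : brA l U (pw u) = pw u :=
  pw_fix _ _ fun _ ha => brA_ne U fun e => h (e ▸ ha)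

omit [DecidableEq ι] in
theorem br_ext {φ ψ : MulAut (FreeGroup ι)} (h : ∀ j, φ (of j) = ψ (of j)) : φ = ψ := by
  apply MulEquiv.toMonoidHom_injective
  ext j
  exact h j

theorem brA_nil (l : ι) : brA l (pw []) = 1 := br_ext fun j => by
  by_cases h : j = l
  · subst h
    rw [brA_self (by simp)]
    simp [pw_nil]
  · exact brA_ne _ h

/-- The permutation braid from the order `s` to the order `ρ`, on labels. -/
def brH : List ι → List ι → MulAut (FreeGroup ι)
  | _, [] => 1
  | ρ, l :: s => brA l (pw (ρ.takeWhile (· ≠ l))) * brH (ρ.erase l) s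

theorem brH_cons {u v s : List ι} {l : ι} (h : l ∉ u) :
    brH (u ++ l :: v) (l :: s) = brA l (pw u) * brH (u ++ v) s := by
  have h1 : (u ++ l :: v).takeWhile (· ≠ l) = u := by
    rw [List.takeWhile_append_of_pos (by
      intro a ha; simpa using fun e : a = l => h (e ▸ ha))]
    simp
  have h2 : (u ++ l :: v).erase l = u ++ v := by
    rw [List.erase_append_right _ h]; simp
  rw [brH, h1, h2]

theorem brH_not_mem {j : ι} : ∀ {s : List ι} (ρ : List ι), j ∉ s → brH ρ s (of j) = of j
  | [], _, _ => rfl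
  | l :: s, ρ, h => by
    rw [brH, MulAut.mul_apply, brH_not_mem _ (fun e => h (by simp [e])),
      brA_ne _ (fun e => h (by simp [e]))]

theorem brH_conj (j : ι) : ∀ (s ρ : List ι), IsConj (of j) (brH ρ s (of j))
  | [], _ => IsConj.refl _
  | l :: s, ρ => by
    rw [brH, MulAut.mul_apply]
    refine IsConj.trans ?_ ((brA l _).toMonoidHom.map_isConj (brH_conj j s _))
    by_cases h : j = l
    · subst h
      exact isConj_iff.2 ⟨brK j (pw (ρ.takeWhile (· ≠ j))), by simp [brA, brE]⟩
    · rw [MulEquiv.coe_toMonoidHom, brA_ne _ h]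

theorem brH_pw : ∀ (s ρ : List ι), s.Nodup → s.Perm ρ → brH ρ s (pw s) = pw ρ
  | [], ρ, _, h => by rw [← h.nil_eq]; rfl
  | l :: s, ρ, hs, h => by
    have hρ := h.nodup_iff.1 hs
    obtain ⟨u, v, rfl⟩ := List.append_of_mem (h.subset (List.mem_cons_self ..))
    have hu : l ∉ u := fun e => by
      have := List.nodup_append.1 hρ
      exact this.2.2 l e l (by simp) rfl
    have hv : l ∉ v := (List.nodup_cons.1 (List.nodup_append.1 hρ).2.1).1
    have hp : s.Perm (u ++ v) := (h.trans List.perm_middle).cons_inv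
    rw [brH_cons hu, MulAut.mul_apply, pw_cons, _root_.map_mul,
      brH_not_mem _ (List.nodup_cons.1 hs).1, brH_pw s _ (List.nodup_cons.1 hs).2 hp,
      _root_.map_mul, brA_self hu, brA_pw _ (by simp [hu, hv]), pw_append, pw_append, pw_cons]
    group

theorem br_comm {i j l : ι} {u u' : List ι} (hi : l ≠ i) (hj : l ≠ j) (hij : i ≠ j) (hu : l ∉ u)
    (hu' : l ∉ u') (h : brA i (pw [j]) (pw u) = pw u') :
    brA l (pw u') * brA i (pw [j]) = brA i (pw [j]) * brA l (pw u) := br_ext fun a => by
  have hji : i ∉ [j] := by simpa using hij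
  simp only [MulAut.mul_apply]
  by_cases h1 : a = l
  · subst h1
    rw [brA_ne _ hi, brA_self hu, brA_self hu', _root_.map_mul, _root_.map_mul, _root_.map_inv, h,
      brA_ne _ hi]
  · by_cases h2 : a = i
    · subst h2
      rw [brA_ne _ h1, brA_self hji, _root_.map_mul, _root_.map_mul, _root_.map_inv,
        brA_pw _ (by simpa using hj), brA_ne _ h1]
    · rw [brA_ne _ h1, brA_ne _ h2, brA_ne _ h1]

theorem brH_swp {i j : ι} : ∀ (s l1 l2 : List ι), (l1 ++ i :: j :: l2).Nodup →
    s.Perm (l1 ++ i :: j :: l2) → s.idxOf i < s.idxOf j →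
    brH (l1 ++ j :: i :: l2) s = brA i (pw [j]) * brH (l1 ++ i :: j :: l2) s
  | [], l1, l2, _, h, _ => by simp at h
  | l :: s, l1, l2, hn, h, hlt => by
    have hn' := hn
    simp only [List.nodup_append, List.nodup_cons, List.mem_cons, not_or] at hn'
    obtain ⟨h1, ⟨⟨hij, hi2⟩, hj2, h2⟩, h3⟩ := hn'
    have hi1 : i ∉ l1 := fun e => h3 i e i (Or.inl rfl) rfl
    have hj1 : j ∉ l1 := fun e => h3 j e j (Or.inr (Or.inl rfl)) rfl
    have hji : i ∉ [j] := by simpa using hij
    by_cases hi : l = i
    · subst hi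
      have e1 : l1 ++ j :: l :: l2 = (l1 ++ [j]) ++ l :: l2 := by simp
      rw [e1, brH_cons (by simp [hi1, hij]), brH_cons hi1, ← mul_assoc]
      congr 1
      · refine br_ext fun a => ?_
        by_cases ha : a = l
        · subst ha
          rw [brA_self (by simp [hi1, hij]), MulAut.mul_apply, brA_self hi1, _root_.map_mul,
            _root_.map_mul, _root_.map_inv, brA_pw _ hi1, brA_self hji, pw_append]
          group
        · rw [MulAut.mul_apply, brA_ne _ ha, brA_ne _ ha, brA_ne _ ha]
      · simp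
    · have hj : l ≠ j := by
        rintro rfl
        simp at hlt
      have hlt' : s.idxOf i < s.idxOf j := by
        rwa [List.idxOf_cons_ne _ hi, List.idxOf_cons_ne _ hj, Nat.succ_lt_succ_iff] at hlt
      have hm : l ∈ l1 ++ i :: j :: l2 := h.subset (List.mem_cons_self ..)
      simp only [List.mem_append, List.mem_cons, hi, hj, false_or] at hm
      rcases hm with hm | hm
      · obtain ⟨u, v, rfl⟩ := List.append_of_mem hm
        have hu : l ∉ u := fun e => (List.nodup_append.1 h1).2.2 l e l (by simp) rfl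
        have hiu : i ∉ u := fun e => hi1 (by simp [e])
        have e : ∀ t, u ++ l :: v ++ t = u ++ l :: (v ++ t) := fun t => by simp
        rw [e] at h hn
        rw [e, e, brH_cons hu, brH_cons hu, ← List.append_assoc, ← List.append_assoc,
          brH_swp s (u ++ v) l2 (by
            have := hn.sublist (List.Sublist.append_left (List.sublist_cons_self l _) u)
            simpa using this) (by
            have := (h.trans List.perm_middle).cons_inv
            simpa using this) hlt', ← mul_assoc, ← mul_assoc,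
          br_comm hi hj hij hu hu (brA_pw _ hiu)]
      · obtain ⟨u, v, rfl⟩ := List.append_of_mem hm
        have hu : l ∉ u := fun e => (List.nodup_append.1 h2).2.2 l e l (by simp) rfl
        have hl1 : l ∉ l1 := fun e => h3 l e l (by simp) rfl
        have hiu : i ∉ u := fun e => hi2 (by simp [e])
        have e : ∀ a b, l1 ++ a :: b :: (u ++ l :: v) = (l1 ++ a :: b :: u) ++ l :: v :=
          fun a b => by simp
        have e' : ∀ a b, (l1 ++ a :: b :: u) ++ v = l1 ++ a :: b :: (u ++ v) :=
          fun a b => by simp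
        rw [e] at h hn
        rw [e, e, brH_cons (by simp [hl1, hi, hj, hu]), brH_cons (by simp [hl1, hi, hj, hu]), e',
          e', brH_swp s l1 (u ++ v) (by
            have := hn.sublist (List.Sublist.append_left (List.sublist_cons_self l _) _)
            rwa [e'] at this) (by
            have := (h.trans List.perm_middle).cons_inv
            rwa [e'] at this) hlt', ← mul_assoc, ← mul_assoc,
          br_comm (u := l1 ++ i :: j :: u) hi hj hij (by simp [hl1, hi, hj, hu])
            (by simp [hl1, hi, hj, hu]) ?_]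
        rw [pw_append, pw_append, pw_cons i, pw_cons j u, pw_cons j (i :: u), pw_cons i,
          _root_.map_mul, _root_.map_mul, _root_.map_mul, brA_pw _ hi1, brA_pw _ hiu,
          brA_self hji, brA_ne _ (Ne.symm hij), pw_cons, pw_nil]
        group

theorem brH_head : ∀ (u ρ s : List ι), brH (u ++ ρ) (u ++ s) = brH ρ s
  | [], _, _ => rfl
  | a :: u, ρ, s => by
    have := brH_cons (u := []) (v := u ++ ρ) (s := u ++ s) (l := a) (by simp)
    simp only [List.nil_append] at this
    rw [List.cons_append, List.cons_append, this, brA_nil, one_mul, brH_head u ρ s]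

theorem brH_self (u : List ι) : brH u u = 1 := by
  have := brH_head u [] []
  simpa [brH] using this

theorem brH_last {z : ι} (u v : List ι) (h : z ∉ v) :
    brH (u ++ v ++ [z]) (u ++ z :: v) = brA z (pw v) := by
  rw [List.append_assoc, brH_head, brH_cons h, List.append_nil, brH_self, mul_one]

theorem brH_first {z : ι} : ∀ (u v : List ι), z ∉ u → u.Nodup → ∀ a,
    brH (z :: (u ++ v)) (u ++ z :: v) (of a) = if a ∈ u then of z * of a * (of z)⁻¹ else of a
  | [], v, _, _, a => by simp [brH_self]
  | l :: u, v, hz, hn, a => by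
    have hl : l ≠ z := fun e => hz (by simp [e])
    have h1 : l ∉ [z] := by simpa using hl
    have := brH_cons (u := [z]) (v := u ++ v) (s := u ++ z :: v) h1
    simp only [List.cons_append, List.nil_append] at this
    have hlu := (List.nodup_cons.1 hn).1
    rw [List.cons_append, List.cons_append, this, MulAut.mul_apply,
      brH_first u v (fun e => hz (by simp [e])) (List.nodup_cons.1 hn).2]
    by_cases ha : a ∈ u
    · have : a ≠ l := fun e => hlu (e ▸ ha)
      simp [ha, brA_ne _ this, brA_ne _ hl.symm]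
    · by_cases hal : a = l
      · subst hal
        rw [if_neg ha, brA_self h1]
        simp [pw]
      · simp [ha, hal, brA_ne _ hal]

end Lab

/-- The product of the letters `k, …, l - 1`. -/
def bl (m k l : ℕ) : FreeGroup (Fin m) := ((List.range' k (l - k)).map (io m)).prod

/-- Braid-like automorphisms. -/
def BL (m : ℕ) : Subgroup (MulAut (FreeGroup (Fin m))) where
  carrier := {β | β (bl m 0 m) = bl m 0 m ∧
    ∃ π : Equiv.Perm (Fin m), ∀ i, IsConj (of (π i)) (β (of i))}
  one_mem' := ⟨rfl, 1, fun _ => IsConj.refl _⟩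
  mul_mem' := by
    rintro β γ ⟨h1, π, h2⟩ ⟨h3, κ, h4⟩
    refine ⟨by rw [MulAut.mul_apply, h3, h1], π * κ, fun i => ?_⟩
    exact (h2 (κ i)).trans (β.toMonoidHom.map_isConj (h4 i))
  inv_mem' := by
    rintro β ⟨h1, π, h2⟩
    refine ⟨by rw [← h1, MulAut.inv_apply_self, h1], π⁻¹, fun i => ?_⟩
    have := (β⁻¹ : MulAut _).toMonoidHom.map_isConj (h2 (π⁻¹ i))
    simpa using this.symm

section Pos

variable {N : ℕ}

theorem Ful.length {l : List (Option (Fin N))} (h : Ful l) : l.length = N + 1 := by
  have := Fintype.card_congr (h.1.getEquivOfForallMemList l h.2)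
  simpa using this

theorem Ful.perm {ι : Type} {l l' : List ι} (h : Ful l) (h' : Ful l') : l.Perm l' :=
  (List.perm_ext_iff_of_nodup h.1 h'.1).2 fun a => by simp [h.2, h'.2]

/-- The label at a place. -/
def brq {l : List (Option (Fin N))} (h : Ful l) : Fin (N + 1) ≃ Option (Fin N) :=
  (finCongr h.length.symm).trans (h.1.getEquivOfForallMemList l h.2)

/-- From places to labels. -/
def brP {l : List (Option (Fin N))} (h : Ful l) :
    FreeGroup (Fin (N + 1)) ≃* FreeGroup (Option (Fin N)) := freeGroupCongr (brq h)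

theorem brP_of {l : List (Option (Fin N))} (h : Ful l) (i : Fin (N + 1)) :
    brP h (of i) = of (brq h i) := FreeGroup.map.of

theorem brP_io {l : List (Option (Fin N))} (h : Ful l) {i : ℕ} (hi : i < l.length) :
    brP h (io (N + 1) i) = of l[i] := by
  rw [io, dif_pos (h.length ▸ hi), brP_of]
  rfl

theorem brP_bl {l : List (Option (Fin N))} (h : Ful l) {k m : ℕ} (hm : m ≤ l.length) :
    brP h (bl (N + 1) k m) = pw ((l.take m).drop k) := by
  rw [bl, map_list_prod, pw, List.map_map]
  congr 1
  apply List.ext_getElem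
  · simp [min_eq_left hm]
  · intro i h1 h2
    simp only [List.length_map, List.length_range'] at h1
    simp only [List.getElem_map, List.getElem_range', Function.comp, one_mul, List.getElem_drop,
      List.getElem_take]
    exact brP_io h (by omega)

theorem brP_all {l : List (Option (Fin N))} (h : Ful l) : brP h (bl (N + 1) 0 (N + 1)) = pw l := by
  rw [brP_bl h h.length.ge, List.drop_zero, List.take_of_length_le h.length.le]

open Classical in
/-- The permutation braid from the order `s` to the order `ρ`. -/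
noncomputable def AA (ρ s : List (Option (Fin N))) : BL (N + 1) :=
  if h : Ful ρ ∧ Ful s then
    ⟨(brP h.2).trans ((brH ρ s).trans (brP h.1).symm), by
      refine ⟨?_, (brq h.2).trans (brq h.1).symm, fun i => ?_⟩
      · simp only [MulEquiv.trans_apply]
        rw [brP_all, brH_pw _ _ h.2.1 (h.2.perm h.1), ← brP_all h.1, MulEquiv.symm_apply_apply]
      · simp only [MulEquiv.trans_apply, brP_of, Equiv.trans_apply]
        exact (brP h.1).symm.toMonoidHom.map_isConj (brH_conj _ s ρ)⟩
  else 1

theorem AA_apply {ρ s : List (Option (Fin N))} (h1 : Ful ρ) (h2 : Ful s)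
    (x : FreeGroup (Fin (N + 1))) :
    brP h1 ((AA ρ s).1 x) = brH ρ s (brP h2 x) := by
  rw [AA, dif_pos ⟨h1, h2⟩]
  simp

theorem AA_swp : Swp (AA (N := N)) := by
  intro l1 l2 i j h
  have h' : Ful (l1 ++ j :: i :: l2) :=
    have p : (l1 ++ i :: j :: l2).Perm (l1 ++ j :: i :: l2) := (List.Perm.swap ..).append_left _
    ⟨p.nodup_iff.1 h.1, fun a => p.subset (h.2 a)⟩
  by_cases he : ∃ s, Ful s ∧ @List.idxOf _ instBEqOfDecidableEq i s <
      @List.idxOf _ instBEqOfDecidableEq j s
  · obtain ⟨s0, f0, g0⟩ := he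
    refine ⟨AA (l1 ++ j :: i :: l2) s0 * (AA (l1 ++ i :: j :: l2) s0)⁻¹, fun s f g => ?_⟩
    rw [mul_assoc, ← inv_mul_eq_iff_eq_mul]
    refine Subtype.ext (MulEquiv.ext fun x => ?_)
    simp only [Subgroup.coe_mul, Subgroup.coe_inv, MulAut.mul_apply]
    obtain ⟨y, hy⟩ := (AA (l1 ++ i :: j :: l2) s0).1.surjective ((AA (l1 ++ i :: j :: l2) s).1 x)
    rw [← hy, MulAut.inv_apply_self, MulAut.inv_def, MulEquiv.symm_apply_eq]
    apply (brP h').injective
    have hy' := congrArg (brP h) hy
    rw [AA_apply h f0, AA_apply h f] at hy'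
    rw [AA_apply h' f, AA_apply h' f0, brH_swp _ _ _ h.1 (f.perm h) g,
      brH_swp _ _ _ h.1 (f0.perm h) g0, MulAut.mul_apply, MulAut.mul_apply, hy']
  · exact ⟨1, fun s f g => (he ⟨s, f, g⟩).elim⟩

theorem od_length (π : Equiv.Perm (Fin N)) : (od π).length = N := by simp [od]

theorem od_nodup (π : Equiv.Perm (Fin N)) : (od π).Nodup :=
  List.nodup_ofFn.2 fun _ _ h => π.injective (Option.some_injective _ h)

theorem od_none (π : Equiv.Perm (Fin N)) : none ∉ od π := by simp [od]

theorem ful_first (π : Equiv.Perm (Fin N)) : Ful (none :: od π) := by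
  refine ⟨List.nodup_cons.2 ⟨od_none π, od_nodup π⟩, fun a => ?_⟩
  cases a with
  | none => simp
  | some a => exact List.mem_cons_of_mem _ (List.mem_ofFn.2 ⟨π.symm a, by simp⟩)

theorem Ful.of_perm {ι : Type} {l l' : List ι} (h : Ful l) (p : l.Perm l') : Ful l' :=
  ⟨p.nodup_iff.1 h.1, fun a => p.subset (h.2 a)⟩

theorem ful_odk (π : Equiv.Perm (Fin N)) (k : ℕ) : Ful (odk π k) :=
  (ful_first π).of_perm (by
    conv_lhs => rw [← List.take_append_drop k (od π)]
    exact List.perm_middle.symm)

theorem ful_last (π : Equiv.Perm (Fin N)) : Ful (od π ++ [none]) :=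
  (ful_first π).of_perm (List.perm_append_singleton _ _).symm

/-- The gluing braid. -/
noncomputable def gg (π : Equiv.Perm (Fin N)) (k : ℕ) : BL (N + 1) :=
  AA (none :: od π) (odk π k) * (AA (od π ++ [none]) (odk π k))⁻¹

theorem gg_apply (π : Equiv.Perm (Fin N)) (k : ℕ) (x : FreeGroup (Fin (N + 1))) :
    brP (ful_first π) ((gg π k).1 x) = brH (none :: od π) (odk π k)
      ((brA none (pw ((od π).drop k)))⁻¹ (brP (ful_last π) x)) := by
  obtain ⟨y, rfl⟩ := (AA (od π ++ [none]) (odk π k)).1.surjective x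
  have e : brH (od π ++ [none]) (odk π k) = brA none (pw ((od π).drop k)) := by
    have := brH_last ((od π).take k) ((od π).drop k) (z := none)
      (fun h => od_none π (List.mem_of_mem_drop h))
    rwa [List.take_append_drop] at this
  rw [gg, Subgroup.coe_mul, Subgroup.coe_inv, MulAut.mul_apply, MulAut.inv_apply_self,
    AA_apply _ (ful_odk π k), AA_apply _ (ful_odk π k), e, MulAut.inv_apply_self]

theorem gg_first (π : Equiv.Perm (Fin N)) (k : ℕ) (a : Option (Fin N)) :
    brH (none :: od π) (odk π k) (of a) =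
      if a ∈ (od π).take k then of none * of a * (of none)⁻¹ else of a := by
  have := brH_first ((od π).take k) ((od π).drop k) (z := none)
    (fun h => od_none π (List.mem_of_mem_take h)) ((od_nodup π).sublist (List.take_sublist _ _)) a
  rw [List.take_append_drop] at this
  convert this using 2
  rfl

/-- The inverse loop of the last point around the block `k, …, N - 1`. -/
def IsM (N k : ℕ) (β : MulAut (FreeGroup (Fin (N + 1)))) : Prop :=
  (∀ i, i < k → β (io (N + 1) i) = io (N + 1) i) ∧
  (∀ i, k ≤ i → i < N → β (io (N + 1) i) = (io (N + 1) N)⁻¹ * io (N + 1) i * io (N + 1) N) ∧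
  β (io (N + 1) N) = (io (N + 1) N)⁻¹ * (bl (N + 1) k N)⁻¹ * io (N + 1) N * bl (N + 1) k N *
    io (N + 1) N

theorem IsM.unique {k : ℕ} {β γ : MulAut (FreeGroup (Fin (N + 1)))} (h : IsM N k β)
    (h' : IsM N k γ) : β = γ := br_ext fun j => by
  have e : io (N + 1) j = of j := by rw [io, dif_pos j.2]
  rw [← e]
  by_cases h1 : (j : ℕ) < k
  · rw [h.1 _ h1, h'.1 _ h1]
  · by_cases h2 : (j : ℕ) < N
    · rw [h.2.1 _ (by omega) h2, h'.2.1 _ (by omega) h2]
    · have : (j : ℕ) = N := by omega
      rw [this, h.2.2, h'.2.2]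

theorem gg_top (π : Equiv.Perm (Fin N)) (x : FreeGroup (Fin (N + 1))) :
    brP (ful_first π) ((gg π N).1 x) = of none * brP (ful_last π) x * (of none)⁻¹ := by
  rw [gg_apply, List.drop_of_length_le (od_length π).le, brA_nil, inv_one, MulAut.one_apply]
  have : brH (none :: od π) (odk π N) = MulAut.conj (of none) := br_ext fun a => by
    rw [gg_first, List.take_of_length_le (od_length π).le, MulAut.conj_apply]
    split_ifs with h
    · rfl
    · have : a = none := by simpa [h] using (ful_first π).2 a
      simp [this]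
  rw [this, MulAut.conj_apply]

theorem gg_isM (π : Equiv.Perm (Fin N)) {k : ℕ} (hk : k ≤ N) :
    IsM N k ((gg π N)⁻¹ * gg π k).1 := by
  have key : ∀ x y, brH (none :: od π) (odk π k)
      ((brA none (pw ((od π).drop k)))⁻¹ (brP (ful_last π) x)) =
      of none * brP (ful_last π) y * (of none)⁻¹ → ((gg π N)⁻¹ * gg π k).1 x = y := by
    intro x y h
    rw [Subgroup.coe_mul, Subgroup.coe_inv, MulAut.mul_apply, MulAut.inv_def,
      MulEquiv.symm_apply_eq]
    apply (brP (ful_first π)).injective
    rw [gg_apply, gg_top, h]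
  have hl := od_length π
  have e1 : ∀ i (hi : i < N), brP (ful_last π) (io (N + 1) i) = of ((od π)[i]'(by omega)) := by
    intro i hi
    rw [brP_io _ (by simp; omega), List.getElem_append_left]
  have e2 : brP (ful_last π) (io (N + 1) N) = of none := by
    rw [brP_io _ (by simp; omega), List.getElem_append_right (by omega)]
    simp
  have e3 : ∀ i (hi : i < N), (brA none (pw ((od π).drop k)))⁻¹ (of ((od π)[i]'(by omega))) =
      of ((od π)[i]'(by omega)) := by
    intro i hi
    rw [MulAut.inv_def, MulEquiv.symm_apply_eq, brA_ne]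
    exact fun e => od_none π (e ▸ List.getElem_mem _)
  have e4 : ∀ i (hi : i < N), (od π)[i]'(by omega) ∈ (od π).take k ↔ i < k := by
    intro i hi
    rw [List.mem_take_iff_idxOf_lt (List.getElem_mem _), (od_nodup π).idxOf_getElem]
  refine ⟨fun i hi => key _ _ ?_, fun i h1 h2 => key _ _ ?_, key _ _ ?_⟩
  · rw [e1 i (by omega), e3 i (by omega), gg_first, if_pos ((e4 i (by omega)).2 hi)]
  · rw [e1 i h2, e3 i h2, gg_first, if_neg (fun e => by have := (e4 i h2).1 e; omega),
      _root_.map_mul, _root_.map_mul, _root_.map_inv, e1 i h2, e2]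
    group
  · have hz : none ∉ (od π).drop k := fun h => od_none π (List.mem_of_mem_drop h)
    have e5 : brP (ful_last π) (bl (N + 1) k N) = pw ((od π).drop k) := by
      rw [brP_bl _ (by simp; omega), List.take_left' hl]
    have e6 : (brA none (pw ((od π).drop k)))⁻¹ (of none) =
        (pw ((od π).drop k))⁻¹ * of none * pw ((od π).drop k) := by
      rw [MulAut.inv_def, MulEquiv.symm_apply_eq, _root_.map_mul, _root_.map_mul, _root_.map_inv,
        brA_pw _ hz, brA_self hz]
      group
    have e7 : brH (none :: od π) (odk π k) (pw ((od π).drop k)) = pw ((od π).drop k) :=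
      pw_fix _ _ fun a ha => by
        rw [gg_first, if_neg]
        intro hb
        have := od_nodup π
        rw [← List.take_append_drop k (od π)] at this
        exact (List.nodup_append.1 this).2.2 a hb a ha rfl
    rw [e2, e6]
    simp only [_root_.map_mul, _root_.map_inv, e2, e5, e7]
    rw [gg_first, if_neg (fun h => od_none π (List.mem_of_mem_take h))]
    group

/-- The loop braids. -/
noncomputable def MM (N k : ℕ) : BL (N + 1) := (gg (1 : Equiv.Perm (Fin N)) N)⁻¹ * gg 1 k

theorem MM_isM {k : ℕ} (hk : k ≤ N) : IsM N k (MM N k).1 := gg_isM 1 hk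

theorem MM_top : MM N N = 1 := inv_mul_cancel _

theorem gg_eq (π : Equiv.Perm (Fin N)) {k : ℕ} (hk : k ≤ N) : gg π k = gg π N * MM N k := by
  rw [← inv_mul_eq_iff_eq_mul]
  exact Subtype.ext ((gg_isM π hk).unique (MM_isM hk))

end Pos

/-- The energy theorem for actions of the group of braid-like automorphisms. -/
theorem brMain' (hT : TrSt) (hM : MainSt) {H : Type} [NormedAddCommGroup H] [InnerProductSpace ℂ H]
    [CompleteSpace H] {N : ℕ} (hN : 2 ≤ N) (α : BL (N + 1) →* (H ≃ᵃⁱ[ℂ] H))
    (h1 : ∀ k, k < N → ∃ x, α (MM N k) x = α (MM N (k + 1)) x)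
    (h2 : ∀ k, k + 2 ≤ N → ∃ x, α (MM N k) x = α (MM N (k + 2)) x)
    (h3 : ∃ x, α (MM N 0) x = α (MM N (N - 1)) x) (h4 : ∃ x, α (MM N 0) x = x)
    (h5 : ∀ k, 1 ≤ k → k < N →
      ∃ x, α (MM N 0) x = α (MM N k) x ∧ α (MM N 0) x = α (MM N (k + 1)) x)
    (ε : ℝ) (hε : 0 < ε) : ∃ x, ∀ k, k ≤ N → ‖α (MM N k) x - x‖ < ε := by
  obtain ⟨n, rfl⟩ : ∃ n, N = n + 1 := ⟨N - 1, by omega⟩
  obtain ⟨τ, hτ⟩ := hT (n + 1) _ (fun ρ s => α (AA ρ s)) fun l1 l2 i j h => by
    obtain ⟨c, hc⟩ := AA_swp l1 l2 i j h
    exact ⟨α c, fun s f g => by simp only [hc s f g, _root_.map_mul]⟩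
  have e : ∀ π k, k ≤ n + 1 → ∀ x, τ.ga π k x = α (gg π (n + 1)) (α (MM (n + 1) k) x) := by
    intro π k hk x
    rw [hτ π k hk, ← _root_.map_inv, ← _root_.map_mul, ← gg, gg_eq π hk, _root_.map_mul]
    rfl
  have el : ∀ π k l, k ≤ n + 1 → l ≤ n + 1 →
      (∃ x, α (MM (n + 1) k) x = α (MM (n + 1) l) x) → El τ π k l :=
    fun π k l hk hl ⟨x, hx⟩ => ⟨x, by rw [e π k hk, e π l hl, hx]⟩
  obtain ⟨x, hx⟩ := hM H n τ (by omega) (fun π _ =>
    ⟨fun k hk => el π _ _ (by omega) (by omega) (h1 k (by omega)),
      fun k hk => el π _ _ (by omega) (by omega) (h2 k (by omega)),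
      el π _ _ (by omega) (by omega) h3,
      el π _ _ (by omega) le_rfl (by simpa [MM_top] using h4)⟩)
    (fun k k1 k2 => by
      obtain ⟨x, a, b⟩ := h5 k k1 (by omega)
      exact ⟨x, by rw [e _ _ (by omega), e _ _ (by omega), a],
        by rw [e _ _ (by omega), e _ _ (by omega), b]⟩) (ε / 2) (by positivity)
  have d : ∀ k, k ≤ n + 1 → ‖α (MM (n + 1) k) x - α (MM (n + 1) 0) x‖ < ε / 2 := by
    intro k hk
    have := hx k hk
    rwa [e _ _ hk, e _ _ (by omega), ← dist_eq_norm, AffineIsometryEquiv.dist_map,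
      dist_eq_norm] at this
  refine ⟨x, fun k hk => ?_⟩
  have a := d k hk
  have b := d (n + 1) le_rfl
  rw [MM_top, _root_.map_one] at b
  calc _ = ‖(α (MM (n + 1) k) x - α (MM (n + 1) 0) x) - (x - α (MM (n + 1) 0) x)‖ := by
        congr 1; abel
    _ ≤ _ := norm_sub_le _ _
    _ < ε / 2 + ε / 2 := add_lt_add a b
    _ = ε := by ring

end Pool.Agent.MA
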