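import Pool.Agent.Lib.MP_c86c76_al.An.St

/-!
Comparison of the least energies of near configurations.
-/

set_option autoImplicit false

namespace Pool.Agent.MA

open Complex MeasureTheory Filter Topology Set Function

theorem lc_bb (χ : ℂ → ℝ) (z : ℂ) : ‖bb χ z‖ ≤ ‖fderiv ℝ χ z‖ := by
  have h1 := (fderiv ℝ χ z).le_opNorm 1
  have h2 := (fderiv ℝ χ z).le_opNorm I
  have h3 := norm_sub_le ((fderiv ℝ χ z 1 : ℝ) : ℂ) (I * (fderiv ℝ χ z I : ℝ))
  rw [norm_mul, norm_I, norm_real, norm_real] at h3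
  rw [norm_one] at h1
  rw [norm_I] at h2
  rw [bb, norm_div, Complex.norm_two]
  linarith

theorem lc_bump : ∃ M : ℝ, 0 < M ∧ ∀ (s : ℂ) (d : ℝ), 0 < d → ∃ χ : ℂ → ℝ, ContDiff ℝ 2 χ ∧
    HasCompactSupport χ ∧ (∀ z, ‖z - s‖ ≤ d / 4 → χ z = 1) ∧ (∀ z, d ≤ ‖z - s‖ → χ z = 0) ∧
    ∀ z, ‖bb χ z‖ ≤ M / d := by
  let f : ContDiffBump (0 : ℂ) := ⟨1 / 4, 1, by norm_num, by norm_num⟩
  have hf : ContDiff ℝ 2 f := f.contDiff
  obtain ⟨C, hC⟩ := (hf.continuous_fderiv two_ne_zero).bounded_above_of_compact_support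
    (f.hasCompactSupport.fderiv ℝ)
  refine ⟨|C| + 1, by positivity, fun s d hd => ?_⟩
  have hn : ∀ z, ‖d⁻¹ • (z - s)‖ = ‖z - s‖ / d := fun z => by
    rw [norm_smul, norm_inv, Real.norm_of_nonneg hd.le, div_eq_inv_mul]
  have h0 : ∀ z, d ≤ ‖z - s‖ → f (d⁻¹ • (z - s)) = 0 := fun z h =>
    f.zero_of_le_dist (by rw [dist_zero_right, hn]; exact (one_le_div hd).2 h)
  refine ⟨fun z => f (d⁻¹ • (z - s)), hf.comp (by fun_prop),
    .intro (isCompact_closedBall s d) fun z h => h0 z (not_le.1 (mt mem_closedBall_iff_norm.2 h)).le,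
    fun z h => f.one_of_mem_closedBall ?_, h0, fun z => (lc_bb _ z).trans ?_⟩
  · rw [mem_closedBall_zero_iff, hn, div_le_iff₀ hd]
    change _ ≤ 1 / 4 * d
    linarith
  · have := ((hf.differentiable two_ne_zero _).hasFDerivAt.comp z
      (((hasFDerivAt_id z).sub_const s).const_smul d⁻¹)).fderiv
    refine (congrArg norm this).trans_le ((ContinuousLinearMap.opNorm_comp_le _ _).trans ?_)
    rw [norm_smul, norm_inv, Real.norm_of_nonneg hd.le, ContinuousLinearMap.norm_id, mul_one,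
      div_eq_mul_inv]
    gcongr
    exact ((hC _).trans (le_abs_self C)).trans (lt_add_one _).le

theorem lcSt (hB : BasSt) (hP : PulSt) : LcSt := by
  intro κ h0 h1
  obtain ⟨M, hM, hχ⟩ := lc_bump
  refine ⟨min (1 / 4) (κ / (2 * M)), by positivity, fun H _ _ _ n τ T j s s' d hT hd hs hs' => ?_⟩
  obtain ⟨χ, c1, c2, c3, c4, c5⟩ := hχ s d hd
  have inj : ∀ a, ‖a - s‖ ≤ d / 4 → Injective (update T j a) := fun a ha i k h => by
    have : ∀ i, i ≠ j → a ≠ T i := fun i hi e => by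
      have := hs i hi
      rw [← e, norm_sub_rev] at this
      linarith
    by_cases hi : i = j <;> by_cases hk : k = j
    · rw [hi, hk]
    · exact absurd (by simpa [hi, hk] using h) (this k hk)
    · exact absurd (by simpa [hi, hk] using h.symm) (this i hi)
    · exact hT (by simpa [hi, hk] using h)
  have key : ∀ a b, ‖a - s‖ ≤ d / 4 → ‖b - a‖ ≤ κ / (2 * M) * d → ∀ U, IsSec τ (update T j b) U →
      Ne τ (update T j a) ∧ (1 - κ) * EE τ (update T j a) ≤ (1 + κ) * en τ (update T j b) U := by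
    intro a b ha hb U hU
    have e : update T j b = fun i => update T j a i + (b - a) * χ (update T j a i) := by
      funext i
      rcases eq_or_ne i j with rfl | h
      · simp [c3 a ha]
      · simp [h, c4 (T i) (norm_sub_rev s _ ▸ hs i h)]
    rw [e] at hU ⊢
    obtain ⟨V, hV, h, -⟩ := hP H n τ _ χ (b - a) κ (inj a ha) c1 c2 h1 (fun z =>
      calc _ ≤ 2 * (κ / (2 * M) * d) * (M / d) := by gcongr; exact c5 z
        _ = κ := by field_simp) U hU
    exact ⟨⟨V, hV⟩, (mul_le_mul_of_nonneg_left ((hB H n τ _ (inj a ha)).2.2.2.2.2.2.2 V hV)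
      (sub_pos.2 h1).le).trans h⟩
  have a0 : ‖s - s‖ ≤ d / 4 := by rw [sub_self, norm_zero]; positivity
  have a1 : ‖s' - s‖ ≤ d / 4 := hs'.trans
    ((mul_le_mul_of_nonneg_right (min_le_left _ _) hd.le).trans_eq (by ring))
  have a2 : ‖s' - s‖ ≤ κ / (2 * M) * d := hs'.trans (by gcongr; exact min_le_right _ _)
  have k1 := key s s' a0 a2
  have k2 := key s' s a1 (norm_sub_rev s s' ▸ a2)
  have hN : Ne τ (update T j s) ↔ Ne τ (update T j s') :=
    ⟨fun ⟨U, h⟩ => (k2 U h).1, fun ⟨U, h⟩ => (k1 U h).1⟩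
  have fin : ∀ A B : Fin n → ℂ, (Ne τ A ↔ Ne τ B) →
      (∀ U, IsSec τ B U → Ne τ A ∧ (1 - κ) * EE τ A ≤ (1 + κ) * en τ B U) →
      (1 - κ) * EE τ A ≤ (1 + κ) * EE τ B := fun A B h k => by
    by_cases e : Ne τ B
    · rw [← div_le_iff₀' (by positivity)]
      refine le_csInf (Set.Nonempty.image _ e) ?_
      rintro _ ⟨U, hU, rfl⟩
      exact (div_le_iff₀' (by positivity)).2 (k U hU).2
    · rw [EE, EE, (not_nonempty_iff_eq_empty (s := {U | IsSec τ B U})).1 e,
        (not_nonempty_iff_eq_empty (s := {U | IsSec τ A U})).1 (mt h.1 e)]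
      simp
  exact ⟨hN, fin _ _ hN k1, fin _ _ hN.symm k2⟩

end Pool.Agent.MA
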