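import Mathlib

/-!
The energy of flat sections over the punctured plane: definitions and statements.
-/

set_option autoImplicit false

namespace Pool.Agent.MA

open Complex MeasureTheory Filter Topology Set Function
open scoped InnerProductSpace

/-- The configuration with the moving point `z` and the punctures `T`. -/
def cf {n : ℕ} (z : ℂ) (T : Fin n → ℂ) : Option (Fin n) → ℂ := fun o => o.elim z T

/-- `p` is near to `p0`. -/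
def Nr {ι : Type} (p0 p : ι → ℂ) : Prop :=
  ∀ i j, i ≠ j → ‖(p j - p i) - (p0 j - p0 i)‖ < ‖p0 j - p0 i‖

/-- A real configuration. -/
def rc {n : ℕ} (t : Fin n → ℝ) : Fin n → ℂ := fun i => (t i : ℂ)

/-- The number of punctures left of `x`. -/
noncomputable def kk {n : ℕ} (t : Fin n → ℝ) (x : ℝ) : ℕ :=
  (Finset.univ.filter fun m => t m < x).card

/-- Parallel transport between near configurations. -/
structure Tr (n : ℕ) (G : Type) [Group G] : Type where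
  c : (Option (Fin n) → ℂ) → (Option (Fin n) → ℂ) → G
  a : Equiv.Perm (Fin n) → ℕ → G
  b : Equiv.Perm (Fin n) → ℕ → G
  co : ∀ p0 p p', Nr p0 p → Nr p0 p' → Nr p p' → c p0 p' = c p p' * c p0 p
  loc : ∀ (z0 : ℂ) (T : Fin n → ℂ), (∀ i, (T i).im ≠ z0.im) →
    ∀ᶠ z in 𝓝 z0, c (cf z0 T) (cf z T) = 1
  re : ∀ (π : Equiv.Perm (Fin n)) (t : Fin n → ℝ) (x : ℝ), StrictMono (t ∘ π) → (∀ i, t i ≠ x) →
    ∀ᶠ z in 𝓝 (x : ℂ), c (cf x (rc t)) (cf z (rc t)) =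
      if 0 < z.im then a π (kk t x) else if z.im < 0 then b π (kk t x) else 1

/-- The gluing of the half planes along the interval `k`. -/
def Tr.ga {n : ℕ} {G : Type} [Group G] (τ : Tr n G) (π : Equiv.Perm (Fin n)) (k : ℕ) : G :=
  τ.b π k * (τ.a π k)⁻¹

/-- Every label occurs exactly once. -/
def Ful {ι : Type} (l : List ι) : Prop := l.Nodup ∧ ∀ i, i ∈ l

/-- The order of the punctures. -/
def od {n : ℕ} (π : Equiv.Perm (Fin n)) : List (Option (Fin n)) := List.ofFn fun k => some (π k)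

/-- The order of the punctures with the moving point at the place `k`. -/
def odk {n : ℕ} (π : Equiv.Perm (Fin n)) (k : ℕ) : List (Option (Fin n)) :=
  (od π).take k ++ none :: (od π).drop k

/-- The effect of an adjacent swap does not depend on the second order. -/
def Swp {ι G : Type} [DecidableEq ι] [Group G] (A : List ι → List ι → G) : Prop :=
  ∀ l1 l2 i j, Ful (l1 ++ i :: j :: l2) → ∃ c : G, ∀ s, Ful s → s.idxOf i < s.idxOf j →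
    A (l1 ++ j :: i :: l2) s = c * A (l1 ++ i :: j :: l2) s

/-- Transport from permutation braids. -/
def TrSt : Prop := ∀ (n : ℕ) (G : Type) [Group G]
  (A : List (Option (Fin n)) → List (Option (Fin n)) → G), Swp A →
  ∃ τ : Tr n G, ∀ π k, k ≤ n →
    τ.ga π k = A (none :: od π) (odk π k) * (A (od π ++ [none]) (odk π k))⁻¹

/-- The indefinite form. -/
noncomputable def QQ {X Y : Type} [NormedAddCommGroup X] [InnerProductSpace ℂ X]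
    [NormedAddCommGroup Y] [InnerProductSpace ℂ Y] (e w : X × Y) : ℂ :=
  ⟪e.1, w.1⟫_ℂ - ⟪e.2, w.2⟫_ℂ

/-- The Hilbert space lemma. -/
def KreinSt : Prop := ∀ (X Y : Type) [NormedAddCommGroup X] [InnerProductSpace ℂ X]
  [CompleteSpace X] [NormedAddCommGroup Y] [InnerProductSpace ℂ Y] [CompleteSpace Y]
  (D : Set (X × Y)) (a : X →L[ℂ] Y) (b : X →L[ℂ] X), D.Nonempty →
  (∀ e ∈ D, ∀ e' ∈ D, ∀ e'' ∈ D, ∀ c : ℂ, e + c • (e' - e'') ∈ D) →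
  (∀ e ∈ D, ∀ e' ∈ D, ∀ e'' ∈ D, QQ e (e' - e'') = 0) →
  ∃ r > 0, ∃ (f : ℂ → X) (h : ℂ → ℂ), DifferentiableOn ℂ h (Metric.ball 0 r) ∧
    (h 0).re = sInf ((fun e : X × Y => ‖e.1‖ ^ 2 + ‖e.2‖ ^ 2) '' D) ∧
    ∀ s ∈ Metric.ball (0 : ℂ) r, ∀ e ∈ D,
      (h s).re ≤ 4 * (QQ e (f s + s • b (f s), s • a (f s))).re -
        2 * (‖f s + s • b (f s)‖ ^ 2 - ‖s • a (f s)‖ ^ 2) - (‖e.1‖ ^ 2 - ‖e.2‖ ^ 2)

/-- Liouville's theorem for functions with harmonic supports. -/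
def LioSt : Prop := ∀ (A : Finset ℂ) (E : ℂ → ℝ) (M : ℝ), ContinuousOn E (A : Set ℂ)ᶜ →
  (∀ s, s ∉ A → |E s| ≤ M) →
  (∀ s0, s0 ∉ A → ∃ h : ℂ → ℂ, (∀ᶠ s in 𝓝 s0, DifferentiableAt ℂ h s) ∧ (h s0).re = E s0 ∧
    ∀ᶠ s in 𝓝 s0, (h s).re ≤ E s) →
  ∀ s, s ∉ A → ∀ s', s' ∉ A → E s = E s'

/-- The point `x` lies between the neighbours of the puncture `i`. -/
def Aj {n : ℕ} (t : Fin n → ℝ) (i : Fin n) (x : ℝ) : Prop :=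
  ∀ m, (t m < t i → t m < x) ∧ (t i < t m → x < t m)

/-- A partition of unity adapted to a real configuration. -/
def Par {n : ℕ} (t : Fin n → ℝ) (ψ : Fin n → ℂ → ℝ) : Prop :=
  (∀ i, ContDiff ℝ 2 (ψ i) ∧ HasCompactSupport (ψ i)) ∧
  (∀ (x : ℝ) (i : Fin n), Aj t i x ∨ ∀ᶠ z in 𝓝 (x : ℂ), ψ i z = 0) ∧
  ∀ x : ℝ, (∃ m, t m ≤ x) → (∃ m, x ≤ t m) → ∀ᶠ z in 𝓝 (x : ℂ), ∑ i, ψ i z = 1

/-- Partitions exist. -/
def ParSt : Prop := ∀ (n : ℕ) (t : Fin n → ℝ), Injective t → ∃ ψ, Par t ψ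

/-- The Dirichlet integral of a function. -/
noncomputable def dir (ψ : ℂ → ℝ) : ℝ := ∫ z, ‖fderiv ℝ ψ z‖ ^ 2

/-- The Dirichlet integral: scaling and sums. -/
def DirSt : Prop :=
  (∀ (ψ : ℂ → ℝ) (a : ℂ) (r : ℝ), 0 < r → dir (fun z => ψ ((z - a) / r)) = dir ψ) ∧
  (∀ (ψ : ℂ → ℝ) (c : ℝ), dir (fun z => c - ψ z) = dir ψ) ∧
  ∀ φ ψ : ℂ → ℝ, ContDiff ℝ 1 φ → HasCompactSupport φ → ContDiff ℝ 1 ψ → HasCompactSupport ψ →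
    dir (fun z => φ z - ψ z) ≤ 2 * dir φ + 2 * dir ψ ∧
    dir (fun z => φ z + ψ z) ≤ 2 * dir φ + 2 * dir ψ

/-- Logarithmic cut-off functions. -/
def LogSt : Prop := ∃ C : ℝ, ∀ ρ R : ℝ, 0 < ρ → 1 < R → ∃ η : ℂ → ℝ, ContDiff ℝ 2 η ∧
  (∀ z, ‖z‖ ≤ ρ → η z = 1) ∧ (∀ z, ρ * R ≤ ‖z‖ → η z = 0) ∧ dir η ≤ C / Real.log R

/-- The derivative of a real function in the direction of `z`. -/
noncomputable def bb (χ : ℂ → ℝ) (z : ℂ) : ℂ :=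
  ((fderiv ℝ χ z 1 : ℝ) - I * (fderiv ℝ χ z I : ℝ)) / 2

section Hilbert

variable {H : Type} [NormedAddCommGroup H] [InnerProductSpace ℂ H] {n : ℕ}

/-- A section in the gauge of the point `z0`. -/
noncomputable def gz (τ : Tr n (H ≃ᵃⁱ[ℂ] H)) (T : Fin n → ℂ) (U : ℂ → H) (z0 : ℂ) : ℂ → H :=
  fun z => (τ.c (cf z0 T) (cf z T))⁻¹ (U z)

/-- Sections that are flat near the punctures and near infinity. -/
def IsSec (τ : Tr n (H ≃ᵃⁱ[ℂ] H)) (T : Fin n → ℂ) (U : ℂ → H) : Prop :=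
  (∀ z0, (∀ i, T i ≠ z0) → ContDiffAt ℝ 2 (gz τ T U z0) z0) ∧
  ∃ K : Set ℂ, IsCompact K ∧ (∀ i, T i ∉ K) ∧
    ∀ z0, z0 ∉ K → (∀ i, T i ≠ z0) → ∀ᶠ z in 𝓝 z0, gz τ T U z0 z = U z0

/-- The covariant derivative. -/
noncomputable def DD (τ : Tr n (H ≃ᵃⁱ[ℂ] H)) (T : Fin n → ℂ) (U : ℂ → H) (z : ℂ) : ℂ →L[ℝ] H :=
  fderiv ℝ (gz τ T U z) z

/-- Its complex linear part. -/
noncomputable def d1 (τ : Tr n (H ≃ᵃⁱ[ℂ] H)) (T : Fin n → ℂ) (U : ℂ → H) (z : ℂ) : H :=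
  DD τ T U z 1 - I • DD τ T U z I

/-- Its complex antilinear part. -/
noncomputable def d2 (τ : Tr n (H ≃ᵃⁱ[ℂ] H)) (T : Fin n → ℂ) (U : ℂ → H) (z : ℂ) : H :=
  DD τ T U z 1 + I • DD τ T U z I

/-- The energy of a section. -/
noncomputable def en (τ : Tr n (H ≃ᵃⁱ[ℂ] H)) (T : Fin n → ℂ) (U : ℂ → H) : ℝ :=
  ∫ z, (‖d1 τ T U z‖ ^ 2 + ‖d2 τ T U z‖ ^ 2)

/-- There is a section. -/
def Ne (τ : Tr n (H ≃ᵃⁱ[ℂ] H)) (T : Fin n → ℂ) : Prop := ∃ U, IsSec τ T U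

/-- The least energy. -/
noncomputable def EE (τ : Tr n (H ≃ᵃⁱ[ℂ] H)) (T : Fin n → ℂ) : ℝ :=
  sInf (en τ T '' {U | IsSec τ T U})

/-- Two gluings agree at a point. -/
def El (τ : Tr n (H ≃ᵃⁱ[ℂ] H)) (π : Equiv.Perm (Fin n)) (k l : ℕ) : Prop :=
  ∃ x, τ.ga π k x = τ.ga π l x

/-- The loops around one puncture, two punctures, all punctures but the last, and all punctures
have fixed points. -/
def Hyp (τ : Tr (n + 1) (H ≃ᵃⁱ[ℂ] H)) : Prop := ∀ π : Equiv.Perm (Fin (n + 1)), π 0 = 0 →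
  (∀ k, k ≤ n → El τ π k (k + 1)) ∧ (∀ k, k + 1 ≤ n → El τ π k (k + 2)) ∧ El τ π 0 n ∧
    El τ π 0 (n + 1)

/-- The groups of the annuli have fixed points. -/
def Hyp3 (τ : Tr (n + 1) (H ≃ᵃⁱ[ℂ] H)) : Prop := ∀ k, 1 ≤ k → k ≤ n →
  ∃ x, τ.ga 1 0 x = τ.ga 1 k x ∧ τ.ga 1 0 x = τ.ga 1 (k + 1) x

end Hilbert

/-- Basic facts: change of gauge, integrability, affine combinations. -/
def BasSt : Prop := ∀ (H : Type) [NormedAddCommGroup H] [InnerProductSpace ℂ H] [CompleteSpace H]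
  (n : ℕ) (τ : Tr n (H ≃ᵃⁱ[ℂ] H)) (T : Fin n → ℂ), Injective T →
  (∀ z, (∀ i, T i ≠ z) → τ.c (cf z T) (cf z T) = 1) ∧
  (∀ U z0, (∀ i, T i ≠ z0) → ∀ᶠ z1 in 𝓝 z0, (∀ i, T i ≠ z1) ∧
    gz τ T U z1 =ᶠ[𝓝 z1] fun z => τ.c (cf z0 T) (cf z1 T) (gz τ T U z0 z)) ∧
  (∀ U, IsSec τ T U → ∀ z0, (∀ i, T i ≠ z0) → ∀ᶠ z1 in 𝓝 z0, ∀ v, DD τ T U z1 v =
    (τ.c (cf z0 T) (cf z1 T)).linearIsometryEquiv (fderiv ℝ (gz τ T U z0) z1 v)) ∧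
  (∀ U, IsSec τ T U → MemLp (d1 τ T U) 2 volume ∧ MemLp (d2 τ T U) 2 volume ∧
    Integrable (fun z => ‖DD τ T U z‖ ^ 2) ∧ ∫ z, ‖DD τ T U z‖ ^ 2 ≤ en τ T U) ∧
  (∀ U U' U'' (c : ℂ), IsSec τ T U → IsSec τ T U' → IsSec τ T U'' →
    IsSec τ T (fun z => U z + c • (U' z - U'' z)) ∧ ∀ z, (∀ i, T i ≠ z) → ∀ v,
      DD τ T (fun z => U z + c • (U' z - U'' z)) z v =
        DD τ T U z v + c • (DD τ T U' z v - DD τ T U'' z v)) ∧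
  (∀ U, 0 ≤ en τ T U) ∧ 0 ≤ EE τ T ∧ ∀ U, IsSec τ T U → EE τ T ≤ en τ T U

/-- Stokes. -/
def StoSt : Prop := ∀ (H : Type) [NormedAddCommGroup H] [InnerProductSpace ℂ H] [CompleteSpace H]
  (n : ℕ) (τ : Tr n (H ≃ᵃⁱ[ℂ] H)) (T : Fin n → ℂ), Injective T → ∀ U U' U'',
  IsSec τ T U → IsSec τ T U' → IsSec τ T U'' →
  ∫ z, (⟪d1 τ T U z, d1 τ T U' z - d1 τ T U'' z⟫_ℂ - ⟪d2 τ T U z, d2 τ T U' z - d2 τ T U'' z⟫_ℂ) = 0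

/-- The pull back of a section, pointwise. -/
def PbSt : Prop := ∀ (H : Type) [NormedAddCommGroup H] [InnerProductSpace ℂ H] [CompleteSpace H]
  (n : ℕ) (τ : Tr n (H ≃ᵃⁱ[ℂ] H)) (T : Fin n → ℂ) (χ : ℂ → ℝ) (s : ℂ) (κ : ℝ), Injective T →
  ContDiff ℝ 2 χ → HasCompactSupport χ → κ < 1 → (∀ z, 2 * ‖s‖ * ‖bb χ z‖ ≤ κ) →
  Injective (fun z => z + s * χ z) ∧
  ∀ U, IsSec τ (fun i => T i + s * χ (T i)) U → ∃ (V : ℂ → H) (R : ℂ → H ≃ₗᵢ[ℂ] H),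
    IsSec τ T V ∧ ∀ z, (∀ i, T i ≠ z) →
      d1 τ T V z = R z ((1 + s * bb χ z) • d1 τ (fun i => T i + s * χ (T i)) U (z + s * χ z) +
        (starRingEnd ℂ s * bb χ z) • d2 τ (fun i => T i + s * χ (T i)) U (z + s * χ z)) ∧
      d2 τ T V z = R z ((s * starRingEnd ℂ (bb χ z)) •
          d1 τ (fun i => T i + s * χ (T i)) U (z + s * χ z) +
        starRingEnd ℂ (1 + s * bb χ z) • d2 τ (fun i => T i + s * χ (T i)) U (z + s * χ z))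

/-- Change of variables. -/
def ChSt : Prop := ∀ (χ : ℂ → ℝ) (s : ℂ) (κ : ℝ) (F : ℂ → ℝ), ContDiff ℝ 2 χ → κ < 1 →
  (∀ z, 2 * ‖s‖ * ‖bb χ z‖ ≤ κ) → Injective (fun z => z + s * χ z) → (∀ z, 0 ≤ F z) →
  Integrable F →
  Integrable (fun z => (‖1 + s * bb χ z‖ ^ 2 - ‖s * bb χ z‖ ^ 2) * F (z + s * χ z)) ∧
  ∫ z, (‖1 + s * bb χ z‖ ^ 2 - ‖s * bb χ z‖ ^ 2) * F (z + s * χ z) ≤ ∫ z, F z

/-- The pull back of a section, integrated. -/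
def PulSt : Prop := ∀ (H : Type) [NormedAddCommGroup H] [InnerProductSpace ℂ H] [CompleteSpace H]
  (n : ℕ) (τ : Tr n (H ≃ᵃⁱ[ℂ] H)) (T : Fin n → ℂ) (χ : ℂ → ℝ) (s : ℂ) (κ : ℝ), Injective T →
  ContDiff ℝ 2 χ → HasCompactSupport χ → κ < 1 → (∀ z, 2 * ‖s‖ * ‖bb χ z‖ ≤ κ) →
  ∀ U, IsSec τ (fun i => T i + s * χ (T i)) U → ∃ V : ℂ → H, IsSec τ T V ∧
    (1 - κ) * en τ T V ≤ (1 + κ) * en τ (fun i => T i + s * χ (T i)) U ∧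
    ∀ f : ℂ → H, MemLp f 2 volume →
      4 * (∫ z, (⟪d1 τ T V z, (1 + s * bb χ z) • f z⟫_ℂ -
          ⟪d2 τ T V z, (s * starRingEnd ℂ (bb χ z)) • f z⟫_ℂ).re) -
        2 * ((∫ z, ‖(1 + s * bb χ z) • f z‖ ^ 2) - ∫ z, ‖(s * starRingEnd ℂ (bb χ z)) • f z‖ ^ 2) -
        ((∫ z, ‖d1 τ T V z‖ ^ 2) - ∫ z, ‖d2 τ T V z‖ ^ 2) ≤
      en τ (fun i => T i + s * χ (T i)) U

/-- Comparison of near configurations. -/
def LcSt : Prop := ∀ κ : ℝ, 0 < κ → κ < 1 → ∃ c > 0,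
  ∀ (H : Type) [NormedAddCommGroup H] [InnerProductSpace ℂ H] [CompleteSpace H]
  (n : ℕ) (τ : Tr n (H ≃ᵃⁱ[ℂ] H)) (T : Fin n → ℂ) (j : Fin n) (s s' : ℂ) (d : ℝ), Injective T →
  0 < d → (∀ i, i ≠ j → d ≤ ‖s - T i‖) → ‖s' - s‖ ≤ c * d →
  (Ne τ (update T j s) ↔ Ne τ (update T j s')) ∧
  (1 - κ) * EE τ (update T j s) ≤ (1 + κ) * EE τ (update T j s') ∧
  (1 - κ) * EE τ (update T j s') ≤ (1 + κ) * EE τ (update T j s)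

/-- Harmonic supports of the least energy. -/
def SupSt : Prop := ∀ (H : Type) [NormedAddCommGroup H] [InnerProductSpace ℂ H] [CompleteSpace H]
  (n : ℕ) (τ : Tr n (H ≃ᵃⁱ[ℂ] H)) (T : Fin n → ℂ) (j : Fin n) (s0 : ℂ), Injective T →
  (∀ i, i ≠ j → T i ≠ s0) → (∀ᶠ s in 𝓝 s0, Ne τ (update T j s)) →
  ∃ h : ℂ → ℂ, (∀ᶠ s in 𝓝 s0, DifferentiableAt ℂ h s) ∧ (h s0).re = EE τ (update T j s0) ∧
    ∀ᶠ s in 𝓝 s0, (h s).re ≤ EE τ (update T j s)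

/-- Test sections. -/
def TesSt : Prop := ∀ (H : Type) [NormedAddCommGroup H] [InnerProductSpace ℂ H] [CompleteSpace H]
  (n : ℕ) (τ : Tr n (H ≃ᵃⁱ[ℂ] H)) (π : Equiv.Perm (Fin n)) (t : Fin n → ℝ) (ι : Type) [Fintype ι]
  (ψ : ι → ℂ → ℝ) (x y : ι → H), StrictMono (t ∘ π) → (∀ i, ContDiff ℝ 2 (ψ i)) →
  (∀ z, ∑ i, ψ i z = 1) → (∀ i m, ∀ᶠ z in 𝓝 (t m : ℂ), ψ i z = ψ i (t m)) →
  (∀ i, ∃ c : ℝ, HasCompactSupport fun z => ψ i z - c) →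
  (∀ x0 : ℝ, (∀ m, t m ≠ x0) → ∀ i, τ.ga π (kk t x0) (x i) = y i ∨ ∀ᶠ z in 𝓝 (x0 : ℂ), ψ i z = 0) →
  Ne τ (rc t) ∧
    EE τ (rc t) ≤ 4 * Fintype.card ι * ∑ i, (‖x i‖ ^ 2 + ‖y i‖ ^ 2) * dir (ψ i)

/-- The least energy is bounded when a puncture runs into another one from the right. -/
def ColSt : Prop := ∀ (H : Type) [NormedAddCommGroup H] [InnerProductSpace ℂ H] [CompleteSpace H]
  (n : ℕ) (τ : Tr (n + 1) (H ≃ᵃⁱ[ℂ] H)) (t : Fin (n + 1) → ℝ) (i j : Fin (n + 1)), Hyp τ →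
  StrictMono t → j ≠ 0 → i ≠ j → ∃ C : ℝ, ∀ᶠ r in 𝓝[>] (0 : ℝ),
    Ne τ (rc (update t j (t i + r))) ∧ EE τ (rc (update t j (t i + r))) ≤ C

/-- The least energy is bounded when a puncture runs to infinity to the right. -/
def InfSt : Prop := ∀ (H : Type) [NormedAddCommGroup H] [InnerProductSpace ℂ H] [CompleteSpace H]
  (n : ℕ) (τ : Tr (n + 1) (H ≃ᵃⁱ[ℂ] H)) (t : Fin (n + 1) → ℝ) (j : Fin (n + 1)), Hyp τ →
  StrictMono t → j ≠ 0 → ∃ C : ℝ, ∀ᶠ R in atTop,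
    Ne τ (rc (update t j R)) ∧ EE τ (rc (update t j R)) ≤ C

/-- The degenerate configuration. -/
def dg (n : ℕ) (R : ℝ) : Fin (n + 1) → ℝ := fun k => if k = 0 then 0 else R ^ (k : ℕ)

/-- The least energy tends to zero at the degeneration. -/
def DegSt : Prop := ∀ (H : Type) [NormedAddCommGroup H] [InnerProductSpace ℂ H] [CompleteSpace H]
  (n : ℕ) (τ : Tr (n + 1) (H ≃ᵃⁱ[ℂ] H)), 1 ≤ n → Hyp3 τ → ∀ ε > 0, ∀ᶠ R in atTop,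
    Ne τ (rc (dg n R)) ∧ EE τ (rc (dg n R)) ≤ ε

/-- A function with a Harnack step that is bounded along rays is bounded. -/
def BdSt : Prop := ∀ (A : Finset ℂ) (E : ℂ → ℝ) (P : ℂ → Prop), A.Nonempty → (∀ s, 0 ≤ E s) →
  (∀ κ : ℝ, 0 < κ → κ < 1 → ∃ c > 0, ∀ (s s' : ℂ) (d : ℝ), 0 < d → (∀ a ∈ A, d ≤ ‖s - a‖) →
    ‖s' - s‖ ≤ c * d → (P s ↔ P s') ∧ (1 - κ) * E s ≤ (1 + κ) * E s' ∧
      (1 - κ) * E s' ≤ (1 + κ) * E s) →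
  (∀ a ∈ A, ∃ C : ℝ, ∀ᶠ r : ℝ in 𝓝[>] (0 : ℝ), E (a + r) ≤ C) →
  (∃ C : ℝ, ∀ᶠ R : ℝ in atTop, P R ∧ E R ≤ C) →
  (∀ s, s ∉ A → P s) ∧ ContinuousOn E (A : Set ℂ)ᶜ ∧ ∃ M : ℝ, ∀ s, s ∉ A → |E s| ≤ M

/-- The least energy does not depend on the place of one puncture. -/
def ConSt : Prop := ∀ (H : Type) [NormedAddCommGroup H] [InnerProductSpace ℂ H] [CompleteSpace H]
  (n : ℕ) (τ : Tr (n + 1) (H ≃ᵃⁱ[ℂ] H)) (t : Fin (n + 1) → ℝ) (j : Fin (n + 1)) (x : ℝ), Hyp τ →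
  StrictMono t → j ≠ 0 → (∀ i, i ≠ j → t i ≠ x) →
  Ne τ (rc t) ∧ EE τ (rc t) = EE τ (rc (update t j x))

/-- Differences along a segment, on average. -/
def SegSt : Prop := ∀ (H : Type) [NormedAddCommGroup H] [InnerProductSpace ℂ H] [CompleteSpace H]
  (w : ℂ → H) (F : ℂ → ℝ) (a b : ℂ) (δ : ℝ), 0 < δ →
  (∀ z ∈ segment ℝ a b, ∀ ζ ∈ Metric.ball (0 : ℂ) δ,
    ContDiffAt ℝ 1 w (z + ζ) ∧ ‖fderiv ℝ w (z + ζ)‖ ^ 2 ≤ F (z + ζ)) →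
  (∀ z, 0 ≤ F z) → Integrable F →
  ∫⁻ ζ in Metric.ball (0 : ℂ) δ, ENNReal.ofReal (‖w (b + ζ) - w (a + ζ)‖ ^ 2) ≤
    ENNReal.ofReal (‖b - a‖ ^ 2 * ∫ z, F z)

/-- Least energy zero gives almost fixed points. -/
def FinSt : Prop := ∀ (H : Type) [NormedAddCommGroup H] [InnerProductSpace ℂ H] [CompleteSpace H]
  (n : ℕ) (τ : Tr n (H ≃ᵃⁱ[ℂ] H)) (t : Fin n → ℝ), StrictMono t → Ne τ (rc t) → EE τ (rc t) = 0 →
  ∀ ε > 0, ∃ x, ∀ k, k ≤ n → ‖τ.ga 1 k x - τ.ga 1 0 x‖ < ε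

/-- The analytic theorem. -/
def MainSt : Prop := ∀ (H : Type) [NormedAddCommGroup H] [InnerProductSpace ℂ H] [CompleteSpace H]
  (n : ℕ) (τ : Tr (n + 1) (H ≃ᵃⁱ[ℂ] H)), 1 ≤ n → Hyp τ → Hyp3 τ →
  ∀ ε > 0, ∃ x, ∀ k, k ≤ n + 1 → ‖τ.ga 1 k x - τ.ga 1 0 x‖ < ε

end Pool.Agent.MA
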